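import Mathlib
import Pool.Agent.Lib.MP_44a246_ntD.D17
import Pool.Agent.Lib.MP_e52354_ntG.LinAlg
import Pool.Agent.Lib.MP_e52354_ntMR.MR03

/-!
The derivatives of several vectors of polynomials: the stable spaces and the divisibility of their
minors.
-/

namespace Pool.Agent.Lib.MP_44a246_ntMU

open Pool.Agent.Lib.MP_44a246_ntD (exists_minor_neG)
open Pool.Agent.Lib.MP_e52354_ntG (exists_extension)
open Pool.Agent.Lib.MP_e52354_ntMR
open MvPolynomial Module

section

variable {M : Type*} [Field M] {s : ℕ} {E : Type*}

/-- a vector of polynomials as a vector over the field of fractions -/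
noncomputable def em (u : E → MvPolynomial (Fin s) M) :
    E → FractionRing (MvPolynomial (Fin s) M) := fun i => algebraMap _ _ (u i)

theorem em_add (u v : E → MvPolynomial (Fin s) M) :
    em (fun i => u i + v i) = em u + em v := by
  funext i
  exact map_add _ _ _

theorem em_mul (a : MvPolynomial (Fin s) M) (u : E → MvPolynomial (Fin s) M) :
    em (fun i => a * u i) = algebraMap (MvPolynomial (Fin s) M)
      (FractionRing (MvPolynomial (Fin s) M)) a • em u := by
  funext i
  exact map_mul _ _ _

theorem em_zero : em (fun _ => 0 : E → MvPolynomial (Fin s) M) = 0 := by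
  funext i
  exact map_zero _

theorem alg_inj : Function.Injective (algebraMap (MvPolynomial (Fin s) M)
    (FractionRing (MvPolynomial (Fin s) M))) := IsFractionRing.injective _ _

theorem em_injective : Function.Injective (em : (E → MvPolynomial (Fin s) M) → _) := by
  intro u v h
  funext i
  exact alg_inj (congrFun h i)

/-- a common denominator -/
theorem exists_denom [Finite E] (v : E → FractionRing (MvPolynomial (Fin s) M)) :
    ∃ (a : MvPolynomial (Fin s) M) (u : E → MvPolynomial (Fin s) M), a ≠ 0 ∧
      algebraMap (MvPolynomial (Fin s) M) (FractionRing (MvPolynomial (Fin s) M)) a • v =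
        em u := by
  classical
  obtain ⟨b, hb⟩ := IsLocalization.exist_integer_multiples_of_finite
    (nonZeroDivisors (MvPolynomial (Fin s) M)) v
  choose u hu using hb
  refine ⟨b, u, nonZeroDivisors.ne_zero b.2, ?_⟩
  funext i
  have h1 := hu i
  rw [Algebra.smul_def] at h1
  exact h1.symm

/-- stability under the derivations -/
def Stab (U : Submodule (FractionRing (MvPolynomial (Fin s) M))
    (E → FractionRing (MvPolynomial (Fin s) M))) : Prop :=
  ∀ (u : E → MvPolynomial (Fin s) M) (l : Fin s), em u ∈ U → em (fun i => pderiv l (u i)) ∈ U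

/-- the space spanned by a space and the derivatives of order at most `m` -/
noncomputable def SP (U : Submodule (FractionRing (MvPolynomial (Fin s) M))
    (E → FractionRing (MvPolynomial (Fin s) M))) (y : E → MvPolynomial (Fin s) M) (m : ℕ) :
    Submodule (FractionRing (MvPolynomial (Fin s) M))
      (E → FractionRing (MvPolynomial (Fin s) M)) :=
  U ⊔ Submodule.span _ {v | ∃ w : List (Fin s), w.length ≤ m ∧ v = em fun i => dL w (y i)}

variable {U : Submodule (FractionRing (MvPolynomial (Fin s) M))
    (E → FractionRing (MvPolynomial (Fin s) M))} {y : E → MvPolynomial (Fin s) M}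

theorem SP_mono {m m' : ℕ} (h : m ≤ m') : SP U y m ≤ SP U y m' := by
  refine sup_le_sup le_rfl (Submodule.span_mono ?_)
  rintro v ⟨w, hw, rfl⟩
  exact ⟨w, hw.trans h, rfl⟩

theorem le_SP (m : ℕ) : U ≤ SP U y m := le_sup_left

theorem dL_mem_SP {m : ℕ} {w : List (Fin s)} (h : w.length ≤ m) :
    (em fun i => dL w (y i)) ∈ SP U y m :=
  Submodule.mem_sup_right (Submodule.subset_span ⟨w, h, rfl⟩)

/-- the derivatives of an element of the space are in the next space -/
theorem pderiv_mem_SP [Finite E] (hU : Stab U) {m : ℕ} {u : E → MvPolynomial (Fin s) M}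
    (hu : em u ∈ SP U y m) (l : Fin s) : em (fun i => pderiv l (u i)) ∈ SP U y (m + 1) := by
  classical
  -- the property of the vectors over the field of fractions
  have key : ∀ v ∈ SP U y m, ∃ (a : MvPolynomial (Fin s) M)
      (u' : E → MvPolynomial (Fin s) M), a ≠ 0 ∧
      algebraMap (MvPolynomial (Fin s) M) (FractionRing (MvPolynomial (Fin s) M)) a • v =
        em u' ∧ em u' ∈ SP U y (m + 1) ∧ em (fun i => pderiv l (u' i)) ∈ SP U y (m + 1) := by
    intro v hv
    have hv' : v ∈ Submodule.span (FractionRing (MvPolynomial (Fin s) M))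
        ((U : Set (E → FractionRing (MvPolynomial (Fin s) M))) ∪
          {v | ∃ w : List (Fin s), w.length ≤ m ∧ v = em fun i => dL w (y i)}) := by
      rw [Submodule.span_union, Submodule.span_eq]
      exact hv
    clear hv
    induction hv' using Submodule.span_induction with
    | mem v hv =>
      rcases hv with hv | ⟨w, hw, rfl⟩
      · obtain ⟨a, u', ha, h1⟩ := exists_denom v
        have h2 : em u' ∈ U := by
          rw [← h1]
          exact U.smul_mem _ hv
        exact ⟨a, u', ha, h1, le_SP _ h2, le_SP _ (hU u' l h2)⟩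
      · refine ⟨1, _, one_ne_zero, by rw [map_one, one_smul], dL_mem_SP (by omega), ?_⟩
        exact dL_mem_SP (w := l :: w) (by rw [List.length_cons]; omega)
    | zero =>
      refine ⟨1, fun _ => 0, one_ne_zero, by rw [em_zero, smul_zero], ?_, ?_⟩
      · rw [em_zero]; exact Submodule.zero_mem _
      · simp only [map_zero]
        rw [em_zero]; exact Submodule.zero_mem _
    | add v v' _ _ hv hv' =>
      obtain ⟨a, u, ha, h1, h2, h3⟩ := hv
      obtain ⟨a', u', ha', h1', h2', h3'⟩ := hv'
      refine ⟨a * a', fun i => a' * u i + a * u' i, mul_ne_zero ha ha', ?_, ?_, ?_⟩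
      · rw [em_add, em_mul, em_mul, ← h1, ← h1', map_mul, smul_add, smul_smul, smul_smul,
          mul_comm (algebraMap _ _ a') (algebraMap _ _ a)]
      · rw [em_add, em_mul, em_mul]
        exact Submodule.add_mem _ (Submodule.smul_mem _ _ h2) (Submodule.smul_mem _ _ h2')
      · have h4 : (fun i => pderiv l (a' * u i + a * u' i)) = fun i =>
            (pderiv l a' * u i + a' * pderiv l (u i)) +
              (pderiv l a * u' i + a * pderiv l (u' i)) := by
          funext i
          rw [map_add, pderiv_mul, pderiv_mul]
        rw [h4, em_add, em_add, em_add, em_mul, em_mul, em_mul, em_mul]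
        exact Submodule.add_mem _
          (Submodule.add_mem _ (Submodule.smul_mem _ _ h2) (Submodule.smul_mem _ _ h3))
          (Submodule.add_mem _ (Submodule.smul_mem _ _ h2') (Submodule.smul_mem _ _ h3'))
    | smul b v _ hv =>
      obtain ⟨a, u, ha, h1, h2, h3⟩ := hv
      obtain ⟨⟨b₁, b₂⟩, hb⟩ := IsLocalization.surj (nonZeroDivisors (MvPolynomial (Fin s) M)) b
      have hb₂ : (b₂ : MvPolynomial (Fin s) M) ≠ 0 := nonZeroDivisors.ne_zero b₂.2
      refine ⟨a * b₂, fun i => b₁ * u i, mul_ne_zero ha hb₂, ?_, ?_, ?_⟩
      · rw [em_mul, ← h1, smul_smul, smul_smul, map_mul]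
        congr 1
        rw [← hb]
        ring
      · rw [em_mul]
        exact Submodule.smul_mem _ _ h2
      · have h4 : (fun i => pderiv l (b₁ * u i)) = fun i =>
            pderiv l b₁ * u i + b₁ * pderiv l (u i) := by
          funext i
          rw [pderiv_mul]
        rw [h4, em_add, em_mul, em_mul]
        exact Submodule.add_mem _ (Submodule.smul_mem _ _ h2) (Submodule.smul_mem _ _ h3)
  obtain ⟨a, u', ha, h1, h2, h3⟩ := key _ hu
  rw [← em_mul] at h1
  have h4 : ∀ i, u' i = a * u i := fun i => alg_inj (congrFun h1 i).symm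
  have h5 : (fun i => pderiv l (u' i)) = fun i => pderiv l a * u i + a * pderiv l (u i) := by
    funext i
    rw [h4, pderiv_mul]
  rw [h5, em_add, em_mul, em_mul] at h3
  have h6 := Submodule.sub_mem _ h3 (Submodule.smul_mem _
    (algebraMap _ (FractionRing (MvPolynomial (Fin s) M)) (pderiv l a))
    (SP_mono (Nat.le_succ m) hu))
  rw [add_sub_cancel_left] at h6
  have ha' : algebraMap (MvPolynomial (Fin s) M) (FractionRing (MvPolynomial (Fin s) M)) a ≠ 0 := by
    rw [ne_eq, map_eq_zero_iff _ alg_inj]
    exact ha
  exact (Submodule.smul_mem_iff _ ha').1 h6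

theorem Stab_SP [Finite E] (hU : Stab U) {m : ℕ} (h : SP U y (m + 1) ≤ SP U y m) :
    Stab (SP U y m) := fun _ l hu => h (pderiv_mem_SP hU hu l)

theorem Stab.dL_mem (hU : Stab U) {u : E → MvPolynomial (Fin s) M} (hu : em u ∈ U)
    (w : List (Fin s)) : (em fun i => dL w (u i)) ∈ U := by
  induction w with
  | nil => exact hu
  | cons l w ih => exact hU _ l ih

/-- the first stable space -/
theorem exists_stable [Fintype E] (hU : Stab U) (hy : em y ∉ U) :
    ∃ m : ℕ, Stab (SP U y m) ∧
      finrank (FractionRing (MvPolynomial (Fin s) M)) U + m + 1 ≤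
        finrank (FractionRing (MvPolynomial (Fin s) M)) (SP U y m) := by
  classical
  have h0 : finrank (FractionRing (MvPolynomial (Fin s) M)) U + 1 ≤
      finrank (FractionRing (MvPolynomial (Fin s) M)) (SP U y 0) := by
    have h1 : U < SP U y 0 := by
      refine lt_of_le_of_ne (le_SP 0) fun h2 => hy ?_
      rw [h2]
      exact dL_mem_SP (w := []) le_rfl
    exact Submodule.finrank_lt_finrank_of_lt h1
  have hgrow : ∀ m, (∀ i < m, ¬ SP U y (i + 1) ≤ SP U y i) →
      finrank (FractionRing (MvPolynomial (Fin s) M)) U + m + 1 ≤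
        finrank (FractionRing (MvPolynomial (Fin s) M)) (SP U y m) := by
    intro m
    induction m with
    | zero => intro _; exact h0
    | succ m ih =>
      intro h
      have h1 := ih fun i hi => h i (by omega)
      have h2 : SP U y m < SP U y (m + 1) :=
        lt_of_le_not_ge (SP_mono (Nat.le_succ m)) (h m (Nat.lt_succ_self m))
      have h3 := Submodule.finrank_lt_finrank_of_lt h2
      omega
  have hex : ∃ m, SP U y (m + 1) ≤ SP U y m := by
    by_contra hcon
    push Not at hcon
    have h1 := hgrow (Fintype.card E + 1) fun i _ => hcon i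
    have h2 := Submodule.finrank_le (SP U y (Fintype.card E + 1))
    rw [Module.finrank_fintype_fun_eq_card] at h2
    omega
  refine ⟨Nat.find hex, Stab_SP hU (Nat.find_spec hex), hgrow _ fun i hi => Nat.find_min hex hi⟩

/-- the rows of the matrix -/
noncomputable def rowsG {G ρ : Type*} (x : E → M) (y : G → E → MvPolynomial (Fin s) M)
    (κ : ρ → G) (α : ρ → List (Fin s)) : Fin 1 ⊕ ρ → E → MvPolynomial (Fin s) M :=
  Sum.elim (fun _ i => C (x i)) (fun q i => dL (α q) (y (κ q) i))

/-- **The rows for several groups.** -/
theorem exists_rows [Fintype E] {G : Type*} [DecidableEq G] {x : E → M} (hx : x ≠ 0)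
    {y : G → E → MvPolynomial (Fin s) M} {φ : G → E → M} (hφx : ∀ i, ∑ e, φ i e * x e = 0)
    (hφy : ∀ i j, i ≠ j → ∑ e, C (φ i e) * y j e = 0) (hφ0 : ∀ i, ∑ e, C (φ i e) * y i e ≠ 0)
    (S : Finset G) :
    ∃ (ρ : Type) (_ : Fintype ρ) (κ : ρ → G) (α : ρ → List (Fin s)) (m : G → ℕ),
      (∀ q, κ q ∈ S ∧ (α q).length ≤ m (κ q)) ∧ ∑ j ∈ S, m j + S.card ≤ Fintype.card ρ ∧
      LinearIndependent (FractionRing (MvPolynomial (Fin s) M))
        (fun a => em (rowsG x y κ α a)) ∧
      Stab (Submodule.span (FractionRing (MvPolynomial (Fin s) M))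
        (Set.range fun a => em (rowsG x y κ α a))) ∧
      ∀ j ∈ S, em (y j) ∈ Submodule.span (FractionRing (MvPolynomial (Fin s) M))
        (Set.range fun a => em (rowsG x y κ α a)) := by
  classical
  induction S using Finset.induction_on with
  | empty =>
    refine ⟨Fin 0, inferInstance, Fin.elim0, Fin.elim0, fun _ => 0, fun q => q.elim0, ?_, ?_, ?_,
      ?_⟩
    · simp
    · have h1 : (fun a : Fin 1 ⊕ Fin 0 => em (rowsG x y Fin.elim0 Fin.elim0 a)) =
          fun _ => em fun i => C (x i) := by
        funext a
        rcases a with a | a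
        · rfl
        · exact a.elim0
      rw [h1]
      have : Unique (Fin 1 ⊕ Fin 0) := ⟨⟨Sum.inl 0⟩, fun a => by
        rcases a with a | a
        · rw [Subsingleton.elim a 0]
          rfl
        · exact a.elim0⟩
      rw [linearIndependent_unique_iff]
      intro h0
      apply hx
      funext i
      have h2 := congrFun h0 i
      have h3 := alg_inj (h2.trans (map_zero _).symm)
      exact C_injective _ _ (h3.trans C_0.symm)
    · have h1 : Submodule.span (FractionRing (MvPolynomial (Fin s) M))
          (Set.range fun a : Fin 1 ⊕ Fin 0 => em (rowsG x y Fin.elim0 Fin.elim0 a)) =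
          SP ⊥ (fun i => C (x i)) 0 := by
        apply le_antisymm
        · rw [Submodule.span_le]
          rintro _ ⟨a, rfl⟩
          rcases a with a | a
          · exact dL_mem_SP (w := []) le_rfl
          · exact a.elim0
        · refine sup_le bot_le ?_
          rw [Submodule.span_le]
          rintro _ ⟨w, hw, rfl⟩
          have h2 : w = [] := List.length_eq_zero_iff.1 (Nat.le_zero.1 hw)
          rw [h2]
          exact Submodule.subset_span ⟨Sum.inl 0, rfl⟩
      rw [h1]
      refine Stab_SP ?_ ?_
      · intro u l hu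
        rw [Submodule.mem_bot] at hu ⊢
        have h2 : u = fun _ => 0 := em_injective (hu.trans em_zero.symm)
        rw [h2]
        simp only [map_zero]
        exact em_zero
      · refine sup_le bot_le ?_
        rw [Submodule.span_le]
        rintro _ ⟨w, -, rfl⟩
        rcases w with _ | ⟨l, w⟩
        · exact dL_mem_SP (w := []) le_rfl
        · have h2 : (fun i => dL (l :: w) (C (x i) : MvPolynomial (Fin s) M)) = fun _ => 0 := by
            funext i
            have h3 : (C (x i) : MvPolynomial (Fin s) M) = C (x i) * 1 := (mul_one _).symm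
            rw [h3, dL_C_mul, dL_cons]
            have h4 : ∀ w : List (Fin s), ∃ c : M, dL w (1 : MvPolynomial (Fin s) M) = C c := by
              intro w
              induction w with
              | nil => exact ⟨1, C_1.symm⟩
              | cons l w ih =>
                obtain ⟨c, hc⟩ := ih
                exact ⟨0, by rw [dL_cons, hc, pderiv_C, C_0]⟩
            obtain ⟨c, hc⟩ := h4 w
            rw [hc, pderiv_C, mul_zero]
          rw [h2, em_zero]
          exact Submodule.zero_mem _
    · intro j hj
      exact absurd hj (Finset.notMem_empty j)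
  | insert j S hj ih =>
    obtain ⟨ρ, hρ, κ, α, m, hκ, hm, hind, hst, hall⟩ := ih
    obtain ⟨U, hUd⟩ : ∃ U, U = Submodule.span (FractionRing (MvPolynomial (Fin s) M))
        (Set.range fun a => em (rowsG x y κ α a)) := ⟨_, rfl⟩
    rw [← hUd] at hst hall
    -- the functional `φ j` is zero on `U`
    have hφU : ∀ v ∈ U, ∑ e, algebraMap (MvPolynomial (Fin s) M)
        (FractionRing (MvPolynomial (Fin s) M)) (C (φ j e)) * v e = 0 := by
      intro v hv
      rw [hUd] at hv
      induction hv using Submodule.span_induction with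
      | mem v hv =>
        obtain ⟨a, rfl⟩ := hv
        have h1 : ∑ e, algebraMap (MvPolynomial (Fin s) M)
            (FractionRing (MvPolynomial (Fin s) M)) (C (φ j e)) * em (rowsG x y κ α a) e =
            algebraMap (MvPolynomial (Fin s) M)
            (FractionRing (MvPolynomial (Fin s) M)) (∑ e, C (φ j e) * rowsG x y κ α a e) := by
          rw [map_sum]
          exact Finset.sum_congr rfl fun e _ => (map_mul _ _ _).symm
        show ∑ e, algebraMap (MvPolynomial (Fin s) M)
            (FractionRing (MvPolynomial (Fin s) M)) (C (φ j e)) * em (rowsG x y κ α a) e = 0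
        rw [h1]
        have h2 : ∑ e, C (φ j e) * rowsG x y κ α a e = (0 : MvPolynomial (Fin s) M) := by
          rcases a with a | q
          · have h3 : ∑ e, C (φ j e) * rowsG x y κ α (Sum.inl a) e =
                (C (∑ e, φ j e * x e) : MvPolynomial (Fin s) M) := by
              rw [map_sum]
              exact Finset.sum_congr rfl fun i _ => by rw [C_mul]; rfl
            rw [h3, hφx, C_0]
          · have h3 : ∑ e, C (φ j e) * rowsG x y κ α (Sum.inr q) e =
                dL (α q) (∑ e, C (φ j e) * y (κ q) e) := by
              rw [dL_sum]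
              exact Finset.sum_congr rfl fun i _ => (dL_C_mul _ _ _).symm
            rw [h3, hφy, dL_zero]
            rintro rfl
            exact hj (hκ q).1
        rw [h2, map_zero]
      | zero => simp
      | add v v' _ _ hv hv' =>
        simp only [Pi.add_apply, mul_add, Finset.sum_add_distrib]
        rw [hv, hv', add_zero]
      | smul b v _ hv =>
        have h1 : ∑ e, algebraMap (MvPolynomial (Fin s) M)
            (FractionRing (MvPolynomial (Fin s) M)) (C (φ j e)) * (b • v) e =
            b * ∑ e, algebraMap (MvPolynomial (Fin s) M)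
            (FractionRing (MvPolynomial (Fin s) M)) (C (φ j e)) * v e := by
          rw [Finset.mul_sum]
          refine Finset.sum_congr rfl fun e _ => ?_
          rw [Pi.smul_apply, smul_eq_mul]
          ring
        rw [h1, hv, mul_zero]
    have hyU : em (y j) ∉ U := by
      intro h1
      have h2 := hφU _ h1
      have h3 : ∑ e, algebraMap (MvPolynomial (Fin s) M)
          (FractionRing (MvPolynomial (Fin s) M)) (C (φ j e)) * em (y j) e =
          algebraMap (MvPolynomial (Fin s) M)
          (FractionRing (MvPolynomial (Fin s) M)) (∑ e, C (φ j e) * y j e) := by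
        rw [map_sum]
        exact Finset.sum_congr rfl fun e _ => (map_mul _ _ _).symm
      rw [h3] at h2
      exact hφ0 j (alg_inj (h2.trans (map_zero _).symm))
    obtain ⟨m', hst', hdim⟩ := exists_stable hst hyU
    have hUdim : finrank (FractionRing (MvPolynomial (Fin s) M)) U = Fintype.card (Fin 1 ⊕ ρ) := by
      rw [hUd]
      exact finrank_span_eq_card hind
    obtain ⟨r, hr⟩ : ∃ r, finrank (FractionRing (MvPolynomial (Fin s) M)) (SP U (y j) m') =
        Fintype.card (Fin 1 ⊕ ρ) + r := ⟨_, (Nat.add_sub_of_le (by omega)).symm⟩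
    obtain ⟨ε, -⟩ : ∃ ε : Fin (Fintype.card (Fin 1 ⊕ ρ)) ≃ Fin 1 ⊕ ρ, ε = ε :=
      ⟨(Fintype.equivFin _).symm, rfl⟩
    have hmemU : ∀ a, em (rowsG x y κ α a) ∈ U := by
      intro a
      rw [hUd]
      exact Submodule.subset_span ⟨a, rfl⟩
    obtain ⟨Z, hZS, hZ⟩ := exists_extension (SP U (y j) m') hr
      (fun i => em (rowsG x y κ α (ε i))) (hind.comp ε ε.injective)
      (fun i => le_SP _ (hmemU _))
      {v | ∃ w : List (Fin s), w.length ≤ m' ∧ v = em fun i => dL w (y j i)}
      (fun z hz => by
        obtain ⟨w, hw, rfl⟩ := hz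
        exact dL_mem_SP hw) (by
        rw [Submodule.span_union]
        refine sup_le_sup ?_ le_rfl
        rw [hUd, Submodule.span_le]
        rintro _ ⟨a, rfl⟩
        exact Submodule.subset_span ⟨ε.symm a, by
          show em (rowsG x y κ α (ε (ε.symm a))) = _
          rw [Equiv.apply_symm_apply]⟩)
    choose β hβ hZβ using hZS
    obtain ⟨κ', hκ'⟩ : ∃ κ' : ρ ⊕ Fin r → G, κ' = Sum.elim κ fun _ => j := ⟨_, rfl⟩
    obtain ⟨α', hα'⟩ : ∃ α' : ρ ⊕ Fin r → List (Fin s), α' = Sum.elim α β := ⟨_, rfl⟩
    have hrows : ∀ a : Fin 1 ⊕ (ρ ⊕ Fin r), em (rowsG x y κ' α' a) =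
        Sum.elim (fun i => em (rowsG x y κ α (ε i))) Z
          ((Equiv.sumCongr ε.symm (Equiv.refl (Fin r)))
            ((Equiv.sumAssoc (Fin 1) ρ (Fin r)).symm a)) := by
      intro a
      rcases a with a | a | a
      · show em (rowsG x y κ' α' (Sum.inl a)) = em (rowsG x y κ α (ε (ε.symm (Sum.inl a))))
        rw [Equiv.apply_symm_apply]
        rfl
      · show em (rowsG x y κ' α' (Sum.inr (Sum.inl a))) =
          em (rowsG x y κ α (ε (ε.symm (Sum.inr a))))
        rw [Equiv.apply_symm_apply, hκ', hα']
        rfl
      · show em (rowsG x y κ' α' (Sum.inr (Sum.inr a))) = Z a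
        rw [hZβ, hκ', hα']
        rfl
    have hind' : LinearIndependent (FractionRing (MvPolynomial (Fin s) M))
        (fun a => em (rowsG x y κ' α' a)) := by
      have h1 := hZ.comp (fun a => (Equiv.sumCongr ε.symm (Equiv.refl (Fin r)))
        ((Equiv.sumAssoc (Fin 1) ρ (Fin r)).symm a)) ((Equiv.injective _).comp
          (Equiv.injective _))
      have h2 : (fun a => em (rowsG x y κ' α' a)) =
          (Sum.elim (fun i => em (rowsG x y κ α (ε i))) Z) ∘ (fun a =>
            (Equiv.sumCongr ε.symm (Equiv.refl (Fin r)))
              ((Equiv.sumAssoc (Fin 1) ρ (Fin r)).symm a)) := funext hrows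
      rw [h2]
      exact h1
    have hspan : Submodule.span (FractionRing (MvPolynomial (Fin s) M))
        (Set.range fun a => em (rowsG x y κ' α' a)) = SP U (y j) m' := by
      refine Submodule.eq_of_le_of_finrank_eq ?_ ?_
      · rw [Submodule.span_le]
        rintro _ ⟨a, rfl⟩
        rcases a with a | a | a
        · exact le_SP _ (hmemU (Sum.inl a))
        · have h1 : em (rowsG x y κ' α' (Sum.inr (Sum.inl a))) =
              em (rowsG x y κ α (Sum.inr a)) := by
            rw [hκ', hα']
            rfl
          show em (rowsG x y κ' α' (Sum.inr (Sum.inl a))) ∈ SP U (y j) m'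
          rw [h1]
          exact le_SP _ (hmemU (Sum.inr a))
        · have h1 : em (rowsG x y κ' α' (Sum.inr (Sum.inr a))) =
              em fun i => dL (β a) (y j i) := by
            rw [hκ', hα']
            rfl
          show em (rowsG x y κ' α' (Sum.inr (Sum.inr a))) ∈ SP U (y j) m'
          rw [h1]
          exact dL_mem_SP (hβ a)
      · rw [finrank_span_eq_card hind', hr, Fintype.card_sum, Fintype.card_sum, Fintype.card_sum,
          Fintype.card_fin, Fintype.card_fin]
        omega
    refine ⟨ρ ⊕ Fin r, inferInstance, κ', α', Function.update m j m', ?_, ?_, hind', ?_, ?_⟩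
    · rintro (q | q)
      · have h1 : κ' (Sum.inl q) = κ q := by rw [hκ']; rfl
        have h2 : α' (Sum.inl q) = α q := by rw [hα']; rfl
        rw [h1, h2]
        have h3 := hκ q
        refine ⟨Finset.mem_insert_of_mem h3.1, ?_⟩
        rw [Function.update_of_ne]
        · exact h3.2
        · rintro h4
          rw [h4] at h3
          exact hj h3.1
      · have h1 : κ' (Sum.inr q) = j := by rw [hκ']; rfl
        have h2 : α' (Sum.inr q) = β q := by rw [hα']; rfl
        rw [h1, h2, Function.update_self]
        exact ⟨Finset.mem_insert_self _ _, hβ q⟩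
    · rw [Finset.sum_insert hj, Finset.card_insert_of_notMem hj, Function.update_self,
        Fintype.card_sum, Fintype.card_fin]
      have h1 : ∑ i ∈ S, Function.update m j m' i = ∑ i ∈ S, m i := by
        refine Finset.sum_congr rfl fun i hi => ?_
        rw [Function.update_of_ne]
        rintro rfl
        exact hj hi
      rw [h1]
      omega
    · rw [hspan]
      exact hst'
    · intro i hi
      rw [hspan]
      rcases Finset.mem_insert.1 hi with rfl | hi
      · exact dL_mem_SP (w := []) (Nat.zero_le _)
      · exact le_SP _ (hall i hi)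

end

end Pool.Agent.Lib.MP_44a246_ntMU
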