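import Mathlib
import Pool.Agent.Lib.MP_44a246_ntMU.MU01

/-!
The divisibility of the minors by powers of the linear form, for several groups.
-/

namespace Pool.Agent.Lib.MP_44a246_ntMU

open Pool.Agent.Lib.MP_44a246_ntD (exists_minor_neG)
open Pool.Agent.Lib.MP_e52354_ntMR
open MvPolynomial Module

section

variable {M : Type*} [Field M] {s : ℕ} {E : Type*}

/-- the rows of a matrix with a nonzero minor are independent -/
theorem indep_of_minor {I : Type*} [Fintype I] [DecidableEq I]
    (r : I → E → MvPolynomial (Fin s) M) (col : I → E)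
    (h : (Matrix.of fun a b => r a (col b)).det ≠ 0) :
    LinearIndependent (FractionRing (MvPolynomial (Fin s) M)) (fun a => em (r a)) := by
  obtain ⟨A, hA⟩ : ∃ A : Matrix I I (MvPolynomial (Fin s) M),
    A = Matrix.of fun a b => r a (col b) := ⟨_, rfl⟩
  rw [← hA] at h
  obtain ⟨f, hf⟩ : ∃ f : MvPolynomial (Fin s) M →+* FractionRing (MvPolynomial (Fin s) M),
    f = algebraMap _ _ := ⟨_, rfl⟩
  have h1 : (A.map f).det ≠ 0 := by
    intro h0
    apply h
    apply alg_inj
    rw [map_zero, ← h0, hf]
    exact (RingHom.map_det _ _)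
  have h2 : LinearIndependent (FractionRing (MvPolynomial (Fin s) M)) (A.map f) :=
    Matrix.linearIndependent_rows_of_det_ne_zero h1
  have h3 : (A.map f : I → I → _) = (LinearMap.funLeft (FractionRing (MvPolynomial (Fin s) M))
      (FractionRing (MvPolynomial (Fin s) M)) col) ∘ fun a => em (r a) := by
    funext a b
    rw [hA, hf]
    rfl
  rw [h3] at h2
  exact h2.of_comp _

/-- **The divisibility of the minor.** -/
theorem prod_dvd_det [Fintype E] {I G : Type*} [Fintype I] [DecidableEq I] [DecidableEq G]
    {W : Submodule (FractionRing (MvPolynomial (Fin s) M))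
      (E → FractionRing (MvPolynomial (Fin s) M))}
    (hW : finrank (FractionRing (MvPolynomial (Fin s) M)) W = Fintype.card I)
    {u : G → E → MvPolynomial (Fin s) M} (huW : ∀ j, em (u j) ∈ W)
    {φ : G → E → MvPolynomial (Fin s) M} {c : G → MvPolynomial (Fin s) M}
    (hc : ∀ j, IsUnit (c j)) (hu : ∀ i j, ∑ e, φ i e * u j e = if i = j then c j else 0)
    (ℓ : G → MvPolynomial (Fin s) M) (col : I → E) (T : Finset G) :
    ∀ r : I → E → MvPolynomial (Fin s) M, (∀ a, em (r a) ∈ W) →
      (∀ i ∈ T, ∀ a, ℓ i ∣ ∑ e, φ i e * r a e) →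
      ∏ i ∈ T, ℓ i ∣ (Matrix.of fun a b => r a (col b)).det := by
  classical
  induction T using Finset.induction_on with
  | empty =>
    intro r _ _
    rw [Finset.prod_empty]
    exact one_dvd _
  | insert i T hi ih =>
    intro r hr hdvd
    obtain ⟨A, hA⟩ : ∃ A : Matrix I I (MvPolynomial (Fin s) M),
      A = Matrix.of fun a b => r a (col b) := ⟨_, rfl⟩
    rw [← hA]
    by_cases hdet : A.det = 0
    · rw [hdet]
      exact dvd_zero _
    have hind := indep_of_minor r col (by rw [← hA]; exact hdet)
    have hspan : W = Submodule.span _ (Set.range fun a => em (r a)) := by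
      symm
      refine Submodule.eq_of_le_of_finrank_eq ?_ ?_
      · rw [Submodule.span_le]
        rintro _ ⟨a, rfl⟩
        exact hr a
      · rw [finrank_span_eq_card hind, hW]
    have hui := huW i
    rw [hspan] at hui
    obtain ⟨β, hβ⟩ := (Submodule.mem_span_range_iff_exists_fun _).1 hui
    have hAmap : A.map (algebraMap (MvPolynomial (Fin s) M)
        (FractionRing (MvPolynomial (Fin s) M))) =
        Matrix.of fun a b => em (r a) (col b) := by
      rw [hA]
      rfl
    have hdetmap : (A.map (algebraMap (MvPolynomial (Fin s) M)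
        (FractionRing (MvPolynomial (Fin s) M)))).det = algebraMap _ _ A.det :=
      ((algebraMap (MvPolynomial (Fin s) M)
        (FractionRing (MvPolynomial (Fin s) M))).map_det A).symm
    obtain ⟨c', hc'⟩ : ∃ c' : I → MvPolynomial (Fin s) M,
        c' = Matrix.cramer A.transpose (fun b => u i (col b)) := ⟨_, rfl⟩
    have hcβ : ∀ a, algebraMap _ (FractionRing (MvPolynomial (Fin s) M)) (c' a) =
        algebraMap _ _ A.det * β a := by
      intro a
      have h1 : (fun b => algebraMap (MvPolynomial (Fin s) M)
          (FractionRing (MvPolynomial (Fin s) M)) (u i (col b))) =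
          (A.map (algebraMap (MvPolynomial (Fin s) M)
            (FractionRing (MvPolynomial (Fin s) M)))).transpose.mulVec β := by
        funext b
        have h2 := congrFun hβ (col b)
        rw [Finset.sum_apply] at h2
        show em (u i) (col b) = _
        rw [← h2]
        unfold Matrix.mulVec dotProduct
        refine Finset.sum_congr rfl fun a _ => ?_
        rw [hAmap]
        show β a * em (r a) (col b) = em (r a) (col b) * β a
        rw [mul_comm]
      have h2 : (fun a => algebraMap (MvPolynomial (Fin s) M)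
          (FractionRing (MvPolynomial (Fin s) M)) (c' a)) =
          Matrix.cramer (A.map (algebraMap (MvPolynomial (Fin s) M)
            (FractionRing (MvPolynomial (Fin s) M)))).transpose
            (fun b => algebraMap (MvPolynomial (Fin s) M)
              (FractionRing (MvPolynomial (Fin s) M)) (u i (col b))) := by
        funext a
        rw [hc', Matrix.cramer_transpose_apply, Matrix.cramer_transpose_apply, RingHom.map_det]
        congr 1
        ext i j
        rw [RingHom.mapMatrix_apply, Matrix.map_apply, Matrix.updateRow_apply,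
          Matrix.updateRow_apply, Matrix.map_apply]
        split_ifs <;> rfl
      have h3 := congrFun h2 a
      rw [h1, Matrix.cramer_eq_adjugate_mulVec, Matrix.mulVec_mulVec, Matrix.adjugate_mul,
        Matrix.det_transpose, Matrix.smul_mulVec, Matrix.one_mulVec, Pi.smul_apply,
        smul_eq_mul, hdetmap] at h3
      exact h3
    have hfin : A.det * (∑ e, φ i e * u i e) = ∑ a, c' a * ∑ e, φ i e * r a e := by
      apply alg_inj
      rw [map_mul, map_sum, map_sum]
      have h1 : ∀ e, algebraMap (MvPolynomial (Fin s) M)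
          (FractionRing (MvPolynomial (Fin s) M)) (u i e) =
          ∑ a, β a * algebraMap _ _ (r a e) := by
        intro e
        have h2 := congrFun hβ e
        rw [Finset.sum_apply] at h2
        exact h2.symm
      have h2 : ∑ e, algebraMap (MvPolynomial (Fin s) M)
          (FractionRing (MvPolynomial (Fin s) M)) (φ i e * u i e) =
          ∑ a, β a * ∑ e, algebraMap _ _ (φ i e * r a e) := by
        simp only [map_mul, h1, Finset.mul_sum]
        rw [Finset.sum_comm]
        refine Finset.sum_congr rfl fun a _ => Finset.sum_congr rfl fun i _ => ?_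
        ring
      rw [h2, Finset.mul_sum]
      refine Finset.sum_congr rfl fun a _ => ?_
      rw [map_mul, hcβ, map_sum]
      ring
    rw [hu, if_pos rfl] at hfin
    have hstep : ∀ a, ∏ i ∈ T, ℓ i ∣ c' a := by
      intro a
      have h1 := ih (Function.update r a (u i)) (fun a' => by
        by_cases ha : a' = a
        · rw [ha, Function.update_self]
          exact huW i
        · rw [Function.update_of_ne ha]
          exact hr a') (fun i' hi' a' => by
        by_cases ha : a' = a
        · rw [ha, Function.update_self, hu, if_neg]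
          · exact dvd_zero _
          · rintro rfl
            exact hi hi'
        · rw [Function.update_of_ne ha]
          exact hdvd i' (Finset.mem_insert_of_mem hi') a')
      have h2 : (Matrix.of fun a' b => Function.update r a (u i) a' (col b)) =
          A.updateRow a (fun b => u i (col b)) := by
        ext1 a' b
        rw [Matrix.updateRow_apply]
        split_ifs with ha
        · show Function.update r a (u i) a' (col b) = _
          rw [ha, Function.update_self]
        · show Function.update r a (u i) a' (col b) = _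
          rw [Function.update_of_ne ha, hA]
          rfl
      rw [hc', Matrix.cramer_transpose_apply, ← h2]
      exact h1
    have hdiv : ∏ i ∈ insert i T, ℓ i ∣ A.det * c i := by
      rw [hfin]
      refine Finset.dvd_sum fun a _ => ?_
      rw [Finset.prod_insert hi, mul_comm]
      exact mul_dvd_mul (hstep a) (hdvd i (Finset.mem_insert_self _ _) a)
    exact ((hc i).dvd_mul_right).1 hdiv

/-- **A minor which is divisible by a large power**, for several groups. -/
theorem exists_minor_dvdG [CharZero M] [Fintype E] {G : Type*} [Fintype G] [DecidableEq G]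
    {x : E → M} (hx : x ≠ 0) {y : G → E → MvPolynomial (Fin s) M} {φ : G → E → M}
    (hφx : ∀ i, ∑ e, φ i e * x e = 0) {ℓ : MvPolynomial (Fin s) M} (hℓ : ℓ ≠ 0)
    {g : G → MvPolynomial (Fin s) M} (hg : ∀ i, g i ≠ 0) {J : G → ℕ}
    (hφy : ∀ i j, ∑ e, C (φ i e) * y j e = if i = j then ℓ ^ J j * g j else 0) :
    ∃ (w : ℕ) (κ : Fin w → G) (α : Fin w → List (Fin s)) (m : G → ℕ) (col : Fin 1 ⊕ Fin w → E),
      ∑ j, m j + Fintype.card G ≤ w ∧
      (Matrix.of fun a b => rowsG x y κ α a (col b)).det ≠ 0 ∧
      ℓ ^ (∑ j, (J j - m j)) ∣ (Matrix.of fun a b => rowsG x y κ α a (col b)).det := by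
  classical
  have hφ0 : ∀ i, ∑ e, C (φ i e) * y i e ≠ 0 := by
    intro i
    rw [hφy, if_pos rfl]
    exact mul_ne_zero (pow_ne_zero _ hℓ) (hg i)
  obtain ⟨ρ, hρ, κ, α, m, hκ, hm, hind, hst, hall⟩ := exists_rows hx hφx
    (fun i j hij => by rw [hφy, if_neg hij]) hφ0 Finset.univ
  obtain ⟨W, hW⟩ : ∃ W, W = Submodule.span (FractionRing (MvPolynomial (Fin s) M))
        (Set.range fun a => em (rowsG x y κ α a)) := ⟨_, rfl⟩
  have hWdim : finrank (FractionRing (MvPolynomial (Fin s) M)) W = Fintype.card (Fin 1 ⊕ ρ) := by
    rw [hW]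
    exact finrank_span_eq_card hind
  rw [← hW] at hst hall
  obtain ⟨w, hw⟩ : ∃ w, w = Fintype.card ρ := ⟨_, rfl⟩
  obtain ⟨ε, -⟩ : ∃ ε : Fin w ≃ ρ, ε = ε := by
    subst hw
    exact ⟨(Fintype.equivFin ρ).symm, rfl⟩
  have hrow : ∀ a : Fin 1 ⊕ Fin w, rowsG x y (κ ∘ ε) (α ∘ ε) a =
      rowsG x y κ α ((Equiv.sumCongr (Equiv.refl (Fin 1)) ε) a) := by
    intro a
    rcases a with a | a
    · rfl
    · rfl
  have hind' : LinearIndependent (FractionRing (MvPolynomial (Fin s) M))
      (fun a => em (rowsG x y (κ ∘ ε) (α ∘ ε) a)) := by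
    have h1 := hind.comp (Equiv.sumCongr (Equiv.refl (Fin 1)) ε) (Equiv.injective _)
    have h2 : (fun a => em (rowsG x y (κ ∘ ε) (α ∘ ε) a)) = (fun a => em (rowsG x y κ α a)) ∘
        (Equiv.sumCongr (Equiv.refl (Fin 1)) ε) := by
      funext a
      rw [hrow]
      rfl
    rw [h2]
    exact h1
  obtain ⟨col, hcol⟩ := exists_minor_neG hind'
  have hdet : (Matrix.of fun a b => rowsG x y (κ ∘ ε) (α ∘ ε) a (col b)).det ≠ 0 := by
    intro h0
    apply hcol
    have h1 : (Matrix.of fun a b => em (rowsG x y (κ ∘ ε) (α ∘ ε) a) (col b)) =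
        (Matrix.of fun a b => rowsG x y (κ ∘ ε) (α ∘ ε) a (col b)).map
          (algebraMap (MvPolynomial (Fin s) M) (FractionRing (MvPolynomial (Fin s) M))) := rfl
    have h2 : ((Matrix.of fun a b => rowsG x y (κ ∘ ε) (α ∘ ε) a (col b)).map
          (algebraMap (MvPolynomial (Fin s) M) (FractionRing (MvPolynomial (Fin s) M)))).det =
        algebraMap _ _ (Matrix.of fun a b => rowsG x y (κ ∘ ε) (α ∘ ε) a (col b)).det :=
      (RingHom.map_det _ _).symm
    rw [h1, h2, h0, map_zero]
  refine ⟨w, κ ∘ ε, α ∘ ε, m, col, ?_, hdet, ?_⟩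
  · rw [hw, ← Finset.card_univ (α := G)]
    exact hm
  -- derivatives with a constant value of the functional
  have hex : ∀ j, ∃ (v : List (Fin s)) (c : M), c ≠ 0 ∧
      dL v (∑ e, C (φ j e) * y j e) = C c := fun j => exists_const (hφ0 j)
  choose v c hc hv using hex
  have key := prod_dvd_det (W := W) (I := Fin 1 ⊕ Fin w) (by
      rw [hWdim, Fintype.card_sum, Fintype.card_sum, hw, Fintype.card_fin, Fintype.card_fin])
    (u := fun j e => dL (v j) (y j e)) (fun j => hst.dL_mem (hall j (Finset.mem_univ j)) (v j))
    (φ := fun i e => C (φ i e)) (c := fun j => C (c j))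
    (fun j => (isUnit_iff_ne_zero.2 (hc j)).map C) (fun i j => by
      have h1 : ∑ e, C (φ i e) * dL (v j) (y j e) = dL (v j) (∑ e, C (φ i e) * y j e) := by
        rw [dL_sum]
        exact Finset.sum_congr rfl fun e _ => (dL_C_mul _ _ _).symm
      rw [h1]
      split_ifs with hij
      · subst hij
        exact hv i
      · rw [hφy, if_neg hij, dL_zero]) (fun j => ℓ ^ (J j - m j)) col Finset.univ
    (rowsG x y (κ ∘ ε) (α ∘ ε)) (fun a => by
      rw [hrow, hW]
      exact Submodule.subset_span ⟨_, rfl⟩) (fun i _ a => by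
      rcases a with a | q
      · have h1 : ∑ e, C (φ i e) * rowsG x y (κ ∘ ε) (α ∘ ε) (Sum.inl a) e =
            (C (∑ e, φ i e * x e) : MvPolynomial (Fin s) M) := by
          rw [map_sum]
          exact Finset.sum_congr rfl fun i _ => by rw [C_mul]; rfl
        rw [h1, hφx, C_0]
        exact dvd_zero _
      · have h1 : ∑ e, C (φ i e) * rowsG x y (κ ∘ ε) (α ∘ ε) (Sum.inr q) e =
            dL (α (ε q)) (∑ e, C (φ i e) * y (κ (ε q)) e) := by
          rw [dL_sum]
          exact Finset.sum_congr rfl fun i _ => (dL_C_mul _ _ _).symm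
        rw [h1, hφy]
        split_ifs with hij
        · have h2 := (hκ (ε q)).2
          rw [← hij] at h2 ⊢
          refine (pow_dvd_pow _ ?_).trans (dvd_dL (α (ε q)) (Dvd.intro _ rfl))
          omega
        · rw [dL_zero]
          exact dvd_zero _)
  rw [Finset.prod_pow_eq_pow_sum] at key
  exact key

end

end Pool.Agent.Lib.MP_44a246_ntMU
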