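import Mathlib
import Pool.Agent.Lib.MP_44a246_ntML.ML01

/-!
Bordered minors of a family of derivations with several logarithmic columns.
-/

namespace Pool.Agent.Lib.MP_44a246_ntMU

open Pool.Agent.Lib.MP_44a246_nt
open Pool.Agent.Lib.MP_44a246_ntL
open Pool.Agent.Lib.MP_44a246_ntX
open Pool.Agent.Lib.MP_44a246_ntML
open WithZero

section Place

variable {κ L : Type*} [Field κ] [Field L] [Algebra κ L]

/-- the bordered minors whose columns have a common polar part -/
theorem border_gen {ι : Type*} {D : ι → Derivation ℤ L L} {δ ρ : Place κ L → ℕ}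
    (hD : MinorBound κ D Set.univ δ ρ) (w : Place κ L) {m : ℕ} (K : Fin m → ι)
    (a f g z : Fin 1 ⊕ Fin m → L) {π : L} (hπ : w.1 π ≤ 1) {n : ℕ}
    (ha : ∀ b, w.1 (a b) ≤ exp (n : ℤ)) (hf : ∀ b, w.1 (f b) ≤ 1) (hg : ∀ b, w.1 (g b) ≤ 1)
    (hz : ∀ b, w.1 (z b) ≤ 1) :
    w.1 (Matrix.of (Sum.elim (fun _ : Fin 1 => fun b => f b * g b)
      (fun q b => a b * D (K q) π + f b * D (K q) (z b)))).det ≤
      exp ((m * δ w + ρ w + n : ℕ) : ℤ) := by
  classical
  obtain ⟨P, hP⟩ : ∃ P : Fin 1 ⊕ Fin m → Fin 1 ⊕ Fin m → L,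
    P = fun b => a b • (Sum.elim (fun _ => 0) fun q => D (K q) π) := ⟨_, rfl⟩
  obtain ⟨Q, hQ⟩ : ∃ Q : Fin 1 ⊕ Fin m → Fin 1 ⊕ Fin m → L,
    Q = fun b => f b • (Sum.elim (fun _ => g b) fun q => D (K q) (z b)) := ⟨_, rfl⟩
  have h1 : (Matrix.of (Sum.elim (fun _ : Fin 1 => fun b => f b * g b)
      (fun q b => a b * D (K q) π + f b * D (K q) (z b)))).det =
      (Matrix.detRowAlternating (n := Fin 1 ⊕ Fin m) (R := L)).toMultilinearMap (P + Q) := by
    rw [← Matrix.det_transpose]
    show _ = Matrix.det (P + Q : Matrix (Fin 1 ⊕ Fin m) (Fin 1 ⊕ Fin m) L)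
    congr 1
    ext1 b i
    rw [Matrix.transpose_apply]
    rcases i with i | q
    · show f b * g b = P b (Sum.inl i) + Q b (Sum.inl i)
      rw [hP, hQ]
      show f b * g b = a b * 0 + f b * g b
      ring
    · show a b * D (K q) π + f b * D (K q) (z b) = P b (Sum.inr q) + Q b (Sum.inr q)
      rw [hP, hQ]
      rfl
  rw [h1, MultilinearMap.map_add_univ]
  refine Valuation.map_sum_le _ fun S _ => ?_
  obtain ⟨v, hv⟩ : ∃ v : Fin 1 ⊕ Fin m → L, v = fun b => if b ∈ S then a b else f b := ⟨_, rfl⟩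
  obtain ⟨e', he'⟩ : ∃ e' : Fin 1 ⊕ Fin m → L, e' = fun b => if b ∈ S then 0 else g b := ⟨_, rfl⟩
  obtain ⟨c', hc'⟩ : ∃ c' : Fin 1 ⊕ Fin m → L, c' = fun b => if b ∈ S then π else z b := ⟨_, rfl⟩
  have h2 : (Matrix.detRowAlternating (n := Fin 1 ⊕ Fin m) (R := L)).toMultilinearMap
      (S.piecewise P Q) = (∏ b, v b) *
        (Matrix.of (Sum.elim (fun _ : Fin 1 => e') (fun q b => D (K q) (c' b)))).det := by
    rw [← Matrix.det_transpose (Matrix.of (Sum.elim (fun _ : Fin 1 => e')
      (fun q b => D (K q) (c' b))))]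
    have h3 := Matrix.det_mul_column v ((Matrix.of (Sum.elim (fun _ : Fin 1 => e')
      (fun q b => D (K q) (c' b)))).transpose)
    rw [← h3]
    show Matrix.det (S.piecewise P Q : Matrix (Fin 1 ⊕ Fin m) (Fin 1 ⊕ Fin m) L) = _
    congr 1
    ext1 b i
    show S.piecewise P Q b i = v b * (Matrix.of (Sum.elim (fun _ : Fin 1 => e')
      (fun q b => D (K q) (c' b)))).transpose b i
    rw [Matrix.transpose_apply]
    by_cases hb : b ∈ S
    · rw [Finset.piecewise_eq_of_mem _ _ _ hb, hP, hv]
      rcases i with i | q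
      · show a b * 0 = (if b ∈ S then a b else f b) * e' b
        rw [if_pos hb, he']
        show a b * 0 = a b * (if b ∈ S then 0 else g b)
        rw [if_pos hb]
      · show a b * D (K q) π = (if b ∈ S then a b else f b) * D (K q) (c' b)
        rw [if_pos hb, hc']
        show a b * D (K q) π = a b * D (K q) (if b ∈ S then π else z b)
        rw [if_pos hb]
    · rw [Finset.piecewise_eq_of_notMem _ _ _ hb, hQ, hv]
      rcases i with i | q
      · show f b * g b = (if b ∈ S then a b else f b) * e' b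
        rw [if_neg hb, he']
        show f b * g b = f b * (if b ∈ S then 0 else g b)
        rw [if_neg hb]
      · show f b * D (K q) (z b) = (if b ∈ S then a b else f b) * D (K q) (c' b)
        rw [if_neg hb, hc']
        show f b * D (K q) (z b) = f b * D (K q) (if b ∈ S then π else z b)
        rw [if_neg hb]
  rw [h2]
  by_cases hS : ∃ b ∈ S, ∃ b' ∈ S, b ≠ b'
  · obtain ⟨b, hb, b', hb', hne⟩ := hS
    have h3 : (Matrix.of (Sum.elim (fun _ : Fin 1 => e') (fun q b => D (K q) (c' b)))).det = 0 := by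
      refine Matrix.det_zero_of_column_eq hne fun i => ?_
      rcases i with i | q
      · show e' b = e' b'
        rw [he']
        show (if b ∈ S then 0 else g b) = (if b' ∈ S then 0 else g b')
        rw [if_pos hb, if_pos hb']
      · show D (K q) (c' b) = D (K q) (c' b')
        rw [hc']
        show D (K q) (if b ∈ S then π else z b) = D (K q) (if b' ∈ S then π else z b')
        rw [if_pos hb, if_pos hb']
    rw [h3, mul_zero, map_zero]
    exact zero_le
  · push Not at hS
    have h3 : w.1 (∏ b, v b) ≤ exp (n : ℤ) := by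
      have h4 : ∏ b, v b = (∏ b ∈ S, a b) * ∏ b ∈ Finset.univ \ S, f b := by
        rw [← Finset.prod_sdiff (Finset.subset_univ S), mul_comm]
        congr 1
        · refine Finset.prod_congr rfl fun b hb => ?_
          rw [hv]
          show (if b ∈ S then a b else f b) = a b
          rw [if_pos hb]
        · refine Finset.prod_congr rfl fun b hb => ?_
          rw [hv]
          show (if b ∈ S then a b else f b) = f b
          rw [if_neg (Finset.mem_sdiff.1 hb).2]
      rw [h4, map_mul]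
      have h5 : w.1 (∏ b ∈ S, a b) ≤ exp (n : ℤ) := by
        rcases S.eq_empty_or_nonempty with h6 | ⟨b, hb⟩
        · rw [h6, Finset.prod_empty, map_one, ← exp_zero, exp_le_exp]
          exact Int.natCast_nonneg n
        · have h6 : S = {b} := by
            refine Finset.eq_singleton_iff_unique_mem.2 ⟨hb, fun b' hb' => ?_⟩
            exact (hS b hb b' hb').symm
          rw [h6, Finset.prod_singleton]
          exact ha b
      have h6 : w.1 (∏ b ∈ Finset.univ \ S, f b) ≤ 1 := by
        rw [map_prod]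
        exact Finset.prod_le_one' fun b _ => hf b
      calc _ ≤ exp (n : ℤ) * 1 := mul_le_mul' h5 h6
        _ = _ := mul_one _
    have h4 := border_bound' hD w K e' c' (fun b => by
      rw [he']
      show w.1 (if b ∈ S then 0 else g b) ≤ 1
      split_ifs
      · rw [map_zero]
        exact zero_le
      · exact hg b) (fun b => by
      rw [hc']
      show w.1 (if b ∈ S then π else z b) ≤ 1
      split_ifs
      · exact hπ
      · exact hz b)
    rw [map_mul]
    calc _ ≤ exp (n : ℤ) * exp ((m * δ w + ρ w : ℕ) : ℤ) := mul_le_mul' h3 h4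
      _ = _ := by
        rw [← exp_add]
        congr 1
        push_cast
        ring

/-- the logarithmic derivatives of an element at a place, for a given parameter -/
theorem log_decomp' (w : Place κ L) {π : L} (hπ : w.1 π = exp (-1)) {u : L} (hu : u ≠ 0) {n : ℕ}
    (hn : w.1 u ≠ 1 → 1 ≤ n) :
    ∃ ε a : L, w.1 ε = 1 ∧ w.1 a ≤ exp (n : ℤ) ∧
      ∀ D : Derivation ℤ L L, D u / u = a * D π + ε⁻¹ * D ε := by
  have hπ0 : π ≠ 0 := by
    intro h0
    rw [h0, map_zero] at hπ
    exact exp_ne_zero hπ.symm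
  have hwu : w.1 u ≠ 0 := (Valuation.ne_zero_iff _).2 hu
  obtain ⟨e, he⟩ : ∃ e : ℤ, w.1 u = exp (-e) := ⟨- log (w.1 u), by rw [neg_neg, exp_log hwu]⟩
  have hπe : w.1 (π ^ e) = exp (-e) := by
    rw [map_zpow₀, hπ, ← exp_zsmul]
    congr 1
    rw [smul_eq_mul]
    ring
  have hπe0 : π ^ e ≠ 0 := zpow_ne_zero _ hπ0
  refine ⟨u / π ^ e, e * π⁻¹, ?_, ?_, ?_⟩
  · rw [map_div₀, hπe, ← he, div_self hwu]
  · rcases eq_or_ne e 0 with h0 | h0
    · rw [h0, Int.cast_zero, zero_mul, map_zero]
      exact zero_le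
    · have h1 : 1 ≤ n := by
        refine hn ?_
        rw [he, ← exp_zero]
        intro h2
        have h3 := exp_injective h2
        omega
      have h2 : w.1 ((e : ℤ) : L) ≤ 1 := by
        have h4 : ∀ k : ℕ, w.1 (k : L) ≤ 1 := by
          intro k
          induction k with
          | zero => rw [Nat.cast_zero, map_zero]; exact zero_le
          | succ k ih =>
            rw [Nat.cast_succ]
            exact (Valuation.map_add _ _ _).trans (max_le ih (by rw [map_one]))
        rcases Int.natAbs_eq e with h5 | h5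
        · rw [h5, Int.cast_natCast]
          exact h4 _
        · rw [h5, Int.cast_neg, Valuation.map_neg, Int.cast_natCast]
          exact h4 _
      rw [map_mul, map_inv₀, hπ, ← exp_neg, neg_neg]
      calc _ ≤ 1 * exp (1 : ℤ) := mul_le_mul' h2 le_rfl
        _ = exp (1 : ℤ) := one_mul _
        _ ≤ exp (n : ℤ) := by
          rw [exp_le_exp]
          exact_mod_cast h1
  · intro D
    have h1 : D (π ^ e) / π ^ e = e * (D π / π) := by
      rw [Derivation.leibniz_zpow, zpow_sub₀ hπ0, zpow_one, zsmul_eq_mul, smul_eq_mul]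
      field_simp
    have h2 : D (u / π ^ e) = (D u - u * (D (π ^ e) / π ^ e)) / π ^ e := by
      rw [Derivation.leibniz_div, smul_eq_mul, smul_eq_mul, smul_eq_mul]
      field_simp
    rw [h2, h1]
    field_simp
    ring

/-- **The bordered minors with several logarithmic columns.** -/
theorem border_logs {ι : Type*} {D : ι → Derivation ℤ L L} {δ ρ : Place κ L → ℕ}
    (hD : MinorBound κ D Set.univ δ ρ) (w : Place κ L) {m : ℕ} (K : Fin m → ι)
    (e c : Fin 1 ⊕ Fin m → L) (he : ∀ b, w.1 (e b) ≤ 1) (P : Fin 1 ⊕ Fin m → Prop)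
    [DecidablePred P] (hc : ∀ b, ¬ P b → w.1 (c b) ≤ 1) (hc0 : ∀ b, P b → c b ≠ 0) {n : ℕ}
    (hn : ∀ b, P b → w.1 (c b) ≠ 1 → 1 ≤ n) :
    w.1 (Matrix.of (Sum.elim (fun _ : Fin 1 => e)
      (fun q b => if P b then D (K q) (c b) / c b else D (K q) (c b)))).det ≤
      exp ((m * δ w + ρ w + n : ℕ) : ℤ) := by
  classical
  obtain ⟨π, hπ⟩ := w.2.1 (exp (-1))
  have hπ1 : w.1 π ≤ 1 := by
    rw [hπ, ← exp_zero, exp_le_exp]
    omega
  have hex : ∀ b, ∃ a f g z : L, w.1 a ≤ exp (n : ℤ) ∧ w.1 f ≤ 1 ∧ w.1 g ≤ 1 ∧ w.1 z ≤ 1 ∧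
      e b = f * g ∧ ∀ q, (if P b then D (K q) (c b) / c b else D (K q) (c b)) =
        a * D (K q) π + f * D (K q) z := by
    intro b
    by_cases hb : P b
    · obtain ⟨ε, a, hε, ha, hdec⟩ := log_decomp' w hπ (hc0 b hb) (hn b hb)
      have hε0 : ε ≠ 0 := by
        intro h0
        rw [h0, map_zero] at hε
        exact zero_ne_one hε
      refine ⟨a, ε⁻¹, ε * e b, ε, ha, ?_, ?_, hε.le, ?_, fun q => ?_⟩
      · rw [map_inv₀, hε, inv_one]
      · rw [map_mul, hε, one_mul]
        exact he b
      · rw [← mul_assoc, inv_mul_cancel₀ hε0, one_mul]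
      · rw [if_pos hb]
        exact hdec _
    · refine ⟨0, 1, e b, c b, ?_, ?_, he b, hc b hb, (one_mul _).symm, fun q => ?_⟩
      · rw [map_zero]
        exact zero_le
      · rw [map_one]
      · rw [if_neg hb]
        ring
  choose a f g z ha hf hg hz h1 h2 using hex
  have h3 : (Matrix.of (Sum.elim (fun _ : Fin 1 => e)
      (fun q b => if P b then D (K q) (c b) / c b else D (K q) (c b)))) =
      Matrix.of (Sum.elim (fun _ : Fin 1 => fun b => f b * g b)
        (fun q b => a b * D (K q) π + f b * D (K q) (z b))) := by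
    ext1 i b
    rcases i with i | q
    · exact h1 b
    · exact h2 b q
  rw [h3]
  exact border_gen hD w K a f g z hπ1 ha hf hg hz

end Place

end Pool.Agent.Lib.MP_44a246_ntMU
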