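import Mathlib
import Pool.Agent.Lib.MP_44a246_ntMU.MU01

/-!
Scaling of the columns of the minors, and the rank of the minors.
-/

namespace Pool.Agent.Lib.MP_44a246_ntMU

open Pool.Agent.Lib.MP_e52354_ntMR
open MvPolynomial

section Alg

variable {M : Type*} [Field M] {s : ℕ} {E G : Type*}

/-- scaling of the columns -/
theorem det_rowsG_scale {w : ℕ} (τ : E → M) {x xh : E → M} (hx : ∀ i, x i = τ i * xh i)
    {y yh : G → E → MvPolynomial (Fin s) M} {z : G → MvPolynomial (Fin s) M}
    (hy : ∀ j i, y j i = C (τ i) * (yh j i + C (xh i) * z j)) (κ : Fin w → G)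
    (α : Fin w → List (Fin s)) (col : Fin 1 ⊕ Fin w → E) :
    (Matrix.of fun a b => rowsG x y κ α a (col b)).det =
      C (∏ b, τ (col b)) * (Matrix.of fun a b => rowsG xh yh κ α a (col b)).det := by
  classical
  have h1 : (Matrix.of fun a b => rowsG x y κ α a (col b)).det =
      (Matrix.of fun a b => C (τ (col b)) * rowsG xh yh κ α a (col b)).det := by
    refine Matrix.det_eq_of_forall_row_eq_smul_add_const
      (Sum.elim (fun _ => 0) fun q => dL (α q) (z (κ q))) (Sum.inl 0) rfl ?_
    intro a b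
    rcases a with a | q
    · show C (x (col b)) = C (τ (col b)) * C (xh (col b)) + 0 * _
      rw [zero_mul, add_zero, hx, C_mul]
    · show dL (α q) (y (κ q) (col b)) = C (τ (col b)) * dL (α q) (yh (κ q) (col b)) +
        dL (α q) (z (κ q)) * (C (τ (col b)) * C (xh (col b)))
      rw [hy, dL_C_mul, dL_add, dL_C_mul]
      ring
  have h2 := Matrix.det_mul_row (fun b => C (τ (col b)))
    (Matrix.of fun a b => rowsG xh yh κ α a (col b))
  rw [h1, map_prod]
  exact h2

/-- the columns of a nonzero minor are different -/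
theorem col_injectiveG {w : ℕ} {x : E → M} {y : G → E → MvPolynomial (Fin s) M}
    {κ : Fin w → G} {α : Fin w → List (Fin s)} {col : Fin 1 ⊕ Fin w → E}
    (hdet : (Matrix.of fun a b => rowsG x y κ α a (col b)).det ≠ 0) :
    Function.Injective col := by
  intro b b' hbb
  by_contra hne
  refine hdet (Matrix.det_zero_of_column_eq hne fun a => ?_)
  show rowsG x y κ α a (col b) = rowsG x y κ α a (col b')
  rw [hbb]

/-- the size of a nonzero minor is bounded by the rank -/
theorem minor_rankG {w q : ℕ} {x : E → M} {y : G → E → MvPolynomial (Fin s) M}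
    {κ : Fin w → G} {α : Fin w → List (Fin s)} {col : Fin 1 ⊕ Fin w → E}
    (hdet : (Matrix.of fun a b => rowsG x y κ α a (col b)).det ≠ 0)
    (P : Fin 1 ⊕ Fin w → Prop) [DecidablePred P] (μ : G → Fin q → MvPolynomial (Fin s) M)
    (c : Fin q → Fin 1 ⊕ Fin w → M)
    (hy : ∀ j b, ¬ P b → y j (col b) = ∑ t, μ j t * C (c t b)) :
    w ≤ q + (Finset.univ.filter P).card := by
  classical
  obtain ⟨A, hA⟩ : ∃ A : Matrix (Fin 1 ⊕ Fin w) (Fin 1 ⊕ Fin w) (MvPolynomial (Fin s) M),
      A = Matrix.of fun a b => rowsG x y κ α a (col b) := ⟨_, rfl⟩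
  rw [← hA] at hdet
  obtain ⟨R, hR⟩ : ∃ R : Matrix (Fin 1 ⊕ Fin w) ((Fin 1 ⊕ Fin q) ⊕ {b // P b})
      (MvPolynomial (Fin s) M),
      R = Matrix.of (Sum.elim
        (fun _ => Sum.elim (Sum.elim (fun _ => 1) fun _ => 0) fun b => A (Sum.inl 0) b.1)
        fun a => Sum.elim (Sum.elim (fun _ => 0) fun t => dL (α a) (μ (κ a) t))
          fun b => A (Sum.inr a) b.1) := ⟨_, rfl⟩
  obtain ⟨S, hS⟩ : ∃ S : Matrix ((Fin 1 ⊕ Fin q) ⊕ {b // P b}) (Fin 1 ⊕ Fin w)
      (MvPolynomial (Fin s) M),
      S = Matrix.of (Sum.elim (Sum.elim (fun _ b => if P b then 0 else C (x (col b)))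
        fun t b => if P b then 0 else C (c t b)) fun b' b => if b'.1 = b then 1 else 0) :=
      ⟨_, rfl⟩
  have hAR : A = R * S := by
    ext1 a b
    rw [Matrix.mul_apply, Fintype.sum_sum_type, Fintype.sum_sum_type, hR, hS]
    by_cases hb : P b
    · have h1 : ∀ v : {b // P b} → MvPolynomial (Fin s) M,
          ∑ b' : {b // P b}, v b' * (if b'.1 = b then 1 else 0) = v ⟨b, hb⟩ := by
        intro v
        rw [Finset.sum_eq_single (⟨b, hb⟩ : {b // P b})]
        · rw [if_pos rfl, mul_one]
        · intro b' _ hb'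
          rw [if_neg fun h => hb' (Subtype.ext h), mul_zero]
        · intro h
          exact absurd (Finset.mem_univ _) h
      rcases a with a | a
      · show A (Sum.inl a) b = ∑ _e : Fin 1, 1 * (if P b then 0 else C (x (col b))) +
          ∑ t, 0 * (if P b then 0 else C (c t b)) +
          ∑ b' : {b // P b}, A (Sum.inl 0) b'.1 * (if b'.1 = b then 1 else 0)
        rw [h1 fun b' => A (Sum.inl 0) b'.1, Subsingleton.elim a 0]
        simp [hb]
      · show A (Sum.inr a) b = ∑ _e : Fin 1, 0 * (if P b then 0 else C (x (col b))) +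
          ∑ t, dL (α a) (μ (κ a) t) * (if P b then 0 else C (c t b)) +
          ∑ b' : {b // P b}, A (Sum.inr a) b'.1 * (if b'.1 = b then 1 else 0)
        rw [h1 fun b' => A (Sum.inr a) b'.1]
        simp [hb]
    · have h1 : ∀ v : {b // P b} → MvPolynomial (Fin s) M,
          ∑ b' : {b // P b}, v b' * (if b'.1 = b then 1 else 0) = 0 := by
        intro v
        refine Finset.sum_eq_zero fun b' _ => ?_
        rw [if_neg, mul_zero]
        rintro rfl
        exact hb b'.2
      rcases a with a | a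
      · show A (Sum.inl a) b = ∑ _e : Fin 1, 1 * (if P b then 0 else C (x (col b))) +
          ∑ t, 0 * (if P b then 0 else C (c t b)) +
          ∑ b' : {b // P b}, A (Sum.inl 0) b'.1 * (if b'.1 = b then 1 else 0)
        rw [h1 fun b' => A (Sum.inl 0) b'.1, hA]
        simp only [if_neg hb, zero_mul, Finset.sum_const_zero, add_zero, one_mul,
          Finset.univ_unique, Finset.sum_singleton]
        rfl
      · show A (Sum.inr a) b = ∑ _e : Fin 1, 0 * (if P b then 0 else C (x (col b))) +
          ∑ t, dL (α a) (μ (κ a) t) * (if P b then 0 else C (c t b)) +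
          ∑ b' : {b // P b}, A (Sum.inr a) b'.1 * (if b'.1 = b then 1 else 0)
        rw [h1 fun b' => A (Sum.inr a) b'.1, hA]
        simp only [if_neg hb, zero_mul, Finset.sum_const_zero, add_zero, zero_add]
        show dL (α a) (y (κ a) (col b)) = _
        rw [hy _ _ hb, dL_sum]
        exact Finset.sum_congr rfl fun t _ => dL_mul_C _ _ _
  obtain ⟨f, hf⟩ : ∃ f : MvPolynomial (Fin s) M →+* FractionRing (MvPolynomial (Fin s) M),
    f = algebraMap _ _ := ⟨_, rfl⟩
  have h1 : (A.map f).det ≠ 0 := by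
    intro h0
    apply hdet
    apply alg_inj
    rw [map_zero, ← h0, hf]
    exact (RingHom.map_det _ _)
  have h2 : A.map f = R.map f * S.map f := by
    rw [hAR, Matrix.map_mul]
  have h3 : (A.map f).rank = 1 + w := by
    rw [Matrix.rank_of_isUnit _ ((Matrix.isUnit_iff_isUnit_det _).2 (isUnit_iff_ne_zero.2 h1)),
      Fintype.card_sum, Fintype.card_fin, Fintype.card_fin]
  have h4 : (A.map f).rank ≤ 1 + q + (Finset.univ.filter P).card := by
    rw [h2]
    refine (Matrix.rank_mul_le_left _ _).trans ((Matrix.rank_le_card_width _).trans ?_)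
    rw [Fintype.card_sum, Fintype.card_sum, Fintype.card_fin, Fintype.card_fin,
      Fintype.card_subtype]
  omega

end Alg

end Pool.Agent.Lib.MP_44a246_ntMU
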