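import Mathlib
import Pool.Agent.Lib.MP_44a246_ntMU.MU02
import Pool.Agent.Lib.MP_44a246_ntMU.MU03
import Pool.Agent.Lib.MP_44a246_ntMU.MU04

/-!
The height inequality with a truncated counting function, from a minor which is divisible by a
large power of the linear form, for several forms and points with weighted coordinates.
-/

namespace Pool.Agent.Lib.MP_44a246_ntMU

open Pool.Agent.Lib.MP_44a246_nt
open Pool.Agent.Lib.MP_44a246_ntL
open Pool.Agent.Lib.MP_44a246_ntX
open Pool.Agent.Lib.MP_44a246_ntMS (det_row_mem)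
open Pool.Agent.Lib.MP_e52354_ntMR
open WithZero MvPolynomial

variable {κ L : Type*} [Field κ] [Field L] [Algebra κ L]

/-- the sum of the weights of different columns -/
theorem sum_wt_le {q w : ℕ} {B : Type*} {wt : Fin q → ℕ} (hwt : ∀ i, 1 ≤ wt i)
    {col : Fin 1 ⊕ Fin w → Fin q ⊕ B} (hcol : Function.Injective col) :
    ∑ b, Sum.elim wt (fun _ => 0) (col b) ≤
      (Finset.univ.filter fun b => ¬ (col b).isRight = true).card + ∑ i, (wt i - 1) := by
  classical
  have h1 : ∀ b, Sum.elim wt (fun _ => 0) (col b) =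
      (if ¬ (col b).isRight = true then 1 else 0) +
        Sum.elim (fun i => wt i - 1) (fun _ => 0) (col b) := by
    intro b
    rcases hcb : col b with i | b'
    · have := hwt i
      simp only [Sum.elim_inl, Sum.isRight_inl]
      rw [if_pos (by simp)]
      omega
    · simp
  rw [Finset.sum_congr rfl fun b _ => h1 b, Finset.sum_add_distrib, Finset.sum_boole]
  have h2 : ∑ b, Sum.elim (fun i => wt i - 1) (fun _ => 0) (col b) ≤ ∑ i, (wt i - 1) := by
    have h3 : ∑ b, Sum.elim (fun i => wt i - 1) (fun _ => 0) (col b) =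
        ∑ b ∈ Finset.univ.filter (fun b => (col b).isLeft = true),
          Sum.elim (fun i => wt i - 1) (fun _ => 0) (col b) := by
      rw [Finset.sum_filter]
      refine Finset.sum_congr rfl fun b _ => ?_
      rcases hcb : col b with i | b'
      · simp
      · simp
    have h4 : ∑ b ∈ Finset.univ.filter (fun b => (col b).isLeft = true),
          Sum.elim (fun i => wt i - 1) (fun _ => 0) (col b) =
        ∑ e ∈ (Finset.univ.filter (fun b => (col b).isLeft = true)).image col,
          Sum.elim (fun i => wt i - 1) (fun _ => 0) e := by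
      rw [Finset.sum_image fun a _ b _ h => hcol h]
    have h5 : ∑ i, (wt i - 1) = ∑ e ∈ Finset.univ.image (Sum.inl : Fin q → Fin q ⊕ B),
          Sum.elim (fun i => wt i - 1) (fun _ => 0) e := by
      rw [Finset.sum_image fun a _ b _ h => Sum.inl_injective h]
      rfl
    rw [h3, h4, h5]
    refine Finset.sum_le_sum_of_subset ?_
    intro e he
    obtain ⟨b, hb, rfl⟩ := Finset.mem_image.1 he
    rw [Finset.mem_filter] at hb
    refine Finset.mem_image.2 ⟨(col b).getLeft hb.2, Finset.mem_univ _, ?_⟩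
    exact Sum.inl_getLeft _ _
  simp only [Nat.cast_id] at h2 ⊢
  omega

/-- **The height inequality with a truncated counting function.** -/
theorem height_ineqU [IsAlgClosed κ] [CharZero κ] [CharZero L] (h : IsFF κ L) {ι : Type*}
    [Fintype ι] {D : ι → Derivation ℤ L L} {δ ρ σ N θ : Place κ L → ℕ}
    (hδ : (Function.support δ).Finite) (hρ : (Function.support ρ).Finite)
    (hσ : (Function.support σ).Finite) (hN : (Function.support N).Finite)
    (hθ : (Function.support θ).Finite)
    (hD : MinorBound κ D Set.univ δ ρ) {s q : ℕ} {G B : Type*} [Fintype G] [DecidableEq G]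
    [Fintype B] [DecidableEq B] {lam : G → ι → MvPolynomial (Fin s) L}
    (hlam : ∀ j I α (w : Place κ L), w.1 (coeff α (lam j I)) ≤ exp (σ w : ℤ))
    {wt : Fin q → ℕ} (hwt : ∀ i, 1 ≤ wt i)
    {x : Fin q → L} {i₀ : Fin q} (hx : x i₀ = 1) {z : Fin s → L} {j₀ : Fin s} (hz : z j₀ = 1)
    (hxz : ∀ i (w : Place κ L), w.1 (x i) ≤ (vmax w.1 z * exp (θ w : ℤ)) ^ wt i)
    {u : B → L} (hu : ∀ b, u b ≠ 0) {d : B → ℕ}
    (hNu : ∀ (w : Place κ L) (b : B), w.1 (u b) ≠ (vmax w.1 z * exp (θ w : ℤ)) ^ d b → 1 ≤ N w)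
    {φ : G → Fin q → L} {ψ : G → B → L}
    (hφx : ∀ j, ∑ i, φ j i * ((wt i : L) * x i) + ∑ b, ψ j b * (d b : L) = 0)
    {g : G → MvPolynomial (Fin s) L} (hg : ∀ j, g j ≠ 0) {J : G → ℕ} {r : ℕ}
    (hφ : ∀ i j, ∑ e, C (φ i e) * (∑ I, lam j I * C (D I (x e))) +
        ∑ b, C (ψ i b) * (∑ I, lam j I * C (D I (u b) / u b)) =
      if i = j then (∑ l, C (z l) * X l) ^ J j * g j else 0)
    {q' : ℕ} (hq : q' ≤ r) (c : Fin q → Fin q' → L) (jj : Fin q' → Fin q)
    (hc : ∀ I i, D I (x i) = ∑ t, c i t * D I (x (jj t))) :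
    ((∑ j, J j : ℕ) + (Fintype.card G : ℤ) - 2 * r - 1 - Fintype.card B -
        (∑ i, (wt i - 1) : ℕ)) * height κ z ≤
      ∑ᶠ w, (ρ w : ℤ) + ∑ᶠ w, (N w : ℤ) +
        (r + Fintype.card B) * (∑ᶠ w, (δ w : ℤ) + ∑ᶠ w, (σ w : ℤ)) +
        (r + 1 + (∑ i, (wt i - 1) : ℕ)) * ∑ᶠ w, (θ w : ℤ) := by
  classical
  -- the vectors with the additional coordinates
  obtain ⟨X', hX'⟩ : ∃ X' : Fin q ⊕ B → L,
    X' = Sum.elim (fun i => (wt i : L) * x i) (fun b => (d b : L)) := ⟨_, rfl⟩
  obtain ⟨y, hy⟩ : ∃ y : G → Fin q ⊕ B → MvPolynomial (Fin s) L,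
    y = fun j => Sum.elim (fun i => ∑ I, lam j I * C (D I (x i)))
      (fun b => ∑ I, lam j I * C (D I (u b) / u b)) := ⟨_, rfl⟩
  obtain ⟨Φ, hΦ⟩ : ∃ Φ : G → Fin q ⊕ B → L, Φ = fun i => Sum.elim (φ i) (ψ i) := ⟨_, rfl⟩
  have hz0 : z ≠ 0 := by
    intro h0
    rw [h0] at hz
    exact zero_ne_one hz
  have hX'0 : X' ≠ 0 := by
    intro h0
    have h1 := congrFun h0 (Sum.inl i₀)
    rw [hX'] at h1
    have h2 : (wt i₀ : L) * x i₀ = 0 := h1
    rw [hx, mul_one, Nat.cast_eq_zero] at h2
    have h3 := hwt i₀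
    omega
  have hℓ : (∑ l, C (z l) * X l : MvPolynomial (Fin s) L) ≠ 0 := by
    intro h0
    have h1 := congrArg (coeff (Finsupp.single j₀ 1)) h0
    rw [coeff_sum, Finset.sum_eq_single j₀, coeff_C_mul, coeff_X, if_pos rfl, mul_one, hz,
      coeff_zero] at h1
    · exact one_ne_zero h1
    · intro l _ hl
      rw [coeff_C_mul, coeff_X, if_neg, mul_zero]
      intro h2
      exact hl (Finsupp.single_left_injective one_ne_zero h2)
    · intro h2
      exact absurd (Finset.mem_univ _) h2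
  obtain ⟨w₀, κg, α, mm, col, hw, hdet, hdvd⟩ :=
    exists_minor_dvdG (x := X') hX'0 (y := y) (φ := Φ) (fun j => by
      rw [hΦ, hX', Fintype.sum_sum_type]
      exact hφx j) (ℓ := ∑ l, C (z l) * X l) hℓ hg (J := J) (fun i j => by
      rw [← hφ i j, hΦ, hy, Fintype.sum_sum_type]
      rfl)
  have hcol := col_injectiveG hdet
  obtain ⟨P, hP⟩ := hdvd
  have hP0 : P ≠ 0 := by
    intro h0
    rw [h0, mul_zero] at hP
    exact hdet hP
  obtain ⟨β, hβ⟩ := ne_zero_iff.1 hP0
  obtain ⟨k, hk⟩ : ∃ k, k = ∑ j, (J j - mm j) := ⟨_, rfl⟩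
  rw [← hk] at hP
  have hk1 : ∑ j, J j ≤ k + ∑ j, mm j := by
    rw [hk, ← Finset.sum_add_distrib]
    exact Finset.sum_le_sum fun j _ => by omega
  -- the number of the columns
  obtain ⟨nx, hnx⟩ : ∃ nx : ℕ, nx = (Finset.univ.filter fun b => ¬ (col b).isRight = true).card :=
    ⟨_, rfl⟩
  obtain ⟨nl, hnl⟩ : ∃ nl : ℕ, nl = (Finset.univ.filter fun b => (col b).isRight = true).card :=
    ⟨_, rfl⟩
  have hcard : nl + nx = 1 + w₀ := by
    rw [hnl, hnx, Finset.card_filter_add_card_filter_not, Finset.card_univ, Fintype.card_sum,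
      Fintype.card_fin, Fintype.card_fin]
  have hnlB : nl ≤ Fintype.card B := by
    rw [hnl, ← Fintype.card_subtype]
    refine Fintype.card_le_of_injective (fun b : {b // (col b).isRight = true} =>
      (col b.1).getRight b.2) ?_
    intro b b' hbb
    apply Subtype.ext
    apply hcol
    rw [← Sum.inr_getRight (col b.1) b.2, ← Sum.inr_getRight (col b'.1) b'.2]
    exact congrArg Sum.inr hbb
  have hrank : w₀ ≤ q' + nl := by
    rw [hnl]
    refine minor_rankG hdet (fun b => (col b).isRight = true)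
      (fun j t => ∑ I, lam j I * C (D I (x (jj t))))
      (fun t b => Sum.elim (fun i => c i t) (fun _ => 0) (col b)) fun j b hb => ?_
    rcases hcb : col b with i | b'
    · rw [hy]
      show ∑ I, lam j I * C (D I (x i)) = ∑ t, (∑ I, lam j I * C (D I (x (jj t)))) * C (c i t)
      simp only [Finset.sum_mul]
      rw [Finset.sum_comm]
      refine Finset.sum_congr rfl fun I _ => ?_
      rw [hc I i, map_sum, Finset.mul_sum]
      refine Finset.sum_congr rfl fun t _ => ?_
      rw [C_mul]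
      ring
    · rw [hcb] at hb
      exact absurd rfl hb
  obtain ⟨Wc, hWc⟩ : ∃ Wc : ℕ, Wc = ∑ b, Sum.elim wt (fun _ => 0) (col b) := ⟨_, rfl⟩
  have hWc1 : Wc ≤ nx + ∑ i, (wt i - 1) := by
    rw [hWc, hnx]
    exact sum_wt_le hwt hcol
  obtain ⟨Ws, hWs⟩ : ∃ Ws : ℕ, Ws = ∑ i, (wt i - 1) := ⟨_, rfl⟩
  rw [← hWs] at hWc1
  have hWc2 : Wc ≤ r + 1 + Ws := by omega
  have hnxk : (∑ j, J j : ℕ) + (Fintype.card G : ℤ) - 2 * r - 1 - Fintype.card B - (Ws : ℕ) ≤
      (k : ℤ) - Wc := by
    omega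
  rw [← hWs]
  -- the local inequality
  have hloc : ∀ w : Place κ L, log (w.1 (coeff β P)) +
      ((k : ℤ) - Wc) * log (vmax w.1 z) ≤ w₀ * (δ w + σ w) + (ρ w + N w) + Wc * θ w := by
    intro w
    obtain ⟨l, hl, hlmax, hlk⟩ := exists_vmax w.1 hz0
    obtain ⟨O, hO⟩ : ∃ O : Subring L, O = w.1.integer := ⟨_, rfl⟩
    have hmem : ∀ z : L, z ∈ O ↔ w.1 z ≤ 1 := by
      intro z
      rw [hO]
      exact Valuation.mem_integer_iff _ _
    have hwl : w.1 (z l) ≠ 0 := (Valuation.ne_zero_iff _).2 hl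
    -- the factor of the coordinates
    obtain ⟨T, hT⟩ := w.2.1 (exp (θ w : ℤ))
    have hT0 : T ≠ 0 := by
      intro h0
      rw [h0, map_zero] at hT
      exact exp_ne_zero hT.symm
    obtain ⟨t, ht⟩ : ∃ t : L, t = z l * T := ⟨_, rfl⟩
    have ht0 : t ≠ 0 := by
      rw [ht]
      exact mul_ne_zero hl hT0
    have hwt' : w.1 t = vmax w.1 z * exp (θ w : ℤ) := by
      rw [ht, map_mul, hT, hlmax]
    have hwt0 : w.1 t ≠ 0 := (Valuation.ne_zero_iff _).2 ht0
    -- the normalised vectors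
    obtain ⟨xh, hxh⟩ : ∃ xh : Fin q → L, xh = fun i => x i / t ^ wt i := ⟨_, rfl⟩
    obtain ⟨zh, hzh⟩ : ∃ zh : Fin s → L, zh = fun i => z i / z l := ⟨_, rfl⟩
    obtain ⟨uh, huh⟩ : ∃ uh : B → L, uh = fun b => u b / t ^ d b := ⟨_, rfl⟩
    have hxxh : ∀ i, x i = t ^ wt i * xh i := by
      intro i
      rw [hxh]
      show x i = t ^ wt i * (x i / t ^ wt i)
      rw [mul_div_cancel₀ _ (pow_ne_zero _ ht0)]
    have hxhO : ∀ i, xh i ∈ O := by
      intro i
      rw [hmem, hxh]
      show w.1 (x i / t ^ wt i) ≤ 1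
      rw [map_div₀, map_pow, hwt']
      exact div_le_one_of_le₀ (hxz i w) zero_le
    have hzzh : ∀ i, z i = z l * zh i := by
      intro i
      rw [hzh]
      show z i = z l * (z i / z l)
      rw [mul_div_cancel₀ _ hl]
    have hzhO : ∀ i, zh i ∈ O := by
      intro i
      rw [hmem, hzh]
      show w.1 (z i / z l) ≤ 1
      rw [map_div₀]
      exact div_le_one_of_le₀ (hlk i) zero_le
    have hzhl : zh l = 1 := by
      rw [hzh]
      exact div_self hl
    have huh0 : ∀ b, uh b ≠ 0 := by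
      intro b
      rw [huh]
      exact div_ne_zero (hu b) (pow_ne_zero _ ht0)
    have huu : ∀ b, u b = t ^ d b * uh b := by
      intro b
      rw [huh]
      show u b = t ^ d b * (u b / t ^ d b)
      rw [mul_div_cancel₀ _ (pow_ne_zero _ ht0)]
    have huN : ∀ b, w.1 (uh b) ≠ 1 → 1 ≤ N w := by
      intro b h1
      refine hNu w b fun h2 => h1 ?_
      rw [huh]
      show w.1 (u b / t ^ d b) = 1
      rw [map_div₀, map_pow, h2, ← hwt']
      exact div_self (pow_ne_zero _ hwt0)
    obtain ⟨Xh, hXh⟩ : ∃ Xh : Fin q ⊕ B → L,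
      Xh = Sum.elim (fun i => (wt i : L) * xh i) (fun b => (d b : L)) := ⟨_, rfl⟩
    have hXhO : ∀ e, Xh e ∈ O := by
      intro e
      rw [hXh]
      rcases e with i | b
      · exact O.mul_mem (natCast_mem _ _) (hxhO i)
      · exact natCast_mem _ _
    obtain ⟨yh, hyh⟩ : ∃ yh : G → Fin q ⊕ B → MvPolynomial (Fin s) L,
      yh = fun j => Sum.elim (fun i => ∑ I, lam j I * C (D I (xh i)))
        (fun b => ∑ I, lam j I * C (D I (uh b) / uh b)) := ⟨_, rfl⟩
    obtain ⟨τ, hτ⟩ : ∃ τ : Fin q ⊕ B → L, τ = fun e => t ^ Sum.elim wt (fun _ => 0) e := ⟨_, rfl⟩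
    have hXX : ∀ e, X' e = τ e * Xh e := by
      intro e
      rw [hX', hτ, hXh]
      rcases e with i | b
      · show (wt i : L) * x i = t ^ wt i * ((wt i : L) * xh i)
        rw [hxxh i]
        ring
      · show (d b : L) = t ^ 0 * (d b : L)
        rw [pow_zero, one_mul]
    have hlogD : ∀ (I : ι) (n : ℕ) (v vh : L), v = t ^ n * vh →
        D I v = t ^ n * (D I vh + n * vh * (D I t / t)) := by
      intro I n v vh hv
      have h3 : D I v = t ^ n * D I vh + vh * (n * t ^ (n - 1) * D I t) := by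
        conv_lhs => rw [hv, Derivation.leibniz, Derivation.leibniz_pow, smul_eq_mul,
          smul_eq_mul, smul_eq_mul, nsmul_eq_mul]
        ring
      rcases Nat.eq_zero_or_pos n with h4 | h4
      · rw [h3, h4]
        simp
      · have h5 : t ^ n = t ^ (n - 1) * t := by
          rw [← pow_succ, Nat.sub_add_cancel h4]
        rw [h3, h5]
        field_simp
    obtain ⟨zz, hzz⟩ : ∃ zz : G → MvPolynomial (Fin s) L,
      zz = fun j => ∑ I, lam j I * C (D I t / t) := ⟨_, rfl⟩
    have hyy : ∀ j e, y j e = C (τ e) * (yh j e + C (Xh e) * zz j) := by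
      intro j e
      rw [hy, hτ, hyh, hXh, hzz]
      rcases e with i | b
      · show ∑ I, lam j I * C (D I (x i)) = C (t ^ wt i) * (∑ I, lam j I * C (D I (xh i)) +
          C ((wt i : L) * xh i) * ∑ I, lam j I * C (D I t / t))
        rw [Finset.mul_sum, ← Finset.sum_add_distrib, Finset.mul_sum]
        refine Finset.sum_congr rfl fun I _ => ?_
        rw [hlogD I _ _ _ (hxxh i), C_mul, C_add, C_mul]
        ring
      · show ∑ I, lam j I * C (D I (u b) / u b) = C (t ^ 0) *
          (∑ I, lam j I * C (D I (uh b) / uh b) + C (d b : L) * ∑ I, lam j I * C (D I t / t))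
        rw [pow_zero, C_1, one_mul, Finset.mul_sum, ← Finset.sum_add_distrib]
        refine Finset.sum_congr rfl fun I _ => ?_
        have h1 : D I (u b) / u b = D I (uh b) / uh b + d b * (D I t / t) := by
          have h7 := huh0 b
          have h8 : t ^ d b ≠ 0 := pow_ne_zero _ ht0
          rw [hlogD I _ _ _ (huu b)]
          conv_lhs => rw [huu b]
          field_simp
        rw [h1, C_add, C_mul]
        ring
    have hprod : ∏ b, τ (col b) = t ^ Wc := by
      rw [hτ, hWc]
      exact Finset.prod_pow_eq_pow_sum _ _ _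
    obtain ⟨ε, hε⟩ := w.2.1 (exp (-((w₀ * δ w + ρ w + N w : ℕ) : ℤ)))
    obtain ⟨b, hb⟩ := w.2.1 (exp (-(σ w : ℤ)))
    -- the elements whose derivatives are the entries of the columns
    obtain ⟨zc, hzc⟩ : ∃ zc : Fin q ⊕ B → L, zc = Sum.elim xh uh := ⟨_, rfl⟩
    obtain ⟨V, hV⟩ : ∃ V : ι → Fin q ⊕ B → L, V = fun I e =>
      if e.isRight = true then D I (zc e) / zc e else D I (zc e) := ⟨_, rfl⟩
    have hminor : ∀ K : Fin w₀ → ι, w.1 (Matrix.of (Sum.elim (fun _ : Fin 1 =>
        fun b => Xh (col b)) (fun q b => V (K q) (col b)))).det ≤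
        exp ((w₀ * δ w + ρ w + N w : ℕ) : ℤ) := by
      intro K
      have h2 := border_logs hD w K (fun b => Xh (col b)) (fun b => zc (col b))
        (fun b => (hmem _).1 (hXhO _)) (fun b => (col b).isRight = true) (fun b hb => by
          rcases hcb : col b with i | b'
          · rw [hzc]
            exact (hmem _).1 (hxhO i)
          · rw [hcb] at hb
            exact absurd rfl hb) (fun b hb => by
          rcases hcb : col b with i | b'
          · rw [hcb] at hb
            exact absurd hb (by simp)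
          · rw [hzc]
            exact huh0 b') (n := N w) (fun b hb => by
          rcases hcb : col b with i | b'
          · rw [hcb] at hb
            exact absurd hb (by simp)
          · rw [hzc]
            exact huN b')
      rw [hV]
      exact h2
    have hyV : ∀ j e, yh j e = ∑ I, lam j I * C (V I e) := by
      intro j e
      rw [hyh, hV, hzc]
      rcases e with i | b
      · rfl
      · rfl
    have hdetO : C (ε * b ^ w₀) * (Matrix.of fun a b => rowsG Xh yh κg α a (col b)).det ∈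
        OA O s := by
      have h1 := det_row_mem (s := s) O (ε := ε) (β := b) (fun b => Xh (col b))
        (fun I b => V I (col b)) (fun K => by
          rw [hmem, map_mul, hε]
          calc _ ≤ exp (-((w₀ * δ w + ρ w + N w : ℕ) : ℤ)) *
                exp ((w₀ * δ w + ρ w + N w : ℕ) : ℤ) := mul_le_mul' le_rfl (hminor K)
            _ = 1 := by rw [← exp_add, neg_add_cancel, exp_zero])
        (fun q I => dL (α q) (lam (κg q) I)) (fun q I => by
          rw [← dL_C_mul]
          refine dL_mem_OA ?_ _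
          intro γ
          rw [coeff_C_mul, hmem, map_mul, hb]
          calc _ ≤ exp (-(σ w : ℤ)) * exp (σ w : ℤ) := mul_le_mul' le_rfl (hlam _ I γ w)
            _ = 1 := by rw [← exp_add, neg_add_cancel, exp_zero])
      have h2 : (Matrix.of fun a b => rowsG Xh yh κg α a (col b)) =
          Matrix.of (Sum.elim (fun (_ : Fin 1) b => C (Xh (col b)))
            (fun q b => ∑ I, dL (α q) (lam (κg q) I) * C (V I (col b)))) := by
        ext1 i j
        rcases i with i | q
        · rfl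
        · show dL (α q) (yh (κg q) (col j)) = ∑ I, dL (α q) (lam (κg q) I) * C (V I (col j))
          rw [hyV, dL_sum]
          exact Finset.sum_congr rfl fun I _ => dL_mul_C _ _ _
      rw [h2]
      exact h1
    have hPw := hP
    rw [det_rowsG_scale τ hXX hyy, hprod] at hPw
    obtain ⟨ℓh, hℓh⟩ : ∃ ℓh : MvPolynomial (Fin s) L, ℓh = ∑ i, C (zh i) * X i := ⟨_, rfl⟩
    have hℓℓ : (∑ l, C (z l) * X l : MvPolynomial (Fin s) L) = C (z l) * ℓh := by
      rw [hℓh, Finset.mul_sum]
      refine Finset.sum_congr rfl fun i _ => ?_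
      rw [hzzh i, C_mul]
      ring
    rw [hℓℓ, mul_pow] at hPw
    have hinv : (C (t⁻¹ ^ Wc) * C (t ^ Wc) : MvPolynomial (Fin s) L) = 1 := by
      rw [← C_mul, ← mul_pow, inv_mul_cancel₀ ht0, one_pow, C_1]
    have h1 : ℓh ^ k * (C (ε * b ^ w₀ * (t⁻¹ ^ Wc * z l ^ k)) * P) ∈ OA O s := by
      have h2 : ℓh ^ k * (C (ε * b ^ w₀ * (t⁻¹ ^ Wc * z l ^ k)) * P) =
          C (ε * b ^ w₀) * (Matrix.of fun a b => rowsG Xh yh κg α a (col b)).det := by
        have h3 : (Matrix.of fun a b => rowsG Xh yh κg α a (col b)).det =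
            C (t⁻¹ ^ Wc) * (C (z l) ^ k * ℓh ^ k * P) := by
          rw [← hPw, ← mul_assoc, hinv, one_mul]
        rw [h3, C_mul (a := ε * b ^ w₀), C_mul (a := t⁻¹ ^ Wc), C_pow (z l) k]
        ring
      rw [h2]
      exact hdetO
    rw [hℓh] at h1
    have h2 := gauss_linear_pow hzhO hzhl _ h1 β
    rw [coeff_C_mul, hmem, map_mul, map_mul, map_mul, map_mul, map_pow, map_pow, map_pow,
      map_inv₀, hε, hb, hwt', ← hlmax] at h2
    have hv : vmax w.1 z ≠ 0 := by
      rw [hlmax]
      exact hwl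
    have hve : vmax w.1 z * exp (θ w : ℤ) ≠ 0 := mul_ne_zero hv exp_ne_zero
    have hP1 : w.1 (coeff β P) ≠ 0 := (Valuation.ne_zero_iff _).2 hβ
    have hne : exp (-((w₀ * δ w + ρ w + N w : ℕ) : ℤ)) * exp (-(σ w : ℤ)) ^ w₀ *
        ((vmax w.1 z * exp (θ w : ℤ))⁻¹ ^ Wc * vmax w.1 z ^ k) ≠ 0 :=
      mul_ne_zero (mul_ne_zero exp_ne_zero (pow_ne_zero _ exp_ne_zero))
        (mul_ne_zero (pow_ne_zero _ (inv_ne_zero hve)) (pow_ne_zero _ hv))
    have h3 := (log_le_log (mul_ne_zero hne hP1) one_ne_zero).2 h2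
    rw [log_one, log_mul hne hP1, log_mul (mul_ne_zero exp_ne_zero
      (pow_ne_zero _ exp_ne_zero)) (mul_ne_zero (pow_ne_zero _ (inv_ne_zero hve))
      (pow_ne_zero _ hv)), log_mul exp_ne_zero (pow_ne_zero _ exp_ne_zero),
      log_mul (pow_ne_zero _ (inv_ne_zero hve)) (pow_ne_zero _ hv), log_pow, log_pow, log_pow,
      log_inv, log_mul hv exp_ne_zero, log_exp, log_exp, log_exp] at h3
    simp only [nsmul_eq_mul] at h3
    push_cast at h3
    linarith
  -- the sum over the places
  have s1 := h.place_support hβ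
  have s2 : (Function.support fun w : Place κ L =>
      ((k : ℤ) - Wc) * log (vmax w.1 z)).Finite := by
    refine (h.vmax_support hz0).subset fun w hw h1 => hw ?_
    simp only at h1 ⊢
    rw [h1, mul_zero]
  have hcast : ∀ {F : Place κ L → ℕ}, (Function.support F).Finite →
      (Function.support fun w : Place κ L => (F w : ℤ)).Finite := by
    intro F hF
    refine hF.subset fun w hw h1 => hw ?_
    simp only at h1 ⊢
    rw [h1, Nat.cast_zero]
  have s3 := hcast hδ
  have s4 := hcast hσ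
  have s5 := hcast hρ
  have s6 := hcast hN
  have s7 := hcast hθ
  have s34 : (Function.support fun w : Place κ L => (δ w : ℤ) + (σ w : ℤ)).Finite :=
    (s3.union s4).subset (Function.support_add _ _)
  have s34' : (Function.support fun w : Place κ L => (w₀ : ℤ) * ((δ w : ℤ) + (σ w : ℤ))).Finite := by
    refine s34.subset fun w hw h1 => hw ?_
    simp only at h1 ⊢
    rw [h1, mul_zero]
  have s56 : (Function.support fun w : Place κ L => (ρ w : ℤ) + (N w : ℤ)).Finite :=
    (s5.union s6).subset (Function.support_add _ _)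
  have s36 : (Function.support fun w : Place κ L => (w₀ : ℤ) * ((δ w : ℤ) + (σ w : ℤ)) +
      ((ρ w : ℤ) + (N w : ℤ))).Finite := (s34'.union s56).subset (Function.support_add _ _)
  have s7' : (Function.support fun w : Place κ L => (Wc : ℤ) * (θ w : ℤ)).Finite := by
    refine s7.subset fun w hw h1 => hw ?_
    simp only at h1 ⊢
    rw [h1, mul_zero]
  have hmain := finsum_mono ((s1.union s2).subset (Function.support_add _ _))
    ((s36.union s7').subset (Function.support_add _ _)) hloc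
  rw [finsum_add_distrib s1 s2, finsum_add_distrib s36 s7', finsum_add_distrib s34' s56,
    h.product_formula hβ, ← mul_finsum _ _, ← mul_finsum _ _, ← mul_finsum _ _,
    finsum_add_distrib s3 s4, finsum_add_distrib s5 s6, zero_add] at hmain
  have hh : ∑ᶠ w : Place κ L, log (vmax w.1 z) = height κ z := rfl
  rw [hh] at hmain
  have h1 := h.height_nonneg hz0
  have h2 : 0 ≤ ∑ᶠ w, (δ w : ℤ) := finsum_nonneg fun w => Int.natCast_nonneg _
  have h3 : 0 ≤ ∑ᶠ w, (σ w : ℤ) := finsum_nonneg fun w => Int.natCast_nonneg _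
  have h0 : 0 ≤ ∑ᶠ w, (θ w : ℤ) := finsum_nonneg fun w => Int.natCast_nonneg _
  have h4 : (w₀ : ℤ) ≤ r + Fintype.card B := by
    have h5 : w₀ ≤ r + Fintype.card B := by omega
    exact_mod_cast h5
  have h6 := mul_le_mul_of_nonneg_right hnxk h1
  have h7 := mul_le_mul_of_nonneg_right h4 (add_nonneg h2 h3)
  have h8 : (Wc : ℤ) ≤ r + 1 + (Ws : ℕ) := by exact_mod_cast hWc2
  have h9 := mul_le_mul_of_nonneg_right h8 h0
  linarith

end Pool.Agent.Lib.MP_44a246_ntMU
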