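import Mathlib
import Pool.Agent.Lib.MP_44a246_ntMS.MW02

/-!
The identities for the derivatives of a point with weighted coordinates and of the values of the
forms, from the relations between the derivatives of the forms, for several forms.
-/

namespace Pool.Agent.Lib.MP_44a246_ntMU

open Pool.Agent.Lib.MP_e52354_ntMR
open Pool.Agent.Lib.MP_44a246_ntMS (card_le_of_dimI_W)
open Pool.Agent.Lib.MP_44a246_ntK (der_aevalG)
open Pool.Agent.Lib.MP_44a246_ntR (imI)
open Pool.Agent.Lib.MP_44a246_ntU (exists_der_comb)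
open MvPolynomial

/-- the combination of the derivatives of the coefficients of a form -/
theorem sum_evD {L M : Type*} [Field L] [Field M] [Algebra L M] {n : ℕ} {ι : Type*} [Fintype ι]
    {D₀ : ι → Derivation ℤ L L} {D : ι → Derivation ℤ M M}
    (hD0 : ∀ I y, D I (algebraMap L M y) = algebraMap L M (D₀ I y)) {J : ℕ}
    {F : MvPolynomial (Fin n) L} {lam : ι → MvPolynomial (Fin n) L}
    {g₀ : MvPolynomial (Fin n) (MvPolynomial (Fin n) L)} {P : Prop} [Decidable P]
    (hrel : ∀ m, ∑ I, lam I * C (D₀ I (coeff m F)) =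
      if P then coeff m (lin L n ^ J * g₀) else 0) (z : Fin n → M) :
    ∑ I, map (algebraMap L M) (lam I) * C (evD (D I) z F) =
      if P then (∑ l, C (z l) * X l) ^ J * valA z g₀ else 0 := by
  classical
  obtain ⟨T, hT⟩ : ∃ T : Finset (Fin n →₀ ℕ), T = F.support ∪ (lin L n ^ J * g₀).support :=
    ⟨_, rfl⟩
  have h1 : ∀ I, evD (D I) z F = ∑ m ∈ T,
      algebraMap L M (D₀ I (coeff m F)) * ∏ i, z i ^ m i := by
    intro I
    rw [evD_eq_sum _ z F (S := T) (by rw [hT]; exact Finset.subset_union_left)]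
    refine Finset.sum_congr rfl fun m _ => ?_
    rw [hD0]
  have h2 : ∑ I, map (algebraMap L M) (lam I) * C (evD (D I) z F) =
      ∑ m ∈ T, map (algebraMap L M) (∑ I, lam I * C (D₀ I (coeff m F))) *
        C (∏ i, z i ^ m i) := by
    simp only [h1, map_sum, Finset.mul_sum, Finset.sum_mul]
    rw [Finset.sum_comm]
    refine Finset.sum_congr rfl fun m _ => Finset.sum_congr rfl fun I _ => ?_
    rw [C_mul, map_mul, map_C]
    ring
  rw [h2]
  simp only [hrel]
  split_ifs with hj
  · rw [← valA_eq_sum z (lin L n ^ J * g₀) (S := T) (by rw [hT]; exact Finset.subset_union_right),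
      map_mul, map_pow, valA_lin]
  · simp

/-- **The identities for the derivatives of a point and of the values of the forms.** The points
have the weighted coordinates `x i`, the forms `H j` are forms in the coordinates `x (ι l)` of
weight `1`. The polynomials `g a`, for `a` in `A`, determine the derivatives of the values of the
forms with the indices `ν (inl a)`; the values of the forms with the indices `ν (inr b)`, for `b`
in `B`, are not zero. -/
theorem relation_dataU {k₀ L M : Type*} [Field k₀] [CharZero k₀] [Field L] [Field M]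
    [CharZero M] [Algebra k₀ L] [Algebra L M] [Algebra k₀ M] [IsScalarTower k₀ L M] {n q p : ℕ}
    {T : Type*} [Fintype T] {D₀ : T → Derivation ℤ L L} {D : T → Derivation ℤ M M}
    (hD0 : ∀ I y, D I (algebraMap L M y) = algebraMap L M (D₀ I y))
    (hYk : ∀ I, ∀ c : k₀, D I (algebraMap k₀ M c) = 0)
    {r s : ℕ} {d : Fin p → ℕ} {wt : Fin q → ℕ} {e : Fin s → ℕ} {ι : Fin n → Fin q}
    (hwι : ∀ l, wt (ι l) = 1) {f : Fin s → MvPolynomial (Fin p ⊕ Fin q) k₀}
    (hf : ∀ i, (f i).IsWeightedHomogeneous (Sum.elim d wt) (e i))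
    (hdim : ringKrullDim (MvPolynomial (Fin q) k₀ ⧸ imI f) ≤ ((r + 1 : ℕ) : ℕ))
    {H : Fin p → MvPolynomial (Fin n) L} (hH : ∀ j, (H j).IsHomogeneous (d j))
    {A B : Type*} [Fintype A] [DecidableEq A] [Fintype B] [DecidableEq B]
    {ν : A ⊕ B → Fin p} (hν : Function.Injective ν) {J : A ⊕ B → ℕ}
    {lam : A ⊕ B → T → MvPolynomial (Fin n) L}
    {g₀ : A ⊕ B → MvPolynomial (Fin n) (MvPolynomial (Fin n) L)}
    (hrel : ∀ a j m, ∑ I, lam a I * C (D₀ I (coeff m (H j))) =
      if j = ν a then coeff m (lin L n ^ J a * g₀ a) else 0)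
    {g : A → MvPolynomial (Fin p ⊕ Fin q) k₀} {e' : A → ℕ}
    (hg : ∀ a, (g a).IsWeightedHomogeneous (Sum.elim d wt) (e' a))
    {α : A ⊕ B → Fin n →₀ ℕ} {j₀ : Fin n} {x : Fin q → M} (hx : x (ι j₀) = 1)
    (hzf : ∀ i, aeval (Sum.elim (fun j => aeval (fun l => x (ι l)) (H j)) x :
      Fin p ⊕ Fin q → M) (f i) = 0)
    (hzg : ∀ a, aeval (Sum.elim (fun j => aeval (fun l => x (ι l)) (H j)) x :
      Fin p ⊕ Fin q → M) (g a) = 0)
    (hdg : (Matrix.of fun a a' : A => aeval (Sum.elim (fun j => aeval (fun l => x (ι l)) (H j)) x :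
      Fin p ⊕ Fin q → M) (pderiv (Sum.inl (ν (Sum.inl a'))) (g a))).det ≠ 0)
    (hu : ∀ b, aeval (fun l => x (ι l)) (H (ν (Sum.inr b))) ≠ 0)
    (hgA : ∀ a, aeval (fun l => x (ι l)) (coA (α a) (g₀ a)) ≠ 0) :
    ∃ (φ : A ⊕ B → Fin q → M) (ψ : A ⊕ B → B → M) (g' : A ⊕ B → MvPolynomial (Fin n) M)
      (q' : ℕ) (jj : Fin q' → Fin q) (c : Fin q → Fin q' → M),
      (∀ a, ∑ i, φ a i * ((wt i : M) * x i) +
        ∑ b, ψ a b * (d (ν (Sum.inr b)) : M) = 0) ∧ (∀ a, g' a ≠ 0) ∧ q' ≤ r ∧
      (∀ a a', ∑ i, C (φ a i) * (∑ I, map (algebraMap L M) (lam a' I) * C (D I (x i))) +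
        ∑ b, C (ψ a b) * (∑ I, map (algebraMap L M) (lam a' I) *
          C (D I (aeval (fun l => x (ι l)) (H (ν (Sum.inr b)))) /
            aeval (fun l => x (ι l)) (H (ν (Sum.inr b))))) =
        if a = a' then (∑ l, C (x (ι l)) * X l) ^ J a' * g' a' else 0) ∧
      ∀ I i, D I (x i) = ∑ t, c i t * D I (x (jj t)) := by
  classical
  obtain ⟨z, hz⟩ : ∃ z : Fin n → M, z = fun l => x (ι l) := ⟨_, rfl⟩
  obtain ⟨η, hη⟩ : ∃ η : Fin p → M, η = fun j => aeval z (H j) := ⟨_, rfl⟩
  obtain ⟨y, hy⟩ : ∃ y : Fin p ⊕ Fin q → M, y = Sum.elim η x := ⟨_, rfl⟩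
  rw [← hz] at hzf hzg hdg hu hgA
  have hη' : (fun j => aeval z (H j)) = η := hη.symm
  rw [hη'] at hzf hzg hdg
  have hzg' : ∀ a, aeval y (g a) = 0 := by
    intro a
    rw [hy]
    exact hzg a
  rw [← hy] at hdg
  -- the gradients of the forms
  obtain ⟨dH, hdH⟩ : ∃ dH : Fin p → Fin q → M, dH = fun j i =>
    ∑ l, if ι l = i then aeval z (pderiv l (H j)) else 0 := ⟨_, rfl⟩
  have hdHv : ∀ (j : Fin p) (v : Fin q → M), ∑ i, dH j i * v i =
      ∑ l, aeval z (pderiv l (H j)) * v (ι l) := by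
    intro j v
    rw [hdH]
    simp only [Finset.sum_mul]
    rw [Finset.sum_comm]
    refine Finset.sum_congr rfl fun l _ => ?_
    rw [Finset.sum_eq_single (ι l)]
    · rw [if_pos rfl]
    · intro i _ hi
      rw [if_neg (Ne.symm hi), zero_mul]
    · intro h
      exact absurd (Finset.mem_univ _) h
  have hdHx : ∀ j, ∑ i, dH j i * ((wt i : M) * x i) = (d j : M) * η j := by
    intro j
    rw [hdHv, hη]
    have h3 := congrArg (aeval z) (hH j).sum_X_mul_pderiv
    rw [map_sum, map_nsmul, nsmul_eq_mul] at h3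
    rw [← h3]
    refine Finset.sum_congr rfl fun l _ => ?_
    rw [map_mul, aeval_X, hwι, Nat.cast_one, one_mul, hz, mul_comm]
  have hDη : ∀ I j, D I (η j) = evD (D I) z (H j) + ∑ i, dH j i * D I (x i) := by
    intro I j
    rw [hη, hdHv]
    show D I (aeval z (H j)) = _
    rw [der_aeval_gen (D I) z (H j), hz]
  -- the functionals
  obtain ⟨t, ht⟩ : ∃ t : A → Fin p → M, t = fun a j => aeval y (pderiv (Sum.inl j) (g a)) :=
    ⟨_, rfl⟩
  obtain ⟨θ, hθ⟩ : ∃ θ : A → Fin q → M, θ = fun a i => aeval y (pderiv (Sum.inr i) (g a)) +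
    ∑ j, t a j * dH j i := ⟨_, rfl⟩
  have hθv : ∀ a (v : Fin q → M), ∑ i, θ a i * v i =
      ∑ i, aeval y (pderiv (Sum.inr i) (g a)) * v i + ∑ j, t a j * ∑ i, dH j i * v i := by
    intro a v
    rw [hθ]
    simp only [add_mul, Finset.sum_add_distrib]
    congr 1
    simp only [Finset.sum_mul]
    rw [Finset.sum_comm]
    refine Finset.sum_congr rfl fun j _ => ?_
    rw [Finset.mul_sum]
    exact Finset.sum_congr rfl fun i _ => by ring
  have hθx : ∀ a, ∑ i, θ a i * ((wt i : M) * x i) = 0 := by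
    intro a
    have h1 := congrArg (aeval y) (hg a).sum_weight_X_mul_pderiv
    rw [map_nsmul, hzg', smul_zero, map_sum, Fintype.sum_sum_type] at h1
    rw [hθv, ← h1, add_comm]
    congr 1
    · refine Finset.sum_congr rfl fun j _ => ?_
      rw [map_nsmul, map_mul, aeval_X, hy, nsmul_eq_mul, hdHx, ht, hy]
      show _ = (d j : M) * (η j * _)
      ring
    · refine Finset.sum_congr rfl fun i _ => ?_
      rw [map_nsmul, map_mul, aeval_X, hy, nsmul_eq_mul]
      show _ = (wt i : M) * (x i * _)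
      ring
  have hθD : ∀ a I, ∑ i, θ a i * D I (x i) = - ∑ j, t a j * evD (D I) z (H j) := by
    intro a I
    have h1 := der_aevalG (D I) (hYk I) y (g a)
    rw [hzg', map_zero, Fintype.sum_sum_type] at h1
    have h2 : ∀ j, D I (y (Sum.inl j)) = evD (D I) z (H j) + ∑ i, dH j i * D I (x i) := by
      intro j
      rw [hy]
      exact hDη I j
    have h3 : ∀ i, D I (y (Sum.inr i)) = D I (x i) := by
      intro i
      rw [hy]
      rfl
    simp only [h2, h3, mul_add, Finset.sum_add_distrib] at h1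
    rw [hθv, ht]
    linear_combination -h1
  -- the derivatives of the coefficients
  have hsum : ∀ a j, ∑ I, map (algebraMap L M) (lam a I) * C (evD (D I) z (H j)) =
      if j = ν a then (∑ l, C (z l) * X l) ^ J a * valA z (g₀ a) else 0 :=
    fun a j => sum_evD hD0 (hrel a j) z
  obtain ⟨gv, hgv⟩ : ∃ gv : A ⊕ B → MvPolynomial (Fin n) M,
    gv = fun a => (∑ l, C (z l) * X l) ^ J a * valA z (g₀ a) := ⟨_, rfl⟩
  have hsum' : ∀ a j, ∑ I, map (algebraMap L M) (lam a I) * C (evD (D I) z (H j)) =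
      C (if j = ν a then 1 else 0 : M) * gv a := by
    intro a j
    rw [hsum, hgv]
    split_ifs
    · rw [C_1, one_mul]
    · rw [C_0, zero_mul]
  obtain ⟨Θ, hΘ⟩ : ∃ Θ : A ⊕ B → Fin q → M,
    Θ = Sum.elim θ (fun b => dH (ν (Sum.inr b))) := ⟨_, rfl⟩
  obtain ⟨Ψ, hΨ⟩ : ∃ Ψ : A ⊕ B → B → M,
    Ψ = Sum.elim (fun _ _ => 0) (fun b b' => if b = b' then - η (ν (Sum.inr b)) else 0) :=
    ⟨_, rfl⟩
  obtain ⟨Q, hQ⟩ : ∃ Q : Matrix (A ⊕ B) (A ⊕ B) M, Q = Matrix.fromBlocks
    (Matrix.of fun a a' => t a (ν (Sum.inl a'))) (Matrix.of fun a b => t a (ν (Sum.inr b))) 0 1 :=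
    ⟨_, rfl⟩
  have hQdet : IsUnit Q.det := by
    rw [hQ, Matrix.det_fromBlocks_zero₂₁, Matrix.det_one, mul_one, isUnit_iff_ne_zero, ht]
    exact hdg
  have hΘx : ∀ a, ∑ i, Θ a i * ((wt i : M) * x i) +
      ∑ b, Ψ a b * (d (ν (Sum.inr b)) : M) = 0 := by
    intro a
    rw [hΘ, hΨ]
    rcases a with a | b
    · show ∑ i, θ a i * ((wt i : M) * x i) + ∑ b, (0 : M) * (d (ν (Sum.inr b)) : M) = 0
      rw [hθx]
      simp
    · show ∑ i, dH (ν (Sum.inr b)) i * ((wt i : M) * x i) +
        ∑ b', (if b = b' then - η (ν (Sum.inr b)) else 0) * (d (ν (Sum.inr b')) : M) = 0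
      rw [hdHx, Finset.sum_eq_single b]
      · rw [if_pos rfl]
        ring
      · intro b' _ hb'
        rw [if_neg (Ne.symm hb'), zero_mul]
      · intro h
        exact absurd (Finset.mem_univ _) h
  have hΘD : ∀ a I, ∑ i, Θ a i * D I (x i) + ∑ b, Ψ a b *
      (D I (η (ν (Sum.inr b))) / η (ν (Sum.inr b))) =
      - ∑ j, (Sum.elim t (fun b j => if j = ν (Sum.inr b) then 1 else 0) : A ⊕ B → Fin p → M) a j *
        evD (D I) z (H j) := by
    intro a I
    rw [hΘ, hΨ]
    rcases a with a | b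
    · show ∑ i, θ a i * D I (x i) + ∑ b, (0 : M) *
        (D I (η (ν (Sum.inr b))) / η (ν (Sum.inr b))) = - ∑ j, t a j * evD (D I) z (H j)
      rw [hθD]
      simp
    · show ∑ i, dH (ν (Sum.inr b)) i * D I (x i) +
        ∑ b', (if b = b' then - η (ν (Sum.inr b)) else 0) *
          (D I (η (ν (Sum.inr b'))) / η (ν (Sum.inr b'))) =
        - ∑ j, (if j = ν (Sum.inr b) then 1 else 0) * evD (D I) z (H j)
      have hub : η (ν (Sum.inr b)) ≠ 0 := by
        rw [hη]
        exact hu b
      rw [Finset.sum_eq_single b]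
      · rw [if_pos rfl, Finset.sum_eq_single (ν (Sum.inr b))]
        · rw [if_pos rfl, one_mul, neg_mul, mul_div_cancel₀ _ hub, hDη]
          ring
        · intro j _ hj
          rw [if_neg hj, zero_mul]
        · intro h
          exact absurd (Finset.mem_univ _) h
      · intro b' _ hb'
        rw [if_neg (Ne.symm hb'), zero_mul]
      · intro h
        exact absurd (Finset.mem_univ _) h
  -- the values of the functionals
  have hval : ∀ a a', ∑ i, C (Θ a i) * (∑ I, map (algebraMap L M) (lam a' I) * C (D I (x i))) +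
      ∑ b, C (Ψ a b) * (∑ I, map (algebraMap L M) (lam a' I) *
        C (D I (η (ν (Sum.inr b))) / η (ν (Sum.inr b)))) = - (C (Q a a') * gv a') := by
    intro a a'
    have h1 : ∑ i, C (Θ a i) * (∑ I, map (algebraMap L M) (lam a' I) * C (D I (x i))) +
        ∑ b, C (Ψ a b) * (∑ I, map (algebraMap L M) (lam a' I) *
          C (D I (η (ν (Sum.inr b))) / η (ν (Sum.inr b)))) =
        ∑ I, map (algebraMap L M) (lam a' I) * C (∑ i, Θ a i * D I (x i) +
          ∑ b, Ψ a b * (D I (η (ν (Sum.inr b))) / η (ν (Sum.inr b)))) := by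
      simp only [Finset.mul_sum, map_sum, map_add, mul_add, Finset.sum_add_distrib]
      congr 1
      · rw [Finset.sum_comm]
        refine Finset.sum_congr rfl fun I _ => Finset.sum_congr rfl fun i _ => ?_
        rw [C_mul]
        ring
      · rw [Finset.sum_comm]
        refine Finset.sum_congr rfl fun I _ => Finset.sum_congr rfl fun i _ => ?_
        rw [C_mul]
        ring
    rw [h1]
    simp only [hΘD]
    have h2 : ∑ I, map (algebraMap L M) (lam a' I) * C (- ∑ j, (Sum.elim t (fun b j =>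
        if j = ν (Sum.inr b) then 1 else 0) : A ⊕ B → Fin p → M) a j * evD (D I) z (H j)) =
        - ∑ j, C ((Sum.elim t (fun b j =>
          if j = ν (Sum.inr b) then 1 else 0) : A ⊕ B → Fin p → M) a j) *
          ∑ I, map (algebraMap L M) (lam a' I) * C (evD (D I) z (H j)) := by
      simp only [C_neg, map_sum, Finset.mul_sum, C_mul, mul_neg, Finset.sum_neg_distrib]
      congr 1
      rw [Finset.sum_comm]
      refine Finset.sum_congr rfl fun j _ => Finset.sum_congr rfl fun I _ => ?_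
      ring
    rw [h2]
    congr 1
    simp only [hsum']
    rw [Finset.sum_eq_single (ν a')]
    · rw [if_pos rfl, C_1, one_mul]
      congr 2
      rw [hQ]
      rcases a with a | b
      · rcases a' with a' | b'
        · rfl
        · rfl
      · rcases a' with a' | b'
        · show (if ν (Sum.inl a') = ν (Sum.inr b) then (1 : M) else 0) = 0
          rw [if_neg]
          intro h
          exact absurd (hν h) (by simp)
        · show (if ν (Sum.inr b') = ν (Sum.inr b) then (1 : M) else 0) = (1 : Matrix B B M) b b'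
          by_cases hb : b = b'
          · subst hb
            rw [if_pos rfl, Matrix.one_apply_eq]
          · rw [if_neg, Matrix.one_apply_ne hb]
            intro h
            exact hb (Sum.inr_injective (hν h)).symm
    · intro j _ hj
      rw [if_neg hj, C_0, zero_mul, mul_zero]
    · intro h
      exact absurd (Finset.mem_univ _) h
  -- the rank
  obtain ⟨q', jj, c, hq, hc⟩ := exists_der_comb (k := k₀) (γ := x) (r := r)
    fun q j hj => card_le_of_dimI_W hf hdim hzf hx (hwι j₀) hj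
  refine ⟨fun a i => - ∑ a'', Q⁻¹ a a'' * Θ a'' i, fun a b => - ∑ a'', Q⁻¹ a a'' * Ψ a'' b,
    fun a => valA z (g₀ a), q', jj, c, fun a => ?_, fun a => valA_ne_zero (hgA a), hq,
    fun a a' => ?_, fun I i => hc (D I) (hYk I) i⟩
  · have h1 : ∑ i, (- ∑ a'', Q⁻¹ a a'' * Θ a'' i) * ((wt i : M) * x i) +
        ∑ b, (- ∑ a'', Q⁻¹ a a'' * Ψ a'' b) * (d (ν (Sum.inr b)) : M) =
        - ∑ a'', Q⁻¹ a a'' * (∑ i, Θ a'' i * ((wt i : M) * x i) +
          ∑ b, Ψ a'' b * (d (ν (Sum.inr b)) : M)) := by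
      simp only [mul_add, Finset.sum_add_distrib, Finset.mul_sum, neg_mul, Finset.sum_mul,
        Finset.sum_neg_distrib, neg_add]
      congr 1
      · congr 1
        rw [Finset.sum_comm]
        exact Finset.sum_congr rfl fun _ _ => Finset.sum_congr rfl fun _ _ => by ring
      · congr 1
        rw [Finset.sum_comm]
        exact Finset.sum_congr rfl fun _ _ => Finset.sum_congr rfl fun _ _ => by ring
    rw [h1]
    simp only [hΘx, mul_zero, Finset.sum_const_zero, neg_zero]
  · have h0 : ∀ b, aeval (fun l => x (ι l)) (H (ν (Sum.inr b))) = η (ν (Sum.inr b)) := by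
      intro b
      rw [hη, hz]
    simp only [h0]
    have h1 : ∑ i, C (- ∑ a'', Q⁻¹ a a'' * Θ a'' i) *
          (∑ I, map (algebraMap L M) (lam a' I) * C (D I (x i))) +
        ∑ b, C (- ∑ a'', Q⁻¹ a a'' * Ψ a'' b) * (∑ I, map (algebraMap L M) (lam a' I) *
          C (D I (η (ν (Sum.inr b))) / η (ν (Sum.inr b)))) =
        - ∑ a'', C (Q⁻¹ a a'') *
          (∑ i, C (Θ a'' i) * (∑ I, map (algebraMap L M) (lam a' I) * C (D I (x i))) +
          ∑ b, C (Ψ a'' b) * (∑ I, map (algebraMap L M) (lam a' I) *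
            C (D I (η (ν (Sum.inr b))) / η (ν (Sum.inr b))))) := by
      simp only [mul_add, Finset.sum_add_distrib, neg_add, C_neg, map_sum, neg_mul,
        Finset.sum_neg_distrib]
      congr 1
      · congr 1
        simp only [Finset.sum_mul]
        rw [Finset.sum_comm]
        refine Finset.sum_congr rfl fun _ _ => ?_
        rw [Finset.mul_sum]
        refine Finset.sum_congr rfl fun _ _ => ?_
        rw [C_mul]
        simp only [Finset.mul_sum, Finset.sum_mul]
        exact Finset.sum_congr rfl fun _ _ => by ring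
      · congr 1
        simp only [Finset.sum_mul]
        rw [Finset.sum_comm]
        refine Finset.sum_congr rfl fun _ _ => ?_
        rw [Finset.mul_sum]
        refine Finset.sum_congr rfl fun _ _ => ?_
        rw [C_mul]
        simp only [Finset.mul_sum, Finset.sum_mul]
        exact Finset.sum_congr rfl fun _ _ => by ring
    rw [h1]
    simp only [hval]
    have h2 : - ∑ a'', C (Q⁻¹ a a'') * - (C (Q a'' a') * gv a') =
        C ((Q⁻¹ * Q) a a') * gv a' := by
      rw [Matrix.mul_apply, map_sum, Finset.sum_mul, ← Finset.sum_neg_distrib]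
      refine Finset.sum_congr rfl fun _ _ => ?_
      rw [C_mul]
      ring
    rw [h2, Matrix.nonsing_inv_mul _ hQdet]
    split_ifs with haa
    · subst haa
      rw [Matrix.one_apply_eq, C_1, one_mul, hgv, hz]
    · rw [Matrix.one_apply_ne haa, C_0, zero_mul]

end Pool.Agent.Lib.MP_44a246_ntMU
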