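import Mathlib
import Pool.Agent.Lib.MP_44a246_ntMS.MW05
import Pool.Agent.Lib.MP_44a246_ntML.ML05
import Pool.Agent.Lib.MP_44a246_ntMU.MU05
import Pool.Agent.Lib.MP_44a246_ntMU.MU06

/-!
The height inequality with the truncated counting function, for several forms and points with
weighted coordinates over finite extensions of a function field.
-/

namespace Pool.Agent.Lib.MP_44a246_ntMU

open Pool.Agent.Lib.MP_44a246_nt
open Pool.Agent.Lib.MP_44a246_ntL
open Pool.Agent.Lib.MP_44a246_ntX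
open Pool.Agent.Lib.MP_44a246_ntMS
open Pool.Agent.Lib.MP_e52354_ntMR
open Pool.Agent.Lib.MP_44a246_ntML (finite_ne_vmax)
open Pool.Agent.Lib.MP_44a246_ntR (imI)
open WithZero MvPolynomial

/-- the bound of the coordinates by the coordinates of weight `1` -/
theorem coord_bound {κ K L : Type*} [Field κ] [IsAlgClosed κ] [CharZero κ] [Field K] [CharZero K]
    [Algebra κ K] [Field L] [CharZero L] [Algebra K L] [FiniteDimensional K L]
    [Algebra κ L] [IsScalarTower κ K L] {k₀ : Type*} [Field k₀] [CharZero k₀] [Algebra k₀ K]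
    [Algebra k₀ L] [IsScalarTower k₀ K L] {Θ : Place κ K → ℕ}
    {n q p s : ℕ} {wt : Fin q → ℕ} (hwt : ∀ i, 1 ≤ wt i) {ι : Fin n → Fin q}
    {f : Fin s → MvPolynomial (Fin p ⊕ Fin q) k₀} {H : Fin p → MvPolynomial (Fin n) K}
    {b : Fin q → ℕ} (hb : ∀ i, 1 ≤ b i) {R : Fin q → Fin s → MvPolynomial (Fin q) K}
    {cc : Fin q → Fin q → MvPolynomial (Fin q) K}
    (hcw : ∀ i l, (cc i l).IsWeightedHomogeneous wt (b i * wt i - 1))
    (hcΘ : ∀ i l α (v : Place κ K), v.1 (coeff α (cc i l)) ≤ exp (Θ v : ℤ))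
    (hint : ∀ i, (X i : MvPolynomial (Fin q) K) ^ b i =
      ∑ t, R i t * aeval (Sum.elim (fun j => rename ι (H j)) X :
        Fin p ⊕ Fin q → MvPolynomial (Fin q) K) (f t) +
        ∑ l ∈ Finset.univ.image ι, X l * cc i l)
    {j₀ : Fin n} {x : Fin q → L} (hx : x (ι j₀) = 1)
    (hzf : ∀ i, aeval (Sum.elim (fun j => aeval (fun l => x (ι l)) (H j)) x :
      Fin p ⊕ Fin q → L) (f i) = 0) :
    ∀ i (w : Place κ L), w.1 (x i) ≤ (vmax w.1 (fun l => x (ι l)) *
      exp ((ramIdx K w.1 * Θ (below K w) : ℕ) : ℤ)) ^ wt i := by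
  classical
  obtain ⟨S, hS⟩ : ∃ S : Finset (Fin q), S = Finset.univ.image ι := ⟨_, rfl⟩
  have hHx' : (fun j => aeval x (rename ι (H j))) = fun j => aeval (fun l => x (ι l)) (H j) := by
    funext j
    rw [aeval_rename]
    rfl
  have hzf' : ∀ i, aeval (Sum.elim (fun j => aeval x (rename ι (H j))) x : Fin p ⊕ Fin q → L)
      (f i) = 0 := by
    intro i
    rw [hHx']
    exact hzf i
  have hval : ∀ t, aeval x (aeval (Sum.elim (fun j => rename ι (H j)) X :
      Fin p ⊕ Fin q → MvPolynomial (Fin q) K) (f t)) = 0 := by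
    intro t
    rw [← hzf' t]
    have h1 := aeval_subH (k₀ := k₀) (L := K) (M := L) (fun j => rename ι (H j)) (f t) x
    exact h1
  have hcoef : ∀ i l α (w : Place κ L), w.1 (coeff α (map (algebraMap K L) (cc i l))) ≤
      exp ((ramIdx K w.1 * Θ (below K w) : ℕ) : ℤ) := by
    intro i l β w
    rw [coeff_map, below_pow]
    have h1 := pow_le_pow_left' (hcΘ i l β (below K w)) (ramIdx K w.1)
    refine h1.trans (le_of_eq ?_)
    rw [← exp_nsmul, nsmul_eq_mul]
    push_cast
    rfl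
  intro i w
  have hbound := weight_bound w.1 hwt (S := S) (j₀ := ι j₀) (x := x)
    (θ := ramIdx K w.1 * Θ (below K w)) (by
    rw [hS]
    exact Finset.mem_image_of_mem _ (Finset.mem_univ _)) hx (fun i' => by
      refine ⟨b i', fun l => map (algebraMap K L) (cc i' l), hb i', fun l m hm => ?_,
        fun l m => hcoef i' l m w, ?_⟩
      · refine hcw i' l ?_
        intro h0
        apply hm
        rw [coeff_map, h0, map_zero]
      · have h1 := congrArg (aeval x) (hint i')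
        rw [map_pow, aeval_X, map_add, map_sum, map_sum] at h1
        rw [h1]
        have h2 : ∑ t, aeval x (R i' t * aeval (Sum.elim (fun j => rename ι (H j)) X :
            Fin p ⊕ Fin q → MvPolynomial (Fin q) K) (f t)) = 0 :=
          Finset.sum_eq_zero fun t _ => by rw [map_mul, hval, mul_zero]
        rw [h2, zero_add, ← hS]
        refine Finset.sum_congr rfl fun l _ => ?_
        rw [map_mul, aeval_X, aeval_map_algebraMap]) i
  rwa [hS, vmax_resS] at hbound

/-- **The height inequality** for the points over a finite extension, for several forms. -/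
theorem height_overU {κ K L : Type*} [Field κ] [IsAlgClosed κ] [CharZero κ] [Field K] [CharZero K]
    [Algebra κ K] (hK : IsFF κ K) [Field L] [CharZero L] [Algebra K L] [FiniteDimensional K L]
    [Algebra κ L] [IsScalarTower κ K L] {k₀ : Type*} [Field k₀] [CharZero k₀] [Algebra k₀ K]
    [Algebra k₀ L] [IsScalarTower k₀ K L] {T : Type*} [Fintype T] {DK : T → Derivation ℤ K K}
    {B A Θ : Place κ K → ℕ} (hB : (Function.support B).Finite) (hA : (Function.support A).Finite)
    (hΘ : (Function.support Θ).Finite)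
    (hPB : ∀ I, PoleBound κ (DK I) B) (hDk : ∀ I, ∀ c : k₀, DK I (algebraMap k₀ K c) = 0)
    {n q p r s : ℕ} {d : Fin p → ℕ} {wt : Fin q → ℕ} (hwt : ∀ i, 1 ≤ wt i) {e : Fin s → ℕ}
    {ι : Fin n → Fin q} (hwι : ∀ l, wt (ι l) = 1)
    {f : Fin s → MvPolynomial (Fin p ⊕ Fin q) k₀}
    (hf : ∀ i, (f i).IsWeightedHomogeneous (Sum.elim d wt) (e i))
    (hdim : ringKrullDim (MvPolynomial (Fin q) k₀ ⧸ imI f) ≤ ((r + 1 : ℕ) : ℕ))
    {H : Fin p → MvPolynomial (Fin n) K} (hH : ∀ j, (H j).IsHomogeneous (d j))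
    {A' B' : Type*} [Fintype A'] [DecidableEq A'] [Fintype B'] [DecidableEq B']
    {ν : A' ⊕ B' → Fin p} (hν : Function.Injective ν) {J : A' ⊕ B' → ℕ}
    {lam : A' ⊕ B' → T → MvPolynomial (Fin n) K}
    (hlam : ∀ a I α (v : Place κ K), v.1 (coeff α (lam a I)) ≤ exp (A v : ℤ))
    {g₀ : A' ⊕ B' → MvPolynomial (Fin n) (MvPolynomial (Fin n) K)}
    (hrel : ∀ a j m, ∑ I, lam a I * C (DK I (coeff m (H j))) =
      if j = ν a then coeff m (lin K n ^ J a * g₀ a) else 0)
    {b : Fin q → ℕ} (hb : ∀ i, 1 ≤ b i) {R : Fin q → Fin s → MvPolynomial (Fin q) K}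
    {cc : Fin q → Fin q → MvPolynomial (Fin q) K}
    (hcw : ∀ i l, (cc i l).IsWeightedHomogeneous wt (b i * wt i - 1))
    (hcΘ : ∀ i l α (v : Place κ K), v.1 (coeff α (cc i l)) ≤ exp (Θ v : ℤ))
    (hint : ∀ i, (X i : MvPolynomial (Fin q) K) ^ b i =
      ∑ t, R i t * aeval (Sum.elim (fun j => rename ι (H j)) X :
        Fin p ⊕ Fin q → MvPolynomial (Fin q) K) (f t) +
        ∑ l ∈ Finset.univ.image ι, X l * cc i l)
    {g : A' → MvPolynomial (Fin p ⊕ Fin q) k₀} {e' : A' → ℕ}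
    (hg : ∀ a, (g a).IsWeightedHomogeneous (Sum.elim d wt) (e' a))
    {α : A' ⊕ B' → Fin n →₀ ℕ} {j₀ : Fin n} {x : Fin q → L} (hx : x (ι j₀) = 1)
    (hzf : ∀ i, aeval (Sum.elim (fun j => aeval (fun l => x (ι l)) (H j)) x :
      Fin p ⊕ Fin q → L) (f i) = 0)
    (hzg : ∀ a, aeval (Sum.elim (fun j => aeval (fun l => x (ι l)) (H j)) x :
      Fin p ⊕ Fin q → L) (g a) = 0)
    (hdg : (Matrix.of fun a a' : A' =>
      aeval (Sum.elim (fun j => aeval (fun l => x (ι l)) (H j)) x :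
        Fin p ⊕ Fin q → L) (pderiv (Sum.inl (ν (Sum.inl a'))) (g a))).det ≠ 0)
    (hu : ∀ b, aeval (fun l => x (ι l)) (H (ν (Sum.inr b))) ≠ 0)
    (hgA : ∀ a, aeval (fun l => x (ι l)) (coA (α a) (g₀ a)) ≠ 0) :
    (∀ i (w : Place κ L), w.1 (x i) ≤ (vmax w.1 (fun l => x (ι l)) *
      exp ((ramIdx K w.1 * Θ (below K w) : ℕ) : ℤ)) ^ wt i) ∧
    ((∑ a, J a : ℕ) + (Fintype.card A' : ℤ) - 2 * r - 1 - (∑ i, (wt i - 1) : ℕ)) *
        height κ (fun l => x (ι l)) ≤
      ramDeg κ L K + ({w : Place κ L | ∃ b : B',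
        w.1 (aeval (fun l => x (ι l)) (H (ν (Sum.inr b)))) ≠
          vmax w.1 (fun l => x (ι l)) ^ d (ν (Sum.inr b))}.ncard : ℤ) +
      (r + Fintype.card B') * (Module.finrank K L * (∑ᶠ v, (B v : ℤ) + ∑ᶠ v, (A v : ℤ))) +
      (r + 2 + (∑ i, (wt i - 1) : ℕ)) * (Module.finrank K L * ∑ᶠ v, (Θ v : ℤ)) := by
  classical
  have hL : IsFF κ L := hK.of_finite
  choose D' hD' using fun I => exists_extension (L := L) (DK I)
  have hYk : ∀ I, ∀ c : k₀, D' I (algebraMap k₀ L c) = 0 := by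
    intro I c
    rw [IsScalarTower.algebraMap_apply k₀ K L, hD', hDk, map_zero]
  have hbound := coord_bound (κ := κ) (L := L) hwt hb hcw hcΘ hint hx hzf
  refine ⟨hbound, ?_⟩
  obtain ⟨φ, ψ, g', q', jj, c, hφx, hg', hq, hφy, hc⟩ := relation_dataU hD' hYk hwι hf hdim hH hν
    hrel hg hx hzf hzg hdg hu hgA
  have hfs : ∀ {A : Place κ K → ℕ}, (Function.support A).Finite →
      (Function.support fun w : Place κ L => ramIdx K w.1 * A (below K w)).Finite := by
    intro A hA
    refine (mason_sum_over (L := L) hL hA).1.subset ?_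
    intro w hw
    rw [Function.mem_support] at hw ⊢
    exact_mod_cast hw
  have hfs2 : (Function.support fun w : Place κ L => ramIdx K w.1 - 1).Finite := by
    refine (mason_sum_ram (K := K) hL).1.subset ?_
    intro w hw
    rw [Function.mem_support] at hw ⊢
    exact_mod_cast hw
  have hz0 : (fun l => x (ι l)) ≠ 0 := by
    intro h0
    have h1 := congrFun h0 j₀
    simp only [hx] at h1
    exact one_ne_zero h1
  -- the counting function
  obtain ⟨Q, hQ⟩ : ∃ Q : Set (Place κ L), Q = {w : Place κ L | ∃ b : B',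
      w.1 (aeval (fun l => x (ι l)) (H (ν (Sum.inr b)))) ≠
        vmax w.1 (fun l => x (ι l)) ^ d (ν (Sum.inr b))} := ⟨_, rfl⟩
  have hQf : Q.Finite := by
    have h1 : Q = ⋃ b : B', {w : Place κ L |
        w.1 (aeval (fun l => x (ι l)) (H (ν (Sum.inr b)))) ≠
          vmax w.1 (fun l => x (ι l)) ^ d (ν (Sum.inr b))} := by
      rw [hQ]
      ext w
      simp
    rw [h1]
    exact Set.finite_iUnion fun b => finite_ne_vmax hL hz0 (hu b) _
  rw [← hQ]
  obtain ⟨N, hN⟩ : ∃ N : Place κ L → ℕ, N = fun w => Q.indicator (fun _ => 1) w +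
    ramIdx K w.1 * Θ (below K w) := ⟨_, rfl⟩
  have hNs : (Function.support N).Finite := by
    rw [hN]
    exact ((hQf.subset Set.support_indicator_subset).union (hfs hΘ)).subset
      (Function.support_add _ _)
  have hNu : ∀ (w : Place κ L) (b : B'), w.1 (aeval (fun l => x (ι l)) (H (ν (Sum.inr b)))) ≠
      (vmax w.1 (fun l => x (ι l)) * exp ((ramIdx K w.1 * Θ (below K w) : ℕ) : ℤ)) ^
        d (ν (Sum.inr b)) → 1 ≤ N w := by
    intro w b hw
    rw [hN]
    show 1 ≤ Q.indicator (fun _ => 1) w + ramIdx K w.1 * Θ (below K w)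
    rcases Nat.eq_zero_or_pos (ramIdx K w.1 * Θ (below K w)) with h0 | h0
    · rw [h0, Nat.cast_zero, exp_zero, mul_one] at hw
      rw [Set.indicator_of_mem (by rw [hQ]; exact ⟨b, hw⟩)]
      omega
    · omega
  have hmain := height_ineqU (κ := κ) hL (D := D') (hfs hB) hfs2 (hfs hA) hNs (hfs hΘ)
    (minor_over hK (s := Set.univ) (fun I _ => hPB I) hD')
    (lam := fun a I => map (algebraMap K L) (lam a I)) (fun a I β w => by
      rw [coeff_map, below_pow]
      have h1 := pow_le_pow_left' (hlam a I β (below K w)) (ramIdx K w.1)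
      refine h1.trans (le_of_eq ?_)
      rw [← exp_nsmul, nsmul_eq_mul]
      push_cast
      rfl) hwt hx (z := fun l => x (ι l)) (j₀ := j₀) hx hbound hu hNu hφx hg' hφy hq c jj hc
  have e1 : ∀ {A : Place κ K → ℕ}, (Function.support A).Finite →
      ∑ᶠ w : Place κ L, ((ramIdx K w.1 * A (below K w) : ℕ) : ℤ) =
      Module.finrank K L * ∑ᶠ v, (A v : ℤ) := by
    intro A hA
    rw [← finsum_ramIdx_mul hL (supp_cast hA)]
    simp only [Nat.cast_mul]
  have e2 : ∑ᶠ w : Place κ L, ((Q.indicator (fun _ => (1 : ℕ)) w : ℕ) : ℤ) = (Q.ncard : ℤ) := by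
    have h1 : ∀ w : Place κ L, ((Q.indicator (fun _ => (1 : ℕ)) w : ℕ) : ℤ) =
        Q.indicator (fun _ => (1 : ℤ)) w := by
      intro w
      by_cases hw : w ∈ Q
      · rw [Set.indicator_of_mem hw, Set.indicator_of_mem hw, Nat.cast_one]
      · rw [Set.indicator_of_notMem hw, Set.indicator_of_notMem hw, Nat.cast_zero]
    rw [finsum_congr h1, ← finsum_mem_def, finsum_mem_eq_finite_toFinset_sum _ hQf,
      Finset.sum_const, nsmul_eq_mul, mul_one, Set.ncard_eq_toFinset_card _ hQf]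
  have e3 : ∑ᶠ w : Place κ L, (N w : ℤ) = (Q.ncard : ℤ) +
      Module.finrank K L * ∑ᶠ v, (Θ v : ℤ) := by
    rw [← e1 hΘ, ← e2, ← finsum_add_distrib]
    · refine finsum_congr fun w => ?_
      rw [hN]
      push_cast
      rfl
    · exact supp_cast (hQf.subset Set.support_indicator_subset)
    · exact supp_cast (hfs hΘ)
  rw [e1 hB, e1 hA, e1 hΘ, ← ramDeg_eq hL, e3, Fintype.card_sum] at hmain
  push_cast at hmain ⊢
  linarith

end Pool.Agent.Lib.MP_44a246_ntMU
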