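import Mathlib
import Pool.Agent.Lib.MP_44a246_ntMS.MW06
import Pool.Agent.Lib.MP_44a246_ntMU.MU07

/-!
The height inequality with the truncated counting function, for several forms and points with
weighted coordinates, outside the common zeros of the forms `G`.
-/

namespace Pool.Agent.Lib.MP_44a246_ntMU

open Pool.Agent.Lib.MP_44a246_nt
open Pool.Agent.Lib.MP_44a246_ntL
open Pool.Agent.Lib.MP_44a246_ntX
open Pool.Agent.Lib.MP_44a246_ntMS
open Pool.Agent.Lib.MP_e52354_ntMR
open Pool.Agent.Lib.MP_44a246_ntK (pderiv_comm')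
open Pool.Agent.Lib.MP_44a246_ntR (imI)
open Pool.Agent.Lib.MP_e52354_ntSD (GenK dim_le_of_few)
open WithZero MvPolynomial

universe u v w x

section Choice

variable {k₀ L : Type*} [Field k₀] [Field L] [CharZero L] [Algebra k₀ L] {p q s : ℕ}

/-- The values `t_j`, `j` in `A`, are determined by the equations `f` at the point `y`: for every
`j` some equation, free of the other `t_l` with `l` in `A`, is not identically zero in `t_j`, or the
matrix of the partial derivatives has the largest possible rank. -/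
def Det (f : Fin s → MvPolynomial (Fin p ⊕ Fin q) k₀) (A : Finset (Fin p))
    (y : Fin p ⊕ Fin q → L) : Prop :=
  (∀ j ∈ A, ∃ (i : Fin s) (τ : L), aeval (Function.update y (Sum.inl j) τ) (f i) ≠ 0 ∧
    ∀ l ∈ A, l ≠ j → Sum.inl l ∉ (f i).vars) ∨
  ∃ i : A → Fin s, (Matrix.of fun a a' : A =>
    aeval y (pderiv (Sum.inl a'.1) (f (i a)))).det ≠ 0

theorem pderiv_iterate_zero {σ : Type*} (i j : σ) (b : ℕ) {φ : MvPolynomial σ k₀}
    (h : pderiv i φ = 0) : pderiv i ((fun g => pderiv j g)^[b] φ) = 0 := by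
  induction b generalizing φ with
  | zero => exact h
  | succ b ih =>
    rw [Function.iterate_succ_apply]
    refine ih ?_
    rw [pderiv_comm', h, map_zero]

/-- the choice of the equations -/
theorem Det.exists_g {f : Fin s → MvPolynomial (Fin p ⊕ Fin q) k₀} {A : Finset (Fin p)}
    {y : Fin p ⊕ Fin q → L} (h : Det f A y) (hy : ∀ i, aeval y (f i) = 0) {w : Fin p ⊕ Fin q → ℕ}
    {e : Fin s → ℕ} (hf : ∀ i, (f i).IsWeightedHomogeneous w (e i)) :
    ∃ (g : A → MvPolynomial (Fin p ⊕ Fin q) k₀) (e' : A → ℕ),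
      (∀ a, (g a).IsWeightedHomogeneous w (e' a)) ∧ (∀ a, aeval y (g a) = 0) ∧
      (Matrix.of fun a a' : A => aeval y (pderiv (Sum.inl a'.1) (g a))).det ≠ 0 := by
  classical
  rcases h with h | ⟨i, hi⟩
  · have h1 : ∀ a : A, ∃ (g : MvPolynomial (Fin p ⊕ Fin q) k₀) (e' : ℕ),
        g.IsWeightedHomogeneous w e' ∧ aeval y g = 0 ∧ aeval y (pderiv (Sum.inl a.1) g) ≠ 0 ∧
        ∀ a' : A, a' ≠ a → pderiv (Sum.inl a'.1) g = 0 := by
      intro a
      obtain ⟨i, τ, hτ, hfree⟩ := h a.1 a.2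
      obtain ⟨b, -, hb1, hb2⟩ := exists_deriv (f i) (Sum.inl a.1) y (hy i) hτ
      rw [Function.iterate_succ_apply'] at hb2
      obtain ⟨e', he'⟩ := exists_wh_iterate (w := w) (Sum.inl a.1) b (hf i)
      refine ⟨_, e', he', hb1, hb2, fun a' ha' => ?_⟩
      refine pderiv_iterate_zero _ _ b (pderiv_eq_zero_of_notMem_vars ?_)
      exact hfree a'.1 a'.2 fun h => ha' (Subtype.ext h)
    choose g e' hg hgy hgd hgf using h1
    refine ⟨g, e', hg, hgy, ?_⟩
    have h2 : (Matrix.of fun a a' : A => aeval y (pderiv (Sum.inl a'.1) (g a))) =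
        Matrix.diagonal fun a => aeval y (pderiv (Sum.inl a.1) (g a)) := by
      ext a a'
      by_cases haa : a = a'
      · subst haa
        rw [Matrix.diagonal_apply_eq]
        rfl
      · rw [Matrix.diagonal_apply_ne _ haa]
        show aeval y (pderiv (Sum.inl a'.1) (g a)) = 0
        rw [hgf a a' (Ne.symm haa), map_zero]
    rw [h2, Matrix.det_diagonal]
    exact Finset.prod_ne_zero_iff.2 fun a _ => hgd a
  · exact ⟨fun a => f (i a), fun a => e (i a), fun a => hf _, fun a => hy _, hi⟩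

/-- the condition does not depend on the scaling of the point -/
theorem Det.scale {f : Fin s → MvPolynomial (Fin p ⊕ Fin q) k₀} {A : Finset (Fin p)}
    {y : Fin p ⊕ Fin q → L} (h : Det f A y) {w : Fin p ⊕ Fin q → ℕ}
    {e : Fin s → ℕ} (hf : ∀ i, (f i).IsWeightedHomogeneous w (e i)) {c : L} (hc : c ≠ 0) :
    Det f A (fun i => c ^ w i * y i) := by
  classical
  rcases h with h | ⟨i, hi⟩
  · refine Or.inl fun j hj => ?_
    obtain ⟨i, τ, hτ, hfree⟩ := h j hj
    refine ⟨i, c ^ w (Sum.inl j) * τ, ?_, hfree⟩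
    have h1 : Function.update (fun i => c ^ w i * y i) (Sum.inl j) (c ^ w (Sum.inl j) * τ) =
        fun i => c ^ w i * Function.update y (Sum.inl j) τ i := by
      funext i
      by_cases hi : i = Sum.inl j
      · subst hi
        rw [Function.update_self, Function.update_self]
      · rw [Function.update_of_ne hi, Function.update_of_ne hi]
    rw [h1, aeval_smul_weighted (hf i)]
    exact mul_ne_zero (pow_ne_zero _ hc) hτ
  · refine Or.inr ⟨i, ?_⟩
    -- the matrices differ by invertible diagonal matrices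
    have h1 : ∀ (i : Fin s) (j : Fin p), c ^ w (Sum.inl j) *
        aeval (fun i => c ^ w i * y i) (pderiv (Sum.inl j) (f i)) =
        c ^ e i * aeval y (pderiv (Sum.inl j) (f i)) := by
      intro i j
      by_cases hw : w (Sum.inl j) ≤ e i
      · obtain ⟨e', he'⟩ := Nat.exists_eq_add_of_le' hw
        have h2 := (hf i).pderiv (i := Sum.inl j) he'.symm
        rw [aeval_smul_weighted h2, ← mul_assoc, ← pow_add, he', add_comm]
      · have h0 : pderiv (Sum.inl j) (f i) = 0 := by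
          rw [pderiv_eq_zero_of_notMem_vars]
          intro hi
          obtain ⟨m, hm, hmi⟩ := (mem_vars_iff_mem_support _).1 hi
          have h1 := hf i (mem_support_iff.1 hm)
          have h2 : w (Sum.inl j) ≤ Finsupp.weight w m :=
            Finsupp.le_weight_of_ne_zero' w (Finsupp.mem_support_iff.1 hmi)
          omega
        rw [h0, map_zero, map_zero, mul_zero, mul_zero]
    have h2 : (∏ a' : A, c ^ w (Sum.inl a'.1)) * (Matrix.of fun a a' : A =>
        aeval (fun i => c ^ w i * y i) (pderiv (Sum.inl a'.1) (f (i a)))).det =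
        (∏ a : A, c ^ e (i a)) * (Matrix.of fun a a' : A =>
          aeval y (pderiv (Sum.inl a'.1) (f (i a)))).det := by
      rw [← Matrix.det_mul_row, ← Matrix.det_mul_column]
      congr 1
      ext a a'
      exact h1 (i a) a'.1
    intro h0
    rw [h0, mul_zero] at h2
    refine mul_ne_zero ?_ hi h2.symm
    exact Finset.prod_ne_zero_iff.2 fun a _ => pow_ne_zero _ hc

end Choice

/-- normalisation of a point -/
theorem normalise_pointU {k₀ K L : Type*} [Field k₀] [Field K] [Field L] [CharZero L]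
    [Algebra k₀ L] [Algebra K L] {n q p s t E : ℕ} {d : Fin p → ℕ} {wt : Fin q → ℕ}
    {e : Fin s → ℕ} {A : Finset (Fin p)} {f : Fin s → MvPolynomial (Fin p ⊕ Fin q) k₀}
    (hf : ∀ i, (f i).IsWeightedHomogeneous (Sum.elim d wt) (e i))
    {H : Fin p → MvPolynomial (Fin n) K} (hH : ∀ j, (H j).IsHomogeneous (d j))
    {G : Fin t → MvPolynomial (Fin n) K} (hG : ∀ l, (G l).IsHomogeneous E)
    {ι : Fin n → Fin q} (hwι : ∀ l, wt (ι l) = 1)
    {v : Fin q → L} (hv : (fun l => v (ι l)) ≠ 0)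
    (hvf : ∀ i, aeval (Sum.elim (fun j => aeval (fun l => v (ι l)) (H j)) v :
      Fin p ⊕ Fin q → L) (f i) = 0)
    (hdet : Det f A (Sum.elim (fun j => aeval (fun l => v (ι l)) (H j)) v)) :
    ∃ (c : L) (j₀ : Fin n) (x : Fin q → L), c ≠ 0 ∧
      (x = fun j => c ^ wt j * v j) ∧ x (ι j₀) = 1 ∧
      (∀ i', aeval (Sum.elim (fun j => aeval (fun l => x (ι l)) (H j)) x : Fin p ⊕ Fin q → L)
        (f i') = 0) ∧
      Det f A (Sum.elim (fun j => aeval (fun l => x (ι l)) (H j)) x) ∧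
      (∀ j, aeval (fun l => x (ι l)) (H j) = c ^ d j * aeval (fun l => v (ι l)) (H j)) ∧
      ∀ l, aeval (fun l => x (ι l)) (G l) = c ^ E * aeval (fun l => v (ι l)) (G l) := by
  classical
  obtain ⟨j₀, hj₀⟩ : ∃ j₀, v (ι j₀) ≠ 0 := by
    by_contra hcon
    push Not at hcon
    exact hv (funext hcon)
  obtain ⟨c, hc⟩ : ∃ c, c = (v (ι j₀))⁻¹ := ⟨_, rfl⟩
  have hc0 : c ≠ 0 := by rw [hc]; exact inv_ne_zero hj₀
  obtain ⟨x, hx⟩ : ∃ x : Fin q → L, x = fun i => c ^ wt i * v i := ⟨_, rfl⟩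
  have hxι : (fun l => x (ι l)) = fun l => c * v (ι l) := by
    funext l
    rw [hx]
    show c ^ wt (ι l) * v (ι l) = c * v (ι l)
    rw [hwι, pow_one]
  have hhom : ∀ {Q : MvPolynomial (Fin n) K} {E : ℕ}, Q.IsHomogeneous E →
      aeval (fun l => x (ι l)) Q = c ^ E * aeval (fun l => v (ι l)) Q := by
    intro Q E hQ
    have h1 := aeval_smul_weighted (k₀ := K) (k := L) (w := 1) (n := E) hQ c fun l => v (ι l)
    simp only [Pi.one_apply, pow_one] at h1
    rw [hxι]
    exact h1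
  have hHx : ∀ j, aeval (fun l => x (ι l)) (H j) = c ^ d j * aeval (fun l => v (ι l)) (H j) :=
    fun j => hhom (hH j)
  have hpt : (Sum.elim (fun j => aeval (fun l => x (ι l)) (H j)) x : Fin p ⊕ Fin q → L) =
      fun i => c ^ (Sum.elim d wt : Fin p ⊕ Fin q → ℕ) i *
        (Sum.elim (fun j => aeval (fun l => v (ι l)) (H j)) v : Fin p ⊕ Fin q → L) i := by
    funext i
    rcases i with j | j
    · exact hHx j
    · show x j = c ^ wt j * v j
      rw [hx]
  have hxj : x (ι j₀) = 1 := by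
    rw [hx, hc]
    show ((v (ι j₀))⁻¹) ^ wt (ι j₀) * v (ι j₀) = 1
    rw [hwι, pow_one]
    exact inv_mul_cancel₀ hj₀
  refine ⟨c, j₀, x, hc0, hx, hxj, fun i => ?_, ?_, hHx, fun l => hhom (hG l)⟩
  · rw [hpt, aeval_smul_weighted (hf i), hvf, mul_zero]
  · rw [hpt]
    exact hdet.scale hf hc0

/-- **The theorem for a field of definition of finite transcendence degree.** -/
theorem several_forms_core {κ : Type u} {K : Type v} [Field κ] [IsAlgClosed κ] [CharZero κ]
    [Field K] [CharZero K] [Algebra κ K] (hK : IsFF κ K) {k₀ : Type x} [Field k₀] [CharZero k₀]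
    [Algebra k₀ K] (htk : Algebra.trdeg ℚ k₀ < Cardinal.aleph0) {N n q p c m s ω : ℕ}
    {d : Fin p → ℕ} {wt : Fin q → ℕ} (hwt : ∀ i, 1 ≤ wt i) (hω : ∀ i, wt i ≤ ω)
    {e : Fin s → ℕ} {A B : Finset (Fin p)} (hAB : Disjoint A B) {J a : Fin p → ℕ}
    (hJ : ∀ j ∈ A ∪ B, d j = J j + a j) (hc : ∀ j ∈ A ∪ B, c < (m + a j).choose m)
    {ι : Fin (N + 1) → Fin q} (hwι : ∀ l, wt (ι l) = 1)
    (f : Fin s → MvPolynomial (Fin p ⊕ Fin q) k₀)
    (hf : ∀ i, (f i).IsWeightedHomogeneous (Sum.elim d wt) (e i))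
    (hdim : ringKrullDim (MvPolynomial (Fin q) k₀ ⧸ imI f) ≤ ((n + 1 : ℕ) : ℕ))
    (H : Fin p → MvPolynomial (Fin (N + 1)) K) (hH : ∀ j, (H j).IsHomogeneous (d j))
    (hgen : GenK k₀ d H c)
    (hX : ∀ y : Fin q → AlgebraicClosure K, (∀ l, y (ι l) = 0) →
      (∀ i, aeval (Sum.elim (fun j => aeval (fun l => y (ι l)) (H j)) y :
        Fin p ⊕ Fin q → AlgebraicClosure K) (f i) = 0) → y = 0) :
    ∃ (t : ℕ) (G : Fin t → MvPolynomial (Fin (N + 1)) K),
      (∀ i, (G i).IsHomogeneous (∑ j ∈ A ∪ B, a j)) ∧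
      ringKrullDim (MvPolynomial (Fin (N + 1)) K ⧸ Ideal.span (Set.range G)) ≤
        (m : WithBot ℕ∞) ∧
      ∃ C : ℕ, ∀ (L : Type w) [Field L] [Algebra K L] [FiniteDimensional K L] [Algebra κ L]
        [IsScalarTower κ K L] [Algebra k₀ L] [IsScalarTower k₀ K L] (x : Fin q → L),
        (fun l => x (ι l)) ≠ 0 →
        (∀ i, aeval (Sum.elim (fun j => aeval (fun l => x (ι l)) (H j)) x : Fin p ⊕ Fin q → L)
          (f i) = 0) →
        Det f A (Sum.elim (fun j => aeval (fun l => x (ι l)) (H j)) x) →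
        (∀ j ∈ B, aeval (fun l => x (ι l)) (H j) ≠ 0) →
        (∃ l, aeval (fun l => x (ι l)) (G l) ≠ 0) →
        (((∑ j ∈ A ∪ B, J j : ℕ) : ℤ) + A.card - 2 * n - 1 - (∑ i, (wt i - 1) : ℕ)) *
            height κ (fun l => x (ι l)) ≤
          ramDeg κ L K + ({w : Place κ L | ∃ j ∈ B,
            w.1 (aeval (fun l => x (ι l)) (H j)) ≠
              vmax w.1 (fun l => x (ι l)) ^ d j}.ncard : ℤ) + C * Module.finrank K L ∧
        ∃ (c : L) (j₀ : Fin (N + 1)), c * x (ι j₀) = 1 ∧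
          height κ (fun i => c ^ wt i * x i) ≤
            ω * (height κ (fun l => x (ι l)) + C * Module.finrank K L) := by
  classical
  by_cases hm : N + 1 ≤ m
  · refine ⟨0, Fin.elim0, fun i => i.elim0, ?_, 0, ?_⟩
    · refine dim_le_of_few fun σ => ?_
      obtain ⟨i, j, hij, hσ⟩ := Fintype.exists_ne_map_eq_of_card_lt σ (by
        rw [Fintype.card_fin, Fintype.card_fin]
        omega)
      refine ⟨X i - X j, ?_, ?_⟩
      · rw [sub_ne_zero]
        exact fun h => hij (X_injective h)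
      · rw [map_sub, rename_X, rename_X, hσ, sub_self]
        exact Ideal.zero_mem _
    · rintro L _ _ _ _ _ _ _ x - - - - ⟨l, -⟩
      exact l.elim0
  -- the index type of the relations
  obtain ⟨ν, hνdef⟩ : ∃ ν : A ⊕ B → Fin p, ν = Sum.elim (fun j => j.1) (fun j => j.1) := ⟨_, rfl⟩
  have hνl : ∀ j : A, ν (Sum.inl j) = j.1 := fun j => by rw [hνdef]; rfl
  have hνr : ∀ j : B, ν (Sum.inr j) = j.1 := fun j => by rw [hνdef]; rfl
  have hν : Function.Injective ν := by
    intro γ γ' h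
    rcases γ with γ | γ <;> rcases γ' with γ' | γ'
    · rw [hνl, hνl] at h
      rw [Subtype.ext h]
    · rw [hνl, hνr] at h
      exact absurd (h ▸ γ'.2) (Finset.disjoint_left.1 hAB γ.2)
    · rw [hνl, hνr] at h
      exact absurd (h ▸ γ.2) (Finset.disjoint_left.1 hAB γ'.2)
    · rw [hνr, hνr] at h
      rw [Subtype.ext h]
  have hνm : ∀ γ, ν γ ∈ A ∪ B := by
    intro γ
    rcases γ with γ | γ
    · rw [hνl]
      exact Finset.mem_union_left _ γ.2
    · rw [hνr]
      exact Finset.mem_union_right _ γ.2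
  have hsumν : ∀ b : Fin p → ℕ, ∑ γ, b (ν γ) = ∑ j ∈ A ∪ B, b j := by
    intro b
    rw [Finset.sum_union hAB, Fintype.sum_sum_type]
    simp only [hνl, hνr]
    rw [Finset.sum_coe_sort A b, Finset.sum_coe_sort B b]
  -- the field of the coefficients
  have hE : Finite {I : Fin p × (Fin (N + 1) →₀ ℕ) // I.2.degree = d I.1} := finite_idx d
  obtain ⟨z, hz⟩ : ∃ z : {I : Fin p × (Fin (N + 1) →₀ ℕ) // I.2.degree = d I.1} → K,
    z = fun I => (H I.1.1).coeff I.1.2 := ⟨_, rfl⟩
  obtain ⟨F, hF⟩ : ∃ F : IntermediateField k₀ K, F = IntermediateField.adjoin k₀ (Set.range z) :=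
    ⟨_, rfl⟩
  unfold GenK at hgen
  rw [← hz, ← hF] at hgen
  obtain ⟨zF, hzF⟩ : ∃ zF : {I : Fin p × (Fin (N + 1) →₀ ℕ) // I.2.degree = d I.1} → F,
      ∀ I, (zF I : K) = z I := ⟨fun I => ⟨z I, by
        rw [hF]
        exact IntermediateField.subset_adjoin k₀ _ ⟨I, rfl⟩⟩, fun _ => rfl⟩
  obtain ⟨T, hTc, hind, -⟩ := exists_trbasis zF (adjoin_range_top z hF zF hzF) hgen
  have hindK : AlgebraicIndependent k₀ (fun I : T => z I) := by
    have h1 := hind.map' (f := F.val) F.val.injective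
    have h2 : (F.val ∘ fun I : T => zF I) = fun I : T => z I := funext fun I => hzF I
    rw [h2] at h1
    exact h1
  obtain ⟨DK, D₀, hD₀, hPB, hD, hDk⟩ := exists_ders hK htk hindK
  have hex := fun (σ : Fin (m + 1) → Fin (N + 1)) (γ : A ⊕ B) =>
    exists_relation (R := K) (hJ _ (hνm γ)) (hc _ (hνm γ)) σ T hTc (fun I I' => DK I (z I')) hD
  choose g hg0 hgh hgr using hex
  have hα := fun (σ : Fin (m + 1) → Fin (N + 1)) (γ : A ⊕ B) => exists_coA_ne (hg0 σ γ)
  choose α hα using hα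
  have hlinh : ∀ (σ : Fin (m + 1) → Fin (N + 1)) (γ : A ⊕ B),
      (lin K (N + 1) ^ J (ν γ) * rename σ (g σ γ)).IsHomogeneous (J (ν γ) + a (ν γ)) := by
    intro σ γ
    have h1 := ((lin_isHomogeneous (K := K) (N + 1)).pow (J (ν γ))).mul
      ((hgh σ γ).rename_isHomogeneous (f := σ))
    rw [one_mul] at h1
    exact h1
  obtain ⟨lam, hlam⟩ : ∃ lam : (Fin (m + 1) → Fin (N + 1)) → A ⊕ B → T →
      MvPolynomial (Fin (N + 1)) K,
    lam = fun σ γ I => if I.1.1.1 = ν γ then
      coeff I.1.1.2 (lin K (N + 1) ^ J (ν γ) * rename σ (g σ γ)) else 0 := ⟨_, rfl⟩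
  have hrel : ∀ (σ : Fin (m + 1) → Fin (N + 1)) (γ : A ⊕ B) (j : Fin p)
      (m' : Fin (N + 1) →₀ ℕ), ∑ I : T, lam σ γ I * C (DK I (coeff m' (H j))) =
      if j = ν γ then coeff m' (lin K (N + 1) ^ J (ν γ) * rename σ (g σ γ)) else 0 := by
    intro σ γ j m'
    rw [hlam]
    by_cases h : m'.degree = d j
    · have h1 := hgr σ γ ⟨(j, m'), h⟩
      rw [hz] at h1
      exact h1
    · rw [(hH j).coeff_eq_zero h]
      simp only [map_zero, mul_zero, Finset.sum_const_zero]
      split_ifs with hj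
      · rw [(hlinh σ γ).coeff_eq_zero]
        rw [← hJ _ (hνm γ), ← hj]
        exact h
      · rfl
  obtain ⟨A₁, hA₁, hA₁b⟩ := exists_poly_bound hK
    (fun t : ((Fin (m + 1) → Fin (N + 1)) × (A ⊕ B)) × T => lam t.1.1 t.1.2 t.2)
  -- the integral equations
  have hHx : ∀ (j : Fin p) (y : Fin q → AlgebraicClosure K), aeval y (rename ι (H j)) =
      aeval (fun l => y (ι l)) (H j) := by
    intro j y
    rw [aeval_rename]
    rfl
  have hPw : ∀ t, (aeval (Sum.elim (fun j => rename ι (H j)) X :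
      Fin p ⊕ Fin q → MvPolynomial (Fin q) K) (f t)).IsWeightedHomogeneous wt (e t) := by
    intro t
    refine wh_aeval (hf t) fun i => ?_
    rcases i with j | i
    · exact rename_wh hwι (hH j)
    · exact isWeightedHomogeneous_X K wt i
  have hint := exists_integral_data (F := K) hwt (S := Finset.univ.image ι) (by
      intro l hl
      obtain ⟨l', -, rfl⟩ := Finset.mem_image.1 hl
      exact hwι l') hPw (fun y hyl hyP => by
        refine hX y (fun l => hyl _ (Finset.mem_image_of_mem _ (Finset.mem_univ l))) fun i => ?_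
        rw [← hyP i]
        have h1 := aeval_subH (k₀ := k₀) (L := K) (M := AlgebraicClosure K)
          (fun j => rename ι (H j)) (f i) y
        have h2 : (fun j => aeval y (rename ι (H j))) = fun j => aeval (fun l => y (ι l)) (H j) :=
          funext fun j => hHx j y
        rw [h2] at h1
        exact h1.symm)
  choose b R cc hb hcw hint using hint
  obtain ⟨Θ, hΘ, hΘb⟩ := exists_poly_bound hK (fun il : Fin q × Fin q => cc il.1 il.2)
  -- the forms `G`
  let eq := Fintype.equivFin (Fin (m + 1) → Fin (N + 1))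
  obtain ⟨G, hG⟩ : ∃ G : Fin (Fintype.card (Fin (m + 1) → Fin (N + 1))) →
      MvPolynomial (Fin (N + 1)) K,
      G = fun i => ∏ γ, coA (α (eq.symm i) γ) (rename (eq.symm i) (g (eq.symm i) γ)) := ⟨_, rfl⟩
  have hGh : ∀ i, (G i).IsHomogeneous (∑ j ∈ A ∪ B, a j) := by
    intro i
    rw [hG, ← hsumν]
    exact IsHomogeneous.prod _ _ _ fun γ _ => coA_isHomogeneous _ (hgh _ γ).rename_isHomogeneous
  obtain ⟨S₀, hS₀⟩ : ∃ S₀ : ℤ, S₀ = ∑ᶠ v, (D₀ v : ℤ) + ∑ᶠ v, (A₁ v : ℤ) := ⟨_, rfl⟩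
  obtain ⟨S₁, hS₁⟩ : ∃ S₁ : ℤ, S₁ = ∑ᶠ v, (Θ v : ℤ) := ⟨_, rfl⟩
  have hS₁0 : 0 ≤ S₁ := by
    rw [hS₁]
    exact finsum_nonneg fun w => Int.natCast_nonneg _
  have hS₀0 : 0 ≤ S₀ := by
    rw [hS₀]
    exact add_nonneg (finsum_nonneg fun w => Int.natCast_nonneg _)
      (finsum_nonneg fun w => Int.natCast_nonneg _)
  refine ⟨_, G, hGh, ?_, (n + B.card) * S₀.toNat + (n + 2 + ∑ i, (wt i - 1)) * S₁.toNat, ?_⟩
  · refine dim_le_of_few fun σ => ⟨∏ γ, coA (α σ γ) (g σ γ),
      Finset.prod_ne_zero_iff.2 fun γ _ => hα σ γ, ?_⟩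
    refine Ideal.subset_span ⟨eq σ, ?_⟩
    rw [hG]
    simp only [Equiv.symm_apply_apply]
    rw [map_prod]
    exact Finset.prod_congr rfl fun γ _ => coA_rename _ _ _
  · intro L _ _ _ _ _ _ _ v hv hvf hdet hvB ⟨l, hl⟩
    have hLc : CharZero L := charZero_of_injective_algebraMap (algebraMap K L).injective
    have hL : IsFF κ L := hK.of_finite
    obtain ⟨c', j₀, x, hc0, hx, hx1, hxf, hxdet, hxH, hxG⟩ :=
      normalise_pointU hf hH hGh hwι hv hvf hdet
    obtain ⟨gg, e', hgg, hggz, hggd⟩ := hxdet.exists_g hxf hf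
    have hxGl : aeval (fun l => x (ι l)) (G l) ≠ 0 := by
      rw [hxG]
      exact mul_ne_zero (pow_ne_zero _ hc0) hl
    have hxGγ : ∀ γ, aeval (fun l => x (ι l))
        (coA (α (eq.symm l) γ) (rename (eq.symm l) (g (eq.symm l) γ))) ≠ 0 := by
      intro γ h0
      apply hxGl
      rw [hG]
      simp only [map_prod]
      exact Finset.prod_eq_zero (Finset.mem_univ γ) h0
    have hxι : (fun l => x (ι l)) = fun l => c' * v (ι l) := by
      funext l
      rw [hx]
      show c' ^ wt (ι l) * v (ι l) = c' * v (ι l)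
      rw [hwι, pow_one]
    obtain ⟨hbd, hmain⟩ := height_overU (κ := κ) (L := L) (A' := A) (B' := B) hK hD₀ hA₁ hΘ hPB
      hDk hwt hwι hf hdim hH hν (J := fun γ => J (ν γ)) (lam := lam (eq.symm l))
      (fun γ I β v => hA₁b ((eq.symm l, γ), I) β v)
      (g₀ := fun γ => rename (eq.symm l) (g (eq.symm l) γ))
      (hrel (eq.symm l)) hb hcw (fun i l α v => hΘb (i, l) α v) hint hgg
      (α := α (eq.symm l)) hx1 hxf hggz (by
        simp only [hνl]
        exact hggd) (fun b => by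
        rw [hνr, hxH]
        exact mul_ne_zero (pow_ne_zero _ hc0) (hvB b.1 b.2)) hxGγ
    have h1 : height κ (fun l => x (ι l)) = height κ fun l => v (ι l) := by
      rw [hxι]
      exact hL.height_smul hc0
    have hset : {w : Place κ L | ∃ b : B, w.1 (aeval (fun l => x (ι l)) (H (ν (Sum.inr b)))) ≠
        vmax w.1 (fun l => x (ι l)) ^ d (ν (Sum.inr b))} =
        {w : Place κ L | ∃ j ∈ B, w.1 (aeval (fun l => v (ι l)) (H j)) ≠
          vmax w.1 (fun l => v (ι l)) ^ d j} := by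
      ext w
      have hcw0 : w.1 c' ≠ 0 := (Valuation.ne_zero_iff _).2 hc0
      have hvm : vmax w.1 (fun l => x (ι l)) = w.1 c' * vmax w.1 (fun l => v (ι l)) := by
        rw [hxι]
        exact vmax_smul _ _ _
      have h2 : ∀ j, w.1 (aeval (fun l => x (ι l)) (H j)) =
          vmax w.1 (fun l => x (ι l)) ^ d j ↔ w.1 (aeval (fun l => v (ι l)) (H j)) =
          vmax w.1 (fun l => v (ι l)) ^ d j := by
        intro j
        rw [hxH, map_mul, map_pow, hvm, mul_pow]
        exact mul_right_inj' (pow_ne_zero _ hcw0)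
      constructor
      · rintro ⟨j, hj⟩
        rw [hνr] at hj
        exact ⟨j.1, j.2, fun h => hj ((h2 _).2 h)⟩
      · rintro ⟨j, hj, hj'⟩
        refine ⟨⟨j, hj⟩, ?_⟩
        rw [hνr]
        exact fun h => hj' ((h2 _).1 h)
    have hfr := Int.natCast_nonneg (Module.finrank K L)
    have e0 : (S₀.toNat : ℤ) = S₀ := Int.toNat_of_nonneg hS₀0
    have e1 : (S₁.toNat : ℤ) = S₁ := Int.toNat_of_nonneg hS₁0
    refine ⟨?_, c', j₀, ?_, ?_⟩
    · rw [h1, hset, hsumν J, Fintype.card_coe, Fintype.card_coe, ← hS₀, ← hS₁] at hmain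
      refine hmain.trans (le_of_eq ?_)
      push_cast
      rw [e0, e1]
      ring
    · rw [← hx1]
      exact (congrFun hxι j₀).symm
    · rw [← hx, ← h1]
      have hθs : (Function.support fun w : Place κ L => ramIdx K w.1 * Θ (below K w)).Finite := by
        refine (mason_sum_over (L := L) hL hΘ).1.subset ?_
        intro w hw
        rw [Function.mem_support] at hw ⊢
        exact_mod_cast hw
      have h6 := height_le_affine hL hω hx1 hθs hbd
      refine h6.trans ?_
      have h7 : ∑ᶠ w : Place κ L, ((ramIdx K w.1 * Θ (below K w) : ℕ) : ℤ) =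
          Module.finrank K L * S₁ := by
        rw [hS₁, ← finsum_ramIdx_mul hL (supp_cast hΘ)]
        simp only [Nat.cast_mul]
      rw [h7]
      refine mul_le_mul_of_nonneg_left ?_ (Int.natCast_nonneg ω)
      push_cast
      rw [e0, e1]
      have h8 : (0 : ℤ) ≤ (n + B.card) * S₀ * Module.finrank K L := by positivity
      have h9 : (0 : ℤ) ≤ (n + 1 + ∑ i, ((wt i - 1 : ℕ) : ℤ)) * S₁ * Module.finrank K L := by
        positivity
      have h10 : ((n : ℤ) + B.card) * S₀ * Module.finrank K L +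
          (n + 2 + ∑ i, ((wt i - 1 : ℕ) : ℤ)) * S₁ * Module.finrank K L =
          (n + B.card) * S₀ * Module.finrank K L +
          (n + 1 + ∑ i, ((wt i - 1 : ℕ) : ℤ)) * S₁ * Module.finrank K L +
            Module.finrank K L * S₁ := by ring
      linarith

end Pool.Agent.Lib.MP_44a246_ntMU
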