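import Mathlib
import Pool.Agent.Lib.MP_44a246_ntMS.MS06
import Pool.Agent.Lib.MP_44a246_ntMU.MU08

/-!
The height inequality for several forms, with the truncated counting function and points with
weighted coordinates, for all fields of definition.
-/

namespace Pool.Agent.Lib.MP_44a246_ntMU

open Pool.Agent.Lib.MP_44a246_nt
open Pool.Agent.Lib.MP_44a246_ntL
open Pool.Agent.Lib.MP_44a246_ntTV
open Pool.Agent.Lib.MP_44a246_ntMS
open Pool.Agent.Lib.MP_e52354_ntMR
open Pool.Agent.Lib.MP_44a246_ntR (imI)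
open Pool.Agent.Lib.MP_e52354_ntSD (GenK)
open WithZero MvPolynomial

universe u v w x

/-- the condition on a point does not depend on the field of definition -/
theorem Det.of_map {k₀ k L : Type*} [Field k₀] [Field k] [Field L] [Algebra k₀ k] [Algebra k L]
    [Algebra k₀ L] [IsScalarTower k₀ k L] {p q s : ℕ}
    {f : Fin s → MvPolynomial (Fin p ⊕ Fin q) k₀} {A : Finset (Fin p)} {y : Fin p ⊕ Fin q → L}
    (h : Det (fun i => map (algebraMap k₀ k) (f i)) A y) : Det f A y := by
  rcases h with h | ⟨i, hi⟩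
  · refine Or.inl fun j hj => ?_
    obtain ⟨i, τ, hτ, hfree⟩ := h j hj
    refine ⟨i, τ, ?_, fun l hl hlj => ?_⟩
    · rw [aeval_map_algebraMap] at hτ
      exact hτ
    · have h1 := hfree l hl hlj
      rw [vars_map_of_injective (f i) (algebraMap k₀ k).injective] at h1
      exact h1
  · refine Or.inr ⟨i, ?_⟩
    have h1 : (Matrix.of fun a a' : A => aeval y (pderiv (Sum.inl a'.1)
        (map (algebraMap k₀ k) (f (i a))))) =
        Matrix.of fun a a' : A => aeval y (pderiv (Sum.inl a'.1) (f (i a))) := by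
      ext a a'
      show aeval y (pderiv (Sum.inl a'.1) (map (algebraMap k₀ k) (f (i a)))) =
        aeval y (pderiv (Sum.inl a'.1) (f (i a)))
      rw [pderiv_map, aeval_map_algebraMap]
    rw [h1] at hi
    exact hi

/-- **The height inequality for several forms.** -/
theorem several_forms {κ : Type u} {K : Type v} [Field κ] [IsAlgClosed κ] [CharZero κ]
    [Field K] [CharZero K] [Algebra κ K] (hK : IsFF κ K) {k : Type x} [Field k] [CharZero k]
    [Algebra k K] {N n q p c m s ω : ℕ}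
    {d : Fin p → ℕ} {wt : Fin q → ℕ} (hwt : ∀ i, 1 ≤ wt i) (hω : ∀ i, wt i ≤ ω)
    {e : Fin s → ℕ} {A B : Finset (Fin p)} (hAB : Disjoint A B) {J a : Fin p → ℕ}
    (hJ : ∀ j ∈ A ∪ B, d j = J j + a j) (hc : ∀ j ∈ A ∪ B, c < (m + a j).choose m)
    {ι : Fin (N + 1) → Fin q} (hwι : ∀ l, wt (ι l) = 1)
    (f : Fin s → MvPolynomial (Fin p ⊕ Fin q) k)
    (hf : ∀ i, (f i).IsWeightedHomogeneous (Sum.elim d wt) (e i))
    (hdim : ringKrullDim (MvPolynomial (Fin q) k ⧸ (Ideal.span (Set.range f)).comap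
      (rename (Sum.inr : Fin q → Fin p ⊕ Fin q))) ≤ ((n + 1 : ℕ) : WithBot ℕ∞))
    (H : Fin p → MvPolynomial (Fin (N + 1)) K) (hH : ∀ j, (H j).IsHomogeneous (d j))
    (hgen : GenK k d H c)
    (hX : ∀ y : Fin q → AlgebraicClosure K, (∀ l, y (ι l) = 0) →
      (∀ i, aeval (Sum.elim (fun j => aeval (fun l => y (ι l)) (H j)) y :
        Fin p ⊕ Fin q → AlgebraicClosure K) (f i) = 0) → y = 0) :
    ∃ (t : ℕ) (G : Fin t → MvPolynomial (Fin (N + 1)) K),
      (∀ i, (G i).IsHomogeneous (∑ j ∈ A ∪ B, a j)) ∧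
      ringKrullDim (MvPolynomial (Fin (N + 1)) K ⧸ Ideal.span (Set.range G)) ≤
        (m : WithBot ℕ∞) ∧
      ∃ C : ℕ, ∀ (L : Type w) [Field L] [Algebra K L] [FiniteDimensional K L] [Algebra κ L]
        [IsScalarTower κ K L] [Algebra k L] [IsScalarTower k K L] (x : Fin q → L),
        (fun l => x (ι l)) ≠ 0 →
        (∀ i, aeval (Sum.elim (fun j => aeval (fun l => x (ι l)) (H j)) x : Fin p ⊕ Fin q → L)
          (f i) = 0) →
        Det f A (Sum.elim (fun j => aeval (fun l => x (ι l)) (H j)) x) →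
        (∀ j ∈ B, aeval (fun l => x (ι l)) (H j) ≠ 0) →
        (∃ l, aeval (fun l => x (ι l)) (G l) ≠ 0) →
        (((∑ j ∈ A ∪ B, J j : ℕ) : ℤ) + A.card - 2 * n - 1 - (∑ i, (wt i - 1) : ℕ)) *
            height κ (fun l => x (ι l)) ≤
          ramDeg κ L K + ({w : Place κ L | ∃ j ∈ B,
            w.1 (aeval (fun l => x (ι l)) (H j)) ≠
              vmax w.1 (fun l => x (ι l)) ^ d j}.ncard : ℤ) + C * Module.finrank K L ∧
        ∃ (c : L) (j₀ : Fin (N + 1)), c * x (ι j₀) = 1 ∧
          height κ (fun i => c ^ wt i * x i) ≤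
            ω * (height κ (fun l => x (ι l)) + C * Module.finrank K L) := by
  obtain ⟨k₀, _, _, _, htk, f₀, hf₀⟩ := exists_base_fld f
  let _ : Algebra k₀ K := ((algebraMap k K).comp (algebraMap k₀ k)).toAlgebra
  have s0 : IsScalarTower k₀ k K := IsScalarTower.of_algebraMap_eq fun _ => rfl
  obtain rfl : (fun i => map (algebraMap k₀ k) (f₀ i)) = f := funext hf₀
  have hf' : ∀ i, (f₀ i).IsWeightedHomogeneous (Sum.elim d wt) (e i) := by
    intro i m hm
    refine hf i ?_
    rw [coeff_map]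
    exact fun h0 => hm ((map_eq_zero _).1 h0)
  have hdim' := (imDim_le (k₀ := k₀) (k := k)
    (e := (Sum.inr : Fin q → Fin p ⊕ Fin q)) Sum.inr_injective f₀).trans hdim
  have hfin : Finite {I : Fin p × (Fin (N + 1) →₀ ℕ) // I.2.degree = d I.1} := finite_idx d
  have hgen' : GenK k₀ d H c := by
    unfold GenK at hgen ⊢
    refine hgen.trans ?_
    gcongr
    exact trdeg_adjoin_le (k₀ := k₀) (k := k) _
  have hX' : ∀ y : Fin q → AlgebraicClosure K, (∀ l, y (ι l) = 0) →
      (∀ i, aeval (Sum.elim (fun j => aeval (fun l => y (ι l)) (H j)) y :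
        Fin p ⊕ Fin q → AlgebraicClosure K) (f₀ i) = 0) → y = 0 := by
    intro y hy hyf
    refine hX y hy fun i => ?_
    have s3 : IsScalarTower k₀ k (AlgebraicClosure K) := IsScalarTower.of_algebraMap_eq fun c => by
      rw [IsScalarTower.algebraMap_apply k₀ K (AlgebraicClosure K),
        IsScalarTower.algebraMap_apply k K (AlgebraicClosure K),
        IsScalarTower.algebraMap_apply k₀ k K]
    rw [aeval_map_algebraMap]
    exact hyf i
  obtain ⟨t, G, hG, hGd, C', hC'⟩ := several_forms_core.{u, v, w, x} hK htk hwt hω hAB hJ hc hwι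
    f₀ hf' hdim' H hH hgen' hX'
  refine ⟨t, G, hG, hGd, C', ?_⟩
  intro L _ _ _ _ _ _ _ x hx hxf hdet hxB hxG
  let _ : Algebra k₀ L := ((algebraMap k L).comp (algebraMap k₀ k)).toAlgebra
  have s1 : IsScalarTower k₀ k L := IsScalarTower.of_algebraMap_eq fun _ => rfl
  have s2 : IsScalarTower k₀ K L := IsScalarTower.of_algebraMap_eq fun c => by
    rw [IsScalarTower.algebraMap_apply k₀ k L, IsScalarTower.algebraMap_apply k K L,
      IsScalarTower.algebraMap_apply k₀ k K]
  refine hC' L x hx (fun i => ?_) hdet.of_map hxB hxG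
  rw [← hxf i, aeval_map_algebraMap]

end Pool.Agent.Lib.MP_44a246_ntMU
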