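import Mathlib
import Pool.Agent.Lib.MP_44a246_ntP.P07
import Pool.Agent.Lib.MP_44a246_ntL.LPoly
import Pool.Agent.Lib.MP_44a246_ntML.ML05

/-!
The places where the value of a form is not of the maximal size, and the truncated counting
function.
-/

namespace Pool.Agent.Lib.MP_44a246_ntMU

open Pool.Agent.Lib.MP_44a246_nt
open Pool.Agent.Lib.MP_44a246_ntL
open Pool.Agent.Lib.MP_44a246_ntX
open Pool.Agent.Lib.MP_44a246_ntML (finite_ne_vmax)
open Pool.Agent.Lib.MP_44a246_ntP (ncard_over_le)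
open WithZero MvPolynomial

universe u v w

/-- the value of a form with integral coefficients -/
theorem val_le {K L : Type*} [Field K] [Field L] [Algebra K L] (v : Valuation L ℤᵐ⁰) {n d : ℕ}
    {F : MvPolynomial (Fin n) K} (hF : F.IsHomogeneous d)
    (hc : ∀ m, v (algebraMap K L (coeff m F)) ≤ 1) (z : Fin n → L) :
    v (aeval z F) ≤ vmax v z ^ d := by
  rw [aeval_def, eval₂_eq']
  refine Valuation.map_sum_le _ fun m hm => ?_
  have h1 : ∏ i, v (z i) ^ m i ≤ ∏ i, vmax v z ^ m i := by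
    refine Finset.prod_le_prod' fun i _ => pow_le_pow_left' ?_ _
    exact Finset.le_sup (f := fun l => v (z l)) (Finset.mem_univ i)
  have h2 : ∑ i, m i = d := by
    have h3 := hF (mem_support_iff.1 hm)
    rw [Finsupp.weight_apply, Finsupp.sum_fintype _ _ (fun _ => by simp)] at h3
    rw [← h3]
    exact Finset.sum_congr rfl fun i _ => by simp
  rw [map_mul, map_prod]
  calc _ ≤ 1 * ∏ i, vmax v z ^ m i := by
        refine mul_le_mul' (hc m) ?_
        simp only [map_pow]
        exact h1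
    _ = vmax v z ^ d := by rw [one_mul, Finset.prod_pow_eq_pow_sum, h2]

/-- **The truncated counting function** -/
theorem ncard_le_trunc {κ : Type u} {K : Type v} [Field κ] [IsAlgClosed κ] [CharZero κ] [Field K]
    [CharZero K] [Algebra κ K] (hK : IsFF κ K) {n : ℕ} {B' : Type*} [Finite B']
    {F : B' → MvPolynomial (Fin n) K} {d : B' → ℕ} (hF : ∀ b, (F b).IsHomogeneous (d b))
    {S : Set (Place κ K)} (hS : S.Finite) :
    ∃ C : ℕ, ∀ (L : Type w) [Field L] [Algebra K L] [FiniteDimensional K L] [Algebra κ L]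
      [IsScalarTower κ K L] (z : Fin n → L), z ≠ 0 → (∀ b, aeval z (F b) ≠ 0) →
      {w : Place κ L | ∃ b, w.1 (aeval z (F b)) ≠ vmax w.1 z ^ d b}.ncard ≤
        {w : Place κ L | (∀ v ∈ S, ¬ (w.1.comap (algebraMap K L)).IsEquiv v.1) ∧
          ∃ b, w.1 (aeval z (F b)) < vmax w.1 z ^ d b}.ncard + C * Module.finrank K L := by
  classical
  obtain ⟨P, hP⟩ : ∃ P : Set (Place κ K), P = S ∪ ⋃ b, ⋃ m ∈ (F b).support,
    {v : Place κ K | v.1 (coeff m (F b)) ≠ 1} := ⟨_, rfl⟩
  have hPf : P.Finite := by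
    rw [hP]
    refine hS.union (Set.finite_iUnion fun b => ?_)
    exact (F b).support.finite_toSet.biUnion fun m hm => hK.place_finite (mem_support_iff.1 hm)
  refine ⟨P.ncard, fun L _ _ _ _ _ z hz hz0 => ?_⟩
  have hLc : CharZero L := charZero_of_injective_algebraMap (algebraMap K L).injective
  have hL : IsFF κ L := hK.of_finite
  obtain ⟨hover, hcard⟩ := ncard_over_le (K := K) hL hPf
  have hTf : {w : Place κ L | (∀ v ∈ S, ¬ (w.1.comap (algebraMap K L)).IsEquiv v.1) ∧
      ∃ b, w.1 (aeval z (F b)) < vmax w.1 z ^ d b}.Finite := by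
    have h1 : {w : Place κ L | (∀ v ∈ S, ¬ (w.1.comap (algebraMap K L)).IsEquiv v.1) ∧
        ∃ b, w.1 (aeval z (F b)) < vmax w.1 z ^ d b} ⊆
        ⋃ b, {w : Place κ L | w.1 (aeval z (F b)) ≠ vmax w.1 z ^ d b} := by
      rintro w ⟨-, b, hb⟩
      exact Set.mem_iUnion.2 ⟨b, hb.ne⟩
    exact (Set.finite_iUnion fun b => finite_ne_vmax hL hz (hz0 b) _).subset h1
  have hsub : {w : Place κ L | ∃ b, w.1 (aeval z (F b)) ≠ vmax w.1 z ^ d b} ⊆
      {w : Place κ L | (∀ v ∈ S, ¬ (w.1.comap (algebraMap K L)).IsEquiv v.1) ∧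
        ∃ b, w.1 (aeval z (F b)) < vmax w.1 z ^ d b} ∪ {w : Place κ L | below K w ∈ P} := by
    rintro w ⟨b, hb⟩
    by_cases hw : below K w ∈ P
    · exact Or.inr hw
    · left
      refine ⟨fun v hv h => hw ?_, b, lt_of_le_of_ne ?_ hb⟩
      · rw [(below_equiv w v).1 h, hP]
        exact Or.inl hv
      · refine val_le w.1 (hF b) (fun m => ?_) z
        rw [below_pow]
        by_cases hm : coeff m (F b) = 0
        · rw [hm, map_zero]
          exact pow_le_one₀ zero_le zero_le_one
        · have h1 : (below K w).1 (coeff m (F b)) = 1 := by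
            by_contra h2
            apply hw
            rw [hP]
            exact Or.inr (Set.mem_iUnion.2 ⟨b, Set.mem_iUnion₂.2 ⟨m, mem_support_iff.2 hm, h2⟩⟩)
          rw [h1, one_pow]
  refine (Set.ncard_le_ncard hsub (hTf.union hover)).trans ?_
  refine (Set.ncard_union_le _ _).trans ?_
  exact Nat.add_le_add_left hcard _

end Pool.Agent.Lib.MP_44a246_ntMU
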