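import Mathlib
import Pool.Agent.Lib.MP_44a246_ntMU.MU09
import Pool.Agent.Lib.MP_44a246_ntMU.MU10

/-!
The height inequality with the truncated counting function outside a finite set of places, and the
points of bounded degree.
-/

namespace Pool.Agent.Lib.MP_44a246_ntMU

open Pool.Agent.Lib.MP_44a246_nt
open Pool.Agent.Lib.MP_44a246_ntL
open Pool.Agent.Lib.MP_44a246_ntMS
open Pool.Agent.Lib.MP_e52354_ntSD (GenK)
open WithZero MvPolynomial

universe u v w x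

/-- the field of a point, after a scaling with the weights -/
theorem pointField_scale {K L : Type*} [Field K] [Field L] [Algebra K L] {q : ℕ}
    {wt : Fin q → ℕ} {x : Fin q → L} {i j : Fin q} (hi : x i = 1) (hwi : wt i = 1)
    (hwj : wt j = 1) {c : L} (hc : c * x j = 1)
    (hgen : IntermediateField.adjoin K (Set.range x) = ⊤) :
    pointField K (fun l => c ^ wt l * x l) = ⊤ := by
  rw [eq_top_iff, ← hgen, IntermediateField.adjoin_le_iff]
  have h1 : ∀ l, c ^ wt l * x l ∈ pointField K (fun l => c ^ wt l * x l) := by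
    intro l
    refine IntermediateField.subset_adjoin K _ ⟨l, j, ?_⟩
    show c ^ wt l * x l = (c ^ wt l * x l) / (c ^ wt j * x j)
    rw [hwj, pow_one, hc, div_one]
  have hcm : c ∈ pointField K (fun l => c ^ wt l * x l) := by
    have h2 := h1 i
    rw [hi, hwi, pow_one, mul_one] at h2
    exact h2
  have hc0 : c ≠ 0 := by
    rintro rfl
    rw [zero_mul] at hc
    exact zero_ne_one hc
  rintro _ ⟨l, rfl⟩
  have h2 : x l = (c ^ wt l)⁻¹ * (c ^ wt l * x l) := by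
    rw [← mul_assoc, inv_mul_cancel₀ (pow_ne_zero _ hc0), one_mul]
  rw [h2]
  exact mul_mem (inv_mem (pow_mem hcm _)) (h1 l)

/-- the arithmetic of the bound for the points of bounded degree -/
theorem bounded_arith {θ ω r h N R C H : ℤ} (hr : 1 ≤ r) (hω : 1 ≤ ω) (hC : 0 ≤ C)
    (h1 : θ * h ≤ R + N + C * r) (hR : R ≤ 2 * (r - 1) * H) (hH : H ≤ ω * (h + C * r)) :
    (θ - 2 * ω * (r - 1)) * h ≤ N + C * (2 * ω) * r ^ 2 := by
  have hr0 : 0 ≤ r - 1 := by linarith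
  have h2 : R ≤ 2 * (r - 1) * (ω * (h + C * r)) :=
    hR.trans (mul_le_mul_of_nonneg_left hH (by linarith))
  have h3 : (θ - 2 * ω * (r - 1)) * h ≤ N + C * r * (1 + 2 * ω * (r - 1)) := by
    nlinarith
  have h6 : C * r * (1 + 2 * ω * (r - 1)) ≤ C * r * (2 * ω * r) :=
    mul_le_mul_of_nonneg_left (by nlinarith) (mul_nonneg hC (by linarith))
  calc _ ≤ _ := h3
    _ ≤ N + C * r * (2 * ω * r) := by linarith
    _ = _ := by ring

/-- **The height inequality for several forms, with the truncated counting function.** -/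
theorem several_formsN {κ : Type u} {K : Type v} [Field κ] [IsAlgClosed κ] [CharZero κ]
    [Field K] [CharZero K] [Algebra κ K] (hK : IsFF κ K) {k : Type x} [Field k] [CharZero k]
    [Algebra k K] {N n q p c m s ω θ : ℕ}
    {d : Fin p → ℕ} {wt : Fin q → ℕ} (hwt : ∀ i, 1 ≤ wt i) (hω : ∀ i, wt i ≤ ω)
    {e : Fin s → ℕ} {A B : Finset (Fin p)} (hAB : Disjoint A B) {a : Fin p → ℕ}
    (had : ∀ j ∈ A ∪ B, a j ≤ d j)
    (hd : ∑ j ∈ A ∪ B, a j + 2 * n + 1 + ∑ i, (wt i - 1) + θ ≤ ∑ j ∈ A ∪ B, d j + A.card)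
    (hc : ∀ j ∈ A ∪ B, c < (m + a j).choose m)
    {ι : Fin (N + 1) → Fin q} (hwι : ∀ l, wt (ι l) = 1)
    (f : Fin s → MvPolynomial (Fin p ⊕ Fin q) k)
    (hf : ∀ i, (f i).IsWeightedHomogeneous (Sum.elim d wt) (e i))
    (hdim : ringKrullDim (MvPolynomial (Fin q) k ⧸ (Ideal.span (Set.range f)).comap
      (rename (Sum.inr : Fin q → Fin p ⊕ Fin q))) ≤ ((n + 1 : ℕ) : WithBot ℕ∞))
    (H : Fin p → MvPolynomial (Fin (N + 1)) K) (hH : ∀ j, (H j).IsHomogeneous (d j))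
    (hgen : GenK k d H c)
    (hX : ∀ y : Fin q → AlgebraicClosure K, (∀ l, y (ι l) = 0) →
      (∀ i, aeval (Sum.elim (fun j => aeval (fun l => y (ι l)) (H j)) y :
        Fin p ⊕ Fin q → AlgebraicClosure K) (f i) = 0) → y = 0) :
    ∃ (t : ℕ) (G : Fin t → MvPolynomial (Fin (N + 1)) K),
      (∀ i, (G i).IsHomogeneous (∑ j ∈ A ∪ B, a j)) ∧
      ringKrullDim (MvPolynomial (Fin (N + 1)) K ⧸ Ideal.span (Set.range G)) ≤
        (m : WithBot ℕ∞) ∧
      ∀ S : Set (Place κ K), S.Finite → ∃ C : ℕ, ∀ (L : Type w) [Field L] [Algebra K L]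
        [FiniteDimensional K L] [Algebra κ L] [IsScalarTower κ K L] [Algebra k L]
        [IsScalarTower k K L] (x : Fin q → L), (fun l => x (ι l)) ≠ 0 →
        (∀ i, aeval (Sum.elim (fun j => aeval (fun l => x (ι l)) (H j)) x : Fin p ⊕ Fin q → L)
          (f i) = 0) →
        Det f A (Sum.elim (fun j => aeval (fun l => x (ι l)) (H j)) x) →
        (∀ j ∈ B, aeval (fun l => x (ι l)) (H j) ≠ 0) →
        (∃ l, aeval (fun l => x (ι l)) (G l) ≠ 0) →
        (θ : ℤ) * height κ (fun l => x (ι l)) ≤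
          ({w : Place κ L | (∀ v ∈ S, ¬ (w.1.comap (algebraMap K L)).IsEquiv v.1) ∧ ∃ j ∈ B,
            w.1 (aeval (fun l => x (ι l)) (H j)) < vmax w.1 (fun l => x (ι l)) ^ d j}.ncard : ℤ) +
          ramDeg κ L K + C * Module.finrank K L ∧
        ((∃ l, x (ι l) = 1) → IntermediateField.adjoin K (Set.range x) = ⊤ →
          (θ - 2 * (ω : ℤ) * ((Module.finrank K L : ℤ) - 1)) * height κ (fun l => x (ι l)) ≤
            ({w : Place κ L | (∀ v ∈ S, ¬ (w.1.comap (algebraMap K L)).IsEquiv v.1) ∧ ∃ j ∈ B,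
              w.1 (aeval (fun l => x (ι l)) (H j)) <
                vmax w.1 (fun l => x (ι l)) ^ d j}.ncard : ℤ) +
            C * (Module.finrank K L : ℤ) ^ 2) := by
  classical
  obtain ⟨J, hJdef⟩ : ∃ J : Fin p → ℕ, J = fun j => d j - a j := ⟨_, rfl⟩
  have hJ : ∀ j ∈ A ∪ B, d j = J j + a j := fun j hj => by
    rw [hJdef]
    have h1 := had j hj
    simp only
    omega
  have hsum : ∑ j ∈ A ∪ B, J j + ∑ j ∈ A ∪ B, a j = ∑ j ∈ A ∪ B, d j := by
    rw [← Finset.sum_add_distrib]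
    exact Finset.sum_congr rfl fun j hj => (hJ j hj).symm
  obtain ⟨t, G, hG, hGd, C₁, hC₁⟩ := several_forms.{u, v, w, x} hK hwt hω hAB hJ hc hwι f hf hdim H
    hH hgen hX
  refine ⟨t, G, hG, hGd, fun S hS => ?_⟩
  obtain ⟨C₂, hC₂⟩ := ncard_le_trunc.{u, v, w} hK (F := fun b : B => H b) (d := fun b : B => d b)
    (fun b => hH b) hS
  refine ⟨(C₁ + C₂) * (2 * (ω + 1)), fun L _ _ _ _ _ _ _ x hx hxf hdet hxB hxG => ?_⟩
  have hL : IsFF κ L := hK.of_finite
  obtain ⟨h1, c', j₀, hcj, h2⟩ := hC₁ L x hx hxf hdet hxB hxG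
  have h3 := hC₂ L (fun l => x (ι l)) hx (fun b => hxB b b.2)
  have hs1 : {w : Place κ L | ∃ b : B, w.1 (aeval (fun l => x (ι l)) (H b)) ≠
      vmax w.1 (fun l => x (ι l)) ^ d b} = {w : Place κ L | ∃ j ∈ B,
        w.1 (aeval (fun l => x (ι l)) (H j)) ≠ vmax w.1 (fun l => x (ι l)) ^ d j} := by
    ext w
    constructor
    · rintro ⟨b, hb⟩
      exact ⟨b, b.2, hb⟩
    · rintro ⟨b, hb, hb'⟩
      exact ⟨⟨b, hb⟩, hb'⟩
  have hs2 : {w : Place κ L | (∀ v ∈ S, ¬ (w.1.comap (algebraMap K L)).IsEquiv v.1) ∧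
      ∃ b : B, w.1 (aeval (fun l => x (ι l)) (H b)) < vmax w.1 (fun l => x (ι l)) ^ d b} =
      {w : Place κ L | (∀ v ∈ S, ¬ (w.1.comap (algebraMap K L)).IsEquiv v.1) ∧ ∃ j ∈ B,
        w.1 (aeval (fun l => x (ι l)) (H j)) < vmax w.1 (fun l => x (ι l)) ^ d j} := by
    ext w
    constructor
    · rintro ⟨h0, b, hb⟩
      exact ⟨h0, b, b.2, hb⟩
    · rintro ⟨h0, b, hb, hb'⟩
      exact ⟨h0, ⟨b, hb⟩, hb'⟩
  rw [hs1, hs2] at h3
  obtain ⟨T, hT⟩ : ∃ T : ℕ, T = {w : Place κ L |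
    (∀ v ∈ S, ¬ (w.1.comap (algebraMap K L)).IsEquiv v.1) ∧ ∃ j ∈ B,
      w.1 (aeval (fun l => x (ι l)) (H j)) < vmax w.1 (fun l => x (ι l)) ^ d j}.ncard := ⟨_, rfl⟩
  rw [← hT] at h3 ⊢
  have hh : 0 ≤ height κ (fun l => x (ι l)) := hL.height_nonneg hx
  have hθ : (θ : ℤ) ≤ ((∑ j ∈ A ∪ B, J j : ℕ) : ℤ) + A.card - 2 * n - 1 -
      (∑ i, (wt i - 1) : ℕ) := by
    omega
  have h4 : (θ : ℤ) * height κ (fun l => x (ι l)) ≤ ramDeg κ L K + T +
      (C₁ + C₂ : ℕ) * Module.finrank K L := by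
    have h5 := (mul_le_mul_of_nonneg_right hθ hh).trans h1
    have h6 : (({w : Place κ L | ∃ j ∈ B, w.1 (aeval (fun l => x (ι l)) (H j)) ≠
        vmax w.1 (fun l => x (ι l)) ^ d j}.ncard : ℕ) : ℤ) ≤ T + C₂ * Module.finrank K L := by
      exact_mod_cast h3
    push_cast
    linarith
  have hr : (1 : ℤ) ≤ Module.finrank K L := by
    exact_mod_cast (Module.finrank_pos : 0 < Module.finrank K L)
  have hC0 : (0 : ℤ) ≤ ((C₁ + C₂ : ℕ) : ℤ) := Int.natCast_nonneg _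
  have hω0 : (0 : ℤ) ≤ ω := Int.natCast_nonneg ω
  have hCle : ((C₁ + C₂ : ℕ) : ℤ) ≤ ((C₁ + C₂ : ℕ) : ℤ) * (2 * (ω + 1)) :=
    le_mul_of_one_le_right hC0 (by linarith)
  refine ⟨?_, ?_⟩
  · have h7 : ((C₁ + C₂ : ℕ) : ℤ) * Module.finrank K L ≤
        ((C₁ + C₂ : ℕ) : ℤ) * (2 * (ω + 1)) * Module.finrank K L :=
      mul_le_mul_of_nonneg_right hCle (by linarith)
    push_cast at h4 h7 ⊢
    linarith
  · rintro ⟨l, hl⟩ hadj
    have hω1 : (1 : ℤ) ≤ ω := by
      have h8 := hω (ι l)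
      rw [hwι] at h8
      exact_mod_cast h8
    obtain ⟨q', rfl⟩ : ∃ q', q = q' + 1 := ⟨q - 1, by have := (ι l).2; omega⟩
    have hpf := pointField_scale hl (hwι l) (hwι j₀) hcj hadj
    have hne : (fun i => c' ^ wt i * x i) ≠ 0 := by
      intro h0
      have h8 := congrFun h0 (ι j₀)
      simp only [hwι, pow_one, Pi.zero_apply] at h8
      rw [hcj] at h8
      exact one_ne_zero h8
    have hR := ramDeg_point hK (fun i => c' ^ wt i * x i) hne hpf
    have h9 : height κ (fun i => c' ^ wt i * x i) ≤ ω * (height κ (fun l => x (ι l)) +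
        (C₁ + C₂ : ℕ) * Module.finrank K L) := by
      refine h2.trans (mul_le_mul_of_nonneg_left ?_ (by linarith))
      push_cast
      nlinarith [Int.natCast_nonneg C₂]
    have h10 := bounded_arith hr hω1 hC0 h4 hR h9
    refine h10.trans ?_
    have h11 : ((C₁ + C₂ : ℕ) : ℤ) * (2 * ω) * (Module.finrank K L : ℤ) ^ 2 ≤
        ((C₁ + C₂ : ℕ) : ℤ) * (2 * (ω + 1)) * (Module.finrank K L : ℤ) ^ 2 :=
      mul_le_mul_of_nonneg_right (mul_le_mul_of_nonneg_left (by linarith) hC0) (by positivity)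
    push_cast at h11 ⊢
    linarith

end Pool.Agent.Lib.MP_44a246_ntMU
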