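import Mathlib
import Pool.Agent.Lib.MP_44a246_ntMS.MW08
import Pool.Agent.Lib.MP_44a246_ntMU.MU11

/-!
The final statement with the coordinates `x_0, ..., x_N` of weight `1` and `y_1, ..., y_q`.
-/

namespace Pool.Agent.Lib.MP_44a246_ntMU

open Pool.Agent.Lib.MP_44a246_nt
open Pool.Agent.Lib.MP_44a246_ntL
open Pool.Agent.Lib.MP_44a246_ntMS
open Pool.Agent.Lib.MP_e52354_ntSD (GenK)
open WithZero MvPolynomial

universe u v w x

/-- the value at a point after the renaming of the variables -/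
theorem aeval_rename_equiv {k L : Type*} [Field k] [Field L] [Algebra k L] {p : ℕ} {τ τ' : Type*}
    (E : τ ≃ τ') (t : Fin p → L) (z : τ' → L) (g : MvPolynomial (Fin p ⊕ τ) k) :
    aeval (Sum.elim t z : Fin p ⊕ τ' → L) (rename (Sum.map id E) g) =
      aeval (Sum.elim t (fun i => z (E i)) : Fin p ⊕ τ → L) g := by
  rw [aeval_rename]
  congr 2
  funext i
  rcases i with i | i
  · rfl
  · rfl

/-- the variables after the renaming -/
theorem inl_notMem_vars {k : Type*} [Field k] {p : ℕ} {τ τ' : Type*} (E : τ ≃ τ') {l : Fin p}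
    {g : MvPolynomial (Fin p ⊕ τ) k} (h : Sum.inl l ∉ g.vars) :
    (Sum.inl l : Fin p ⊕ τ') ∉ (rename (Sum.map id E) g).vars := by
  classical
  intro h1
  obtain ⟨i, hi, hil⟩ := Finset.mem_image.1 (vars_rename _ _ h1)
  rcases i with i | i
  · have h2 : i = l := Sum.inl_injective hil
    rw [h2] at hi
    exact h hi
  · exact absurd hil (by simp)

/-- **The height inequality for several forms**, with the coordinates `x` and `y`. -/
theorem several_forms_xy {κ : Type u} {K : Type v} [Field κ] [IsAlgClosed κ] [CharZero κ]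
    [Field K] [CharZero K] [Algebra κ K] (hK : IsFF κ K) {k : Type x} [Field k] [CharZero k]
    [Algebra k K] {N n q p c m s ω θ : ℕ}
    {d : Fin p → ℕ} {wt : Fin q → ℕ} (hwt : ∀ i, 1 ≤ wt i ∧ wt i ≤ ω) (hω : 1 ≤ ω)
    {e : Fin s → ℕ} {A B : Finset (Fin p)} (hAB : Disjoint A B) {a : Fin p → ℕ}
    (had : ∀ j ∈ A ∪ B, a j ≤ d j)
    (hd : ∑ j ∈ A ∪ B, a j + 2 * n + 1 + ∑ i, (wt i - 1) + θ ≤ ∑ j ∈ A ∪ B, d j + A.card)
    (hc : ∀ j ∈ A ∪ B, c < (m + a j).choose m)
    (f : Fin s → MvPolynomial (Fin p ⊕ (Fin (N + 1) ⊕ Fin q)) k)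
    (hf : ∀ i, (f i).IsWeightedHomogeneous (Sum.elim d (Sum.elim (fun _ => 1) wt)) (e i))
    (hdim : ringKrullDim (MvPolynomial (Fin (N + 1) ⊕ Fin q) k ⧸
      (Ideal.span (Set.range f)).comap (rename (Sum.inr : Fin (N + 1) ⊕ Fin q →
        Fin p ⊕ (Fin (N + 1) ⊕ Fin q)))) ≤ ((n + 1 : ℕ) : WithBot ℕ∞))
    (H : Fin p → MvPolynomial (Fin (N + 1)) K) (hH : ∀ j, (H j).IsHomogeneous (d j))
    (hgen : (Nat.card {I : Fin p × (Fin (N + 1) →₀ ℕ) // I.2.degree = d I.1} : Cardinal) ≤
      Algebra.trdeg k (IntermediateField.adjoin k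
        (Set.range fun I : {I : Fin p × (Fin (N + 1) →₀ ℕ) // I.2.degree = d I.1} =>
          (H I.1.1).coeff I.1.2)) + c)
    (hX : ∀ y : Fin q → AlgebraicClosure K, (∀ i, aeval (Sum.elim
      (fun j => aeval (fun _ => (0 : AlgebraicClosure K)) (H j)) (Sum.elim (fun _ => 0) y) :
        Fin p ⊕ (Fin (N + 1) ⊕ Fin q) → AlgebraicClosure K) (f i) = 0) → y = 0) :
    ∃ (t : ℕ) (G : Fin t → MvPolynomial (Fin (N + 1)) K),
      (∀ i, (G i).IsHomogeneous (∑ j ∈ A ∪ B, a j)) ∧
      ringKrullDim (MvPolynomial (Fin (N + 1)) K ⧸ Ideal.span (Set.range G)) ≤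
        (m : WithBot ℕ∞) ∧
      ∀ S : Set (Place κ K), S.Finite → ∃ C : ℕ, ∀ (L : Type w) [Field L] [Algebra K L]
        [FiniteDimensional K L] [Algebra κ L] [IsScalarTower κ K L] [Algebra k L]
        [IsScalarTower k K L] (x : Fin (N + 1) → L) (y : Fin q → L), x ≠ 0 →
        (∀ i, aeval (Sum.elim (fun j => aeval x (H j)) (Sum.elim x y) :
          Fin p ⊕ (Fin (N + 1) ⊕ Fin q) → L) (f i) = 0) →
        ((∃ i : A → Fin s, (Matrix.of fun α β : A => aeval (Sum.elim (fun j => aeval x (H j))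
            (Sum.elim x y) : Fin p ⊕ (Fin (N + 1) ⊕ Fin q) → L)
              (pderiv (Sum.inl β.1) (f (i α)))).det ≠ 0) ∨
          ∀ j ∈ A, ∃ (i : Fin s) (τ : L), (∀ l ∈ A, l ≠ j → Sum.inl l ∉ (f i).vars) ∧
            aeval (Sum.elim (Function.update (fun j => aeval x (H j)) j τ) (Sum.elim x y) :
              Fin p ⊕ (Fin (N + 1) ⊕ Fin q) → L) (f i) ≠ 0) →
        (∀ j ∈ B, aeval x (H j) ≠ 0) → (∃ l, aeval x (G l) ≠ 0) →
        (θ : ℤ) * height κ x ≤
          ({w : Place κ L | (∀ v ∈ S, ¬ (w.1.comap (algebraMap K L)).IsEquiv v.1) ∧ ∃ j ∈ B,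
            w.1 (aeval x (H j)) < vmax w.1 x ^ d j}.ncard : ℤ) +
          ramDeg κ L K + C * Module.finrank K L ∧
        ((∃ l, x l = 1) → IntermediateField.adjoin K (Set.range x ∪ Set.range y) = ⊤ →
          (θ - 2 * (ω : ℤ) * ((Module.finrank K L : ℤ) - 1)) * height κ x ≤
            ({w : Place κ L | (∀ v ∈ S, ¬ (w.1.comap (algebraMap K L)).IsEquiv v.1) ∧ ∃ j ∈ B,
              w.1 (aeval x (H j)) < vmax w.1 x ^ d j}.ncard : ℤ) +
            C * (Module.finrank K L : ℤ) ^ 2) := by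
  classical
  obtain ⟨E, hE⟩ : ∃ E : Fin (N + 1) ⊕ Fin q ≃ Fin (N + 1 + q), E = finSumFinEquiv := ⟨_, rfl⟩
  obtain ⟨wt', hwt'⟩ : ∃ wt' : Fin (N + 1 + q) → ℕ,
    wt' = (Sum.elim (fun _ => 1) wt : Fin (N + 1) ⊕ Fin q → ℕ) ∘ E.symm := ⟨_, rfl⟩
  have hwtE : ∀ i, wt' (E i) = (Sum.elim (fun _ => 1) wt : Fin (N + 1) ⊕ Fin q → ℕ) i := by
    intro i
    rw [hwt', Function.comp, Equiv.symm_apply_apply]
  have h1 : ∀ i, 1 ≤ wt' i := by
    intro i
    obtain ⟨i, rfl⟩ := E.surjective i
    rw [hwtE]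
    rcases i with i | i
    · exact le_refl _
    · exact (hwt i).1
  have h2 : ∀ i, wt' i ≤ ω := by
    intro i
    obtain ⟨i, rfl⟩ := E.surjective i
    rw [hwtE]
    rcases i with i | i
    · exact hω
    · exact (hwt i).2
  have h3 : ∑ i, (wt' i - 1) = ∑ i, (wt i - 1) := by
    rw [← E.sum_comp fun i => wt' i - 1, Fintype.sum_sum_type]
    simp only [hwtE, Sum.elim_inl, Sum.elim_inr, Nat.sub_self, Finset.sum_const_zero, zero_add]
  have hEl : ∀ (L : Type w) (x : Fin (N + 1) → L) (y : Fin q → L),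
      (fun i => (Sum.elim x y : Fin (N + 1) ⊕ Fin q → L) (E.symm (E i))) = Sum.elim x y := by
    intro L x y
    funext i
    rw [Equiv.symm_apply_apply]
  obtain ⟨t, G, hG, hGd, hfin⟩ := several_formsN.{u, v, w, x} hK (ι := fun l => E (Sum.inl l))
    (θ := θ) h1 h2 hAB had (by rw [h3]; exact hd) hc (fun l => by rw [hwtE]; rfl)
    (fun i => rename (Sum.map id E) (f i))
    (fun i => by
      rw [hwt']
      exact wh_rename_equiv E (hf i)) (by
        rw [imDim_equiv E f]
        exact hdim) H hH hgen (fun z hz hzf => by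
      have hz0 : (fun l => z (E (Sum.inl l))) = fun _ => 0 := funext hz
      have h4 : (fun i => z (E (Sum.inr i))) = 0 := by
        refine hX _ fun i => ?_
        have h5 := hzf i
        rw [aeval_rename_equiv] at h5
        refine Eq.trans ?_ h5
        congr 2
        funext j
        rcases j with j | j | j
        · show aeval (fun _ => (0 : AlgebraicClosure K)) (H j) =
            aeval (fun l => z (E (Sum.inl l))) (H j)
          rw [hz0]
        · exact (hz j).symm
        · rfl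
      funext i
      obtain ⟨i, rfl⟩ := E.surjective i
      rcases i with i | i
      · exact hz i
      · exact congrFun h4 i)
  refine ⟨t, G, hG, hGd, fun S hS => ?_⟩
  obtain ⟨C, hC⟩ := hfin S hS
  refine ⟨C, fun L _ _ _ _ _ _ _ x y hx hxf hdet hxB hxG => ?_⟩
  have hxι : (fun l => (Sum.elim x y : Fin (N + 1) ⊕ Fin q → L) (E.symm (E (Sum.inl l)))) = x := by
    funext l
    rw [Equiv.symm_apply_apply]
    rfl
  have h6 := hC L (fun i => (Sum.elim x y : Fin (N + 1) ⊕ Fin q → L) (E.symm i)) (by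
      rw [hxι]
      exact hx) (fun i => by
      rw [aeval_rename_equiv, hEl, hxι]
      exact hxf i) (by
      rcases hdet with ⟨i, hi⟩ | h
      · refine Or.inr ⟨i, ?_⟩
        have h7 : (Matrix.of fun a a' : A => aeval (Sum.elim (fun j =>
            aeval (fun l => (Sum.elim x y : Fin (N + 1) ⊕ Fin q → L) (E.symm (E (Sum.inl l))))
              (H j)) fun i => (Sum.elim x y : Fin (N + 1) ⊕ Fin q → L) (E.symm i))
                (pderiv (Sum.inl a'.1) (rename (Sum.map id E) (f (i a))))) =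
            Matrix.of fun α β : A => aeval (Sum.elim (fun j => aeval x (H j))
            (Sum.elim x y) : Fin p ⊕ (Fin (N + 1) ⊕ Fin q) → L)
              (pderiv (Sum.inl β.1) (f (i α))) := by
          ext α β
          have h8 := pderiv_rename (f := (Sum.map id E : Fin p ⊕ (Fin (N + 1) ⊕ Fin q) →
            Fin p ⊕ Fin (N + 1 + q))) (Sum.map_injective.2 ⟨Function.injective_id, E.injective⟩)
            (Sum.inl β.1) (f (i α))
          show aeval _ (pderiv ((Sum.map id E : Fin p ⊕ (Fin (N + 1) ⊕ Fin q) →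
            Fin p ⊕ Fin (N + 1 + q)) (Sum.inl β.1)) (rename (Sum.map id E) (f (i α)))) = _
          rw [h8, aeval_rename_equiv, hEl, hxι]
          rfl
        rw [h7]
        exact hi
      · refine Or.inl fun j hj => ?_
        obtain ⟨i, τ, hfree, hτ⟩ := h j hj
        refine ⟨i, τ, ?_, fun l hl hlj => inl_notMem_vars E (hfree l hl hlj)⟩
        rw [hxι]
        have h7 : (Function.update (Sum.elim (fun j => aeval x (H j))
            (fun i => (Sum.elim x y : Fin (N + 1) ⊕ Fin q → L) (E.symm i)) :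
              Fin p ⊕ Fin (N + 1 + q) → L) (Sum.inl j) τ) =
            Sum.elim (Function.update (fun j => aeval x (H j)) j τ)
              (fun i => (Sum.elim x y : Fin (N + 1) ⊕ Fin q → L) (E.symm i)) :=
          Sum.update_elim_inl.trans rfl
        rw [h7, aeval_rename_equiv, hEl]
        exact hτ) (by
      rw [hxι]
      exact hxB) (by
      rw [hxι]
      exact hxG)
  rw [hxι] at h6
  refine ⟨h6.1, fun ⟨l, hl⟩ hadj => h6.2 ⟨l, ?_⟩ ?_⟩
  · rw [Equiv.symm_apply_apply]
    exact hl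
  · have h5 : Set.range (fun i => (Sum.elim x y : Fin (N + 1) ⊕ Fin q → L) (E.symm i)) =
        Set.range x ∪ Set.range y := by
      rw [← Set.Sum.elim_range]
      exact E.symm.surjective.range_comp _
    rw [h5]
    exact hadj

end Pool.Agent.Lib.MP_44a246_ntMU
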